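import Pool.Agent.R410.NG.CBr

/-!
# The rank of the Jacobian of the generic fibre of a conic bundle
-/

set_option autoImplicit false
set_option linter.all false
set_option maxHeartbeats 1000000

open Polynomial NumberField IsDedekindDomain

namespace Pool.Agent.R410.NG

open Pool.Agent.R410.CB (Spl fq fq_eq rank_cb exists_split deg_fq)
open Pool.Agent.Y707.PC (up up_def)
open Pool.Agent.TH943.HJ (CR)

section
variable {M K : Type} [Field M] [CharZero M] [Field K] [Algebra M K] {ω : K}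

open Classical in
theorem rank_cb' (hω : Transcendental M ω)
    (htop : IntermediateField.adjoin M {ω} = ⊤) {a b c : M[X]} (hodd : Odd c.natDegree)
    (hac : a.natDegree < c.natDegree) (hbc : b.natDegree < c.natDegree)
    (hsq : Squarefree (fq a b c ω)) (hΔ : b ^ 2 - 4 * a * c ≠ 0) :
    (∃ _ : IsDomain (CR (fq a b c ω)), Module.rank ℤ (Additive (ClassGroup (CR (fq a b c ω)))) =
      ((Nat.card (SplT a b c) - if a ≠ 0 ∧ IsSquare a then 1 else 0 : ℕ) : Cardinal)) ∧
    (a ≠ 0 ∧ IsSquare a → 1 ≤ Nat.card (SplT a b c)) := by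
  have hcK : CharZero K := charZero_of_injective_algebraMap (algebraMap M K).injective
  have h2 : (2 : M) ≠ 0 := two_ne_zero
  have h2K : (2 : K) ≠ 0 := two_ne_zero
  have hL : ∀ z : K, ∃ p q : M[X], aeval ω q ≠ 0 ∧ z * aeval ω q = aeval ω p := fun z =>
    gen_line htop z hω
  have hoddF : Odd (fq a b c ω).natDegree := by rw [deg_fq hac hbc]; exact hodd
  have hdom : IsDomain (CR (fq a b c ω)) := Pool.Agent.TH943.HJ.isDomain hoddF
  have hded : IsDedekindDomain (CR (fq a b c ω)) := Pool.Agent.TH943.HJ.dedekind h2K hoddF hsq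
  have hfin : Finite (SplT a b c) := finite_spl h2 hΔ
  let _ : Fintype (SplT a b c) := Fintype.ofFinite _
  have hSp : ∀ δ : SplT a b c, ∃ r s : M[X], Spl a b c δ.1 r s := fun δ => δ.2.2.2
  choose r s hrs using hSp
  refine ⟨⟨hdom, ?_⟩, ?_⟩
  · have h3 := rank_cb h2 hω hL hodd hac hbc hsq hΔ (ι := SplT a b c) (fun δ => δ.1) r s
      (fun δ => δ.2.1) (fun δ => δ.2.2.1) Subtype.val_injective hrs
      (fun δ r' s' hm hi h => ⟨⟨δ, hm, hi, r', s', h⟩, rfl⟩)
    rw [Nat.card_eq_fintype_card]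
    exact h3
  · rintro ⟨ha0, α, hα⟩
    have hα0 : α ≠ 0 := by
      rintro rfl
      rw [mul_zero] at hα
      exact ha0 hα
    obtain ⟨δ, r', s', hm, hi, h, -⟩ := exists_split h2 hω hL hodd hac hbc hsq hα0
      (by rw [hα, sq]) hΔ
    have : Nonempty (SplT a b c) := ⟨⟨δ, hm, hi, r', s', h⟩⟩
    exact Nat.card_pos

end

end Pool.Agent.R410.NG
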