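import Pool.Agent.R410.NG.Tr2
import Pool.Agent.R410.BS.Arr2
import Pool.Agent.Y707.PR.Sys
import Pool.Agent.Y707.DK.Res

/-!
# The residue of the series of the fibre averages, for every model
-/

set_option autoImplicit false
set_option linter.all false

namespace Pool.Agent.R410.NG

open Polynomial NumberField IsDedekindDomain Filter Topology
open Pool.Agent.R410.BS (cF cF_le cB cB_nonneg cmb_eq good_le hom_le)
open Pool.Agent.Y707.PR (HasResidue series series_eq sum_deg_one residue_of co)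
open Pool.Agent.Y707.RX (cmb)
open Pool.Agent.Y707.DK (bound_fin)
open Pool.Agent.W401.Cheb Pool.Agent.W540.BE
open Pool.Agent.H921R2.TatePole (nm two_le_nm below deg nm_eq nm_summable fiber_card_le kerPrime
  kerPrime_bijective)

section
variable {k : Type} [Field k] [NumberField k]

open Classical in
/-- **The residue of a bounded function** with given sums over the primes of degree one. -/
theorem residue_fun {b : HeightOneSpectrum (𝓞 k) → ℝ} {B : ℝ} (hb : ∀ v, |b v| ≤ B)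
    {κ : Type} [Fintype κ] (L : κ → Type) [∀ j, Field (L j)] [∀ j, NumberField (L j)] (a : κ → ℝ)
    {r : ℤ} (hr : ∑ j, a j = r) {D : ℝ}
    (h : ∀ᶠ p : Nat.Primes in cofinite, |∑ᶠ ψ : 𝓞 k →+* ZMod (p : ℕ), b (kerPrime p ψ).1.1 -
      cF L a (ZMod (p : ℕ))| ≤ D * ((p : ℕ) : ℝ) ^ (-(1 / 2) : ℝ))
    (S : Finset (HeightOneSpectrum (𝓞 k))) : HasResidue S b 1 r := by
  classical
  have hnm : ∀ v : HeightOneSpectrum (𝓞 k), (1 : ℝ) < nm v := fun v => by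
    have := Pool.Agent.H921R2.TatePole.two_le_nm v
    exact_mod_cast this
  set c : HeightOneSpectrum (𝓞 k) → ℂ := fun v => if v ∈ S then 0 else ((b v : ℝ) : ℂ) with hc
  have hcB : ∀ v, ‖c v‖ ≤ |B| := by
    intro v
    rw [hc]
    simp only
    split_ifs
    · rw [norm_zero]
      exact abs_nonneg _
    · rw [Complex.norm_real, Real.norm_eq_abs]
      exact (hb v).trans (le_abs_self B)
  obtain ⟨G, hG, hGe⟩ := residue_of (L := L) (a := a) hcB (D := D) (r := r) (by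
    filter_upwards [h, Pool.Agent.W353.FB.finite_below (F := k) S.finite_toSet] with p h1 h2
    have hfin := Pool.Agent.H921R2.TatePole.hom_finite (K := k) p
    let _ := Fintype.ofFinite (𝓞 k →+* ZMod (p : ℕ))
    rw [sum_deg_one, cmb_eq]
    have e1 : ∑ᶠ ψ : 𝓞 k →+* ZMod (p : ℕ), c (kerPrime p ψ).1.1 =
        ((∑ᶠ ψ : 𝓞 k →+* ZMod (p : ℕ), b (kerPrime p ψ).1.1 : ℝ) : ℂ) := by
      rw [finsum_eq_sum_of_fintype, finsum_eq_sum_of_fintype, Complex.ofReal_sum]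
      refine Finset.sum_congr rfl fun ψ _ => ?_
      have h4 : (kerPrime p ψ).1.1 ∉ S := h2 ψ
      rw [hc]
      simp only
      rw [if_neg h4]
    rw [e1, ← Complex.ofReal_neg, ← Complex.ofReal_add, Complex.norm_real, Real.norm_eq_abs]
    rw [show -(∑ᶠ ψ : 𝓞 k →+* ZMod (p : ℕ), b (kerPrime p ψ).1.1) + cF L a (ZMod (p : ℕ)) =
      -(∑ᶠ ψ : 𝓞 k →+* ZMod (p : ℕ), b (kerPrime p ψ).1.1 - cF L a (ZMod (p : ℕ))) by ring, abs_neg]
    exact h1) hr
  refine ⟨?_, G, hG, ?_⟩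
  · intro s hs
    have h1 := Pool.Agent.Y707.PR.summable_log hcB hs
    have h2 := h1.subtype {v | v ∉ S}
    refine h2.congr fun v => ?_
    show c v.1 * _ * _ = _
    rw [hc]
    simp only
    rw [if_neg v.2]
    rfl
  · filter_upwards [hGe] with s hs hre
    rw [series_eq, hs hre]
    push_cast
    rfl

end

section
variable {J O R : Type} [CommRing O] [CommRing R]

/-- The sums do not change under isomorphisms. -/
theorem sR_iso {w : Wt J} {n : J → ℕ} {c : ℝ} (hw : IsWt w n c) (ρ : O →+* R) (g : J → R[X]) (N : R)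
    {F F' : Type} [Field F] [Field F'] (e : F ≃+* F') (ψ : O →+* F) :
    sR w ρ g N F' ((e : F →+* F').comp ψ) = sR w ρ g N F ψ := by
  unfold sR
  let E : {φ : R →+* F // φ.comp ρ = ψ ∧ φ N ≠ 0} ≃
      {φ : R →+* F' // φ.comp ρ = (e : F →+* F').comp ψ ∧ φ N ≠ 0} :=
    { toFun := fun φ => ⟨(e : F →+* F').comp φ.1, by
        rw [RingHom.comp_assoc, φ.2.1], by
        rw [RingHom.comp_apply]
        exact (map_ne_zero_iff _ e.injective).2 φ.2.2⟩
      invFun := fun φ => ⟨(e.symm : F' →+* F).comp φ.1, by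
        rw [RingHom.comp_assoc, φ.2.1, ← RingHom.comp_assoc]
        ext x
        show e.symm (e (ψ x)) = ψ x
        rw [e.symm_apply_apply], by
        rw [RingHom.comp_apply]
        exact (map_ne_zero_iff _ e.symm.injective).2 φ.2.2⟩
      left_inv := fun φ => Subtype.ext (RingHom.ext fun x => e.symm_apply_apply _)
      right_inv := fun φ => Subtype.ext (RingHom.ext fun x => e.apply_symm_apply _) }
  refine (finsum_comp_equiv E (f := fun φ => w F' (fun j => (g j).map φ.1))).symm.trans ?_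
  refine finsum_congr fun φ => ?_
  rw [← hw.iso F F' e]
  congr 1
  funext j
  rw [Polynomial.map_map]
  rfl

end

section
variable {k : Type} [Field k] [NumberField k] {J R B K : Type} [CommRing R] [IsDomain R] [CommRing B]
  [IsDomain B] [Field K] [CharZero K] [Algebra R K] [IsFractionRing R K] [Algebra B K]
  [IsFractionRing B K] [Algebra.FiniteType ℤ R] [Algebra.FiniteType ℤ B] [Algebra (𝓞 k) R]
  [Algebra (𝓞 k) B]

/-- the average over the points of the fibre at `v` -/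
noncomputable def avg (w : Wt J) (g : J → R[X]) (N : R) (m : ℕ) (v : HeightOneSpectrum (𝓞 k)) : ℝ :=
  ((Nat.card (𝓞 k ⧸ v.asIdeal) : ℝ) ^ m)⁻¹ *
    sR w (algebraMap (𝓞 k) R) g N (𝓞 k ⧸ v.asIdeal) (Ideal.Quotient.mk v.asIdeal)

theorem avg_ker {w : Wt J} {n : J → ℕ} {c : ℝ} (hw : IsWt w n c) (g : J → R[X]) (N : R) (m : ℕ)
    (p : Nat.Primes) (ψ : 𝓞 k →+* ZMod (p : ℕ)) :
    letI : Fact (p : ℕ).Prime := ⟨p.2⟩
    avg w g N m (kerPrime p ψ).1.1 =
      (((p : ℕ) : ℝ) ^ m)⁻¹ * sR w (algebraMap (𝓞 k) R) g N (ZMod (p : ℕ)) ψ := by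
  letI : Fact (p : ℕ).Prime := ⟨p.2⟩
  have hsurj : Function.Surjective ψ := ZMod.ringHom_surjective ψ
  let e : (𝓞 k ⧸ (kerPrime p ψ).1.1.asIdeal) ≃+* ZMod (p : ℕ) :=
    RingHom.quotientKerEquivOfSurjective hsurj
  have he : (e : (𝓞 k ⧸ (kerPrime p ψ).1.1.asIdeal) →+* ZMod (p : ℕ)).comp
      (Ideal.Quotient.mk (kerPrime p ψ).1.1.asIdeal) = ψ := by
    ext x
    rfl
  have h1 := sR_iso hw (algebraMap (𝓞 k) R) g N e (Ideal.Quotient.mk (kerPrime p ψ).1.1.asIdeal)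
  rw [he] at h1
  unfold avg
  have h2 : Nat.card (𝓞 k ⧸ (kerPrime p ψ).1.1.asIdeal) = (p : ℕ) := by
    rw [Nat.card_congr e.toEquiv, Nat.card_eq_fintype_card, ZMod.card]
  rw [h2, h1]

/-- **The residue for every model.** -/
theorem all_models {w : Wt J} {n : J → ℕ} {c : ℝ} (hw : IsWt w n c) {e : ℕ}
    (he : Algebra.trdeg ℚ K ≤ e)
    (hρ : (algebraMap R K).comp (algebraMap (𝓞 k) R) = (algebraMap B K).comp (algebraMap (𝓞 k) B))
    {g : J → R[X]} {g' : J → B[X]}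
    (hgg : ∀ j, (g j).map (algebraMap R K) = (g' j).map (algebraMap B K))
    (hg : ∀ j, (g j).Monic ∧ (g j).natDegree = n j) {N : R} (hN : N ≠ 0) {N' : B} (hN' : N' ≠ 0)
    {κ : Type} [Fintype κ] (L : κ → Type) [∀ j, Field (L j)] [∀ j, NumberField (L j)] (a : κ → ℝ)
    {r : ℤ} (hr : ∑ j, a j = r)
    (h1 : ∃ (C : ℝ) (m : ℕ), 0 ≤ C ∧ m ≠ 0 ∧ ∀ (F : Type) [Field F] [Finite F], ((m : ℕ) : F) ≠ 0 →
      ∀ ψ : 𝓞 k →+* F, |sR w (algebraMap (𝓞 k) B) g' N' F ψ| ≤ C * (Nat.card F : ℝ) ^ e)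
    (h2 : ∃ (C : ℝ) (m : ℕ), 0 ≤ C ∧ m ≠ 0 ∧ ∀ (F : Type) [Field F] [Finite F], ((m : ℕ) : F) ≠ 0 →
      |sT w g' N' F - cF L a F * (Nat.card F : ℝ) ^ e| * √(Nat.card F : ℝ) ≤
        C * (Nat.card F : ℝ) ^ e)
    (S : Finset (HeightOneSpectrum (𝓞 k))) : HasResidue S (fun v => avg w g N e v) 1 r := by
  classical
  obtain ⟨C0, m0, hC0, hm0, g0⟩ := transfer_sum hw he (algebraMap (𝓞 k) R) (algebraMap (𝓞 k) B) hρ hgg
    hg hN hN'
  obtain ⟨C1, m1, hC1, hm1, g1⟩ := h1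
  obtain ⟨C2, m2, hC2, hm2, g2⟩ := h2
  -- the average is bounded
  have hb : ∀ᶠ v : HeightOneSpectrum (𝓞 k) in cofinite, |avg w g N e v| ≤ C0 + C1 := by
    have hm : (((m0 * m1 : ℕ)) : 𝓞 k) ≠ 0 := by
      exact_mod_cast mul_ne_zero hm0 hm1
    filter_upwards [Pool.Agent.Y707.PC.ae_notMem hm] with v hv
    have hfin := Pool.Agent.H341R2.finite_v v
    have hmv : (((m0 * m1 : ℕ)) : 𝓞 k ⧸ v.asIdeal) ≠ 0 := by
      intro h0
      apply hv
      rw [← Ideal.Quotient.eq_zero_iff_mem, map_natCast]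
      exact h0
    rw [Nat.cast_mul] at hmv
    have e0 := g0 (𝓞 k ⧸ v.asIdeal) (left_ne_zero_of_mul hmv) (Ideal.Quotient.mk v.asIdeal)
    have e1 := g1 (𝓞 k ⧸ v.asIdeal) (right_ne_zero_of_mul hmv) (Ideal.Quotient.mk v.asIdeal)
    unfold avg
    set q : ℝ := (Nat.card (𝓞 k ⧸ v.asIdeal) : ℝ) with hq
    have hq1 : (1 : ℝ) ≤ q := by
      rw [hq]
      exact_mod_cast Nat.card_pos
    have hs1 : 1 ≤ √q := Real.one_le_sqrt.2 hq1
    have hqe : (0 : ℝ) < q ^ e := by positivity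
    rw [abs_mul, abs_of_pos (inv_pos.2 hqe), inv_mul_le_iff₀ hqe]
    have e2 : |sR w (algebraMap (𝓞 k) R) g N (𝓞 k ⧸ v.asIdeal) (Ideal.Quotient.mk v.asIdeal) -
        sR w (algebraMap (𝓞 k) B) g' N' (𝓞 k ⧸ v.asIdeal) (Ideal.Quotient.mk v.asIdeal)| ≤
        C0 * q ^ e := (le_mul_of_one_le_right (abs_nonneg _) hs1).trans e0
    have e3 := abs_sub_abs_le_abs_sub
      (sR w (algebraMap (𝓞 k) R) g N (𝓞 k ⧸ v.asIdeal) (Ideal.Quotient.mk v.asIdeal))
      (sR w (algebraMap (𝓞 k) B) g' N' (𝓞 k ⧸ v.asIdeal) (Ideal.Quotient.mk v.asIdeal))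
    linarith
  obtain ⟨B', hB'⟩ := bound_fin hb
  refine residue_fun hB' L a hr (D := (Module.finrank ℤ (𝓞 k) : ℝ) * C0 + C2) ?_ S
  have hcof : ∀ᶠ p : Nat.Primes in Filter.cofinite, ((m0 * m2 : ℕ) : ZMod (p : ℕ)) ≠ 0 := by
    have hfin : {p : Nat.Primes | ((m0 * m2 : ℕ) : ZMod (p : ℕ)) = 0}.Finite := by
      refine Set.Finite.of_injOn (f := fun p : Nat.Primes => (p : ℕ))
        (t := ((m0 * m2).primeFactors : Set ℕ)) ?_ ?_ (Finset.finite_toSet _)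
      · intro p hp
        rw [Set.mem_ofPred_eq, ZMod.natCast_eq_zero_iff] at hp
        exact Nat.mem_primeFactors.2 ⟨p.2, hp, mul_ne_zero hm0 hm2⟩
      · intro p _ q _ h
        exact Subtype.ext h
    rw [Filter.eventually_cofinite]
    simpa only [ne_eq, not_not] using hfin
  filter_upwards [hcof] with p hp
  have : Fact (p : ℕ).Prime := ⟨p.2⟩
  have hfin := Pool.Agent.H921R2.TatePole.hom_finite (K := k) p
  let _ := Fintype.ofFinite (𝓞 k →+* ZMod (p : ℕ))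
  rw [Nat.cast_mul] at hp
  have hcard : (Nat.card (ZMod (p : ℕ)) : ℝ) = ((p : ℕ) : ℝ) := by
    rw [Nat.card_eq_fintype_card, ZMod.card]
  have e0 := fun ψ => g0 (ZMod (p : ℕ)) (left_ne_zero_of_mul hp) ψ
  have e2 := g2 (ZMod (p : ℕ)) (right_ne_zero_of_mul hp)
  rw [hcard] at e2
  simp only [hcard] at e0
  set q : ℝ := ((p : ℕ) : ℝ) with hq
  have hq0 : (0 : ℝ) < q := by
    rw [hq]
    exact_mod_cast p.2.pos
  have hqe : (0 : ℝ) < q ^ e := by positivity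
  have hs : 0 < √q := Real.sqrt_pos.2 hq0
  have e3 : ∑ᶠ ψ : 𝓞 k →+* ZMod (p : ℕ), avg w g N e (kerPrime p ψ).1.1 =
      (q ^ e)⁻¹ * sT w g N (ZMod (p : ℕ)) := by
    rw [finsum_eq_sum_of_fintype, sT_sum w (algebraMap (𝓞 k) R), Finset.mul_sum]
    exact Finset.sum_congr rfl fun ψ _ => avg_ker hw g N e p ψ
  have e4 : |sT w g N (ZMod (p : ℕ)) - sT w g' N' (ZMod (p : ℕ))| * √q ≤
      (Module.finrank ℤ (𝓞 k) : ℝ) * C0 * q ^ e := by
    rw [sT_sum w (algebraMap (𝓞 k) R), sT_sum w (algebraMap (𝓞 k) B), ← Finset.sum_sub_distrib]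
    calc |∑ ψ : 𝓞 k →+* ZMod (p : ℕ), (sR w (algebraMap (𝓞 k) R) g N (ZMod (p : ℕ)) ψ -
          sR w (algebraMap (𝓞 k) B) g' N' (ZMod (p : ℕ)) ψ)| * √q ≤
        (∑ ψ : 𝓞 k →+* ZMod (p : ℕ), |sR w (algebraMap (𝓞 k) R) g N (ZMod (p : ℕ)) ψ -
          sR w (algebraMap (𝓞 k) B) g' N' (ZMod (p : ℕ)) ψ|) * √q :=
          mul_le_mul_of_nonneg_right (Finset.abs_sum_le_sum_abs _ _) hs.le
      _ = ∑ ψ : 𝓞 k →+* ZMod (p : ℕ), (|sR w (algebraMap (𝓞 k) R) g N (ZMod (p : ℕ)) ψ -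
          sR w (algebraMap (𝓞 k) B) g' N' (ZMod (p : ℕ)) ψ| * √q) := by rw [Finset.sum_mul]
      _ ≤ ∑ ψ : 𝓞 k →+* ZMod (p : ℕ), C0 * q ^ e := Finset.sum_le_sum fun ψ _ => e0 ψ
      _ = (Nat.card (𝓞 k →+* ZMod (p : ℕ)) : ℝ) * (C0 * q ^ e) := by
          rw [Finset.sum_const, Finset.card_univ, nsmul_eq_mul, Nat.card_eq_fintype_card]
      _ ≤ (Module.finrank ℤ (𝓞 k) : ℝ) * (C0 * q ^ e) := by
          refine mul_le_mul_of_nonneg_right ?_ (by positivity)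
          exact_mod_cast (Pool.Agent.W385.CP.hom_int k (ZMod (p : ℕ))).2
      _ = _ := by ring
  have e5 : ((p : ℕ) : ℝ) ^ (-(1 / 2) : ℝ) = (√q)⁻¹ := by
    rw [hq, Real.sqrt_eq_rpow, ← Real.rpow_neg hq0.le]
  rw [e3, e5]
  have e6 : (q ^ e)⁻¹ * sT w g N (ZMod (p : ℕ)) - cF L a (ZMod (p : ℕ)) =
      (sT w g N (ZMod (p : ℕ)) - cF L a (ZMod (p : ℕ)) * q ^ e) / q ^ e := by
    field_simp
  rw [e6, abs_div, abs_of_pos hqe, div_le_iff₀ hqe, ← div_eq_mul_inv, div_mul_eq_mul_div,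
    le_div_iff₀ hs]
  calc |sT w g N (ZMod (p : ℕ)) - cF L a (ZMod (p : ℕ)) * q ^ e| * √q ≤
      (|sT w g N (ZMod (p : ℕ)) - sT w g' N' (ZMod (p : ℕ))| +
        |sT w g' N' (ZMod (p : ℕ)) - cF L a (ZMod (p : ℕ)) * q ^ e|) * √q :=
        mul_le_mul_of_nonneg_right (abs_sub_le _ _ _) hs.le
    _ ≤ ((Module.finrank ℤ (𝓞 k) : ℝ) * C0 + C2) * q ^ e := by
        rw [add_mul, add_mul]
        exact add_le_add e4 e2

end

end Pool.Agent.R410.NG
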