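import Pool.Agent.R410.NG.Chi

/-!
# The points of a finite covering of a scheme
-/

set_option autoImplicit false
set_option linter.all false
set_option maxHeartbeats 1000000

open Polynomial NumberField

namespace Pool.Agent.R410.NG

open Pool.Agent.R410.BS (ZS hom_le)
open Pool.Agent.R410.LW (FG frac_of_closure ft_int)

section
variable {A : Type} [CommRing A] {F : Type} [Field F]

/-- the points of a finite covering -/
noncomputable def adjEquiv (p : A[X]) :
    (AdjoinRoot p →+* F) ≃ Σ ψ : A →+* F, {x : F // eval₂ ψ x p = 0} where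
  toFun φ := ⟨φ.comp (AdjoinRoot.of p), φ (AdjoinRoot.root p), by
    have h : eval₂ (φ.comp (AdjoinRoot.of p)) (φ (AdjoinRoot.root p)) p = φ (AdjoinRoot.mk p p) := by
      rw [← AdjoinRoot.aeval_eq p, aeval_def, hom_eval₂]
      rfl
    rw [h, AdjoinRoot.mk_self, map_zero]⟩
  invFun w := AdjoinRoot.lift w.1 w.2.1 w.2.2
  left_inv φ := by
    apply AdjoinRoot.ringHom_ext
    · refine RingHom.ext fun a => ?_
      rw [RingHom.comp_apply, AdjoinRoot.lift_of, RingHom.comp_apply]
    · rw [AdjoinRoot.lift_root]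
  right_inv w := by
    rcases w with ⟨ψ, x, h⟩
    have gen : ∀ (ψ' : A →+* F) (x' : F) (h' : eval₂ ψ' x' p = 0), ψ' = ψ → x' = x →
        (⟨ψ', x', h'⟩ : Σ ψ : A →+* F, {x : F // eval₂ ψ x p = 0}) = ⟨ψ, x, h⟩ := by
      rintro ψ' x' h' rfl rfl
      rfl
    refine gen _ _ _ ?_ ?_
    · refine RingHom.ext fun a => ?_
      rw [RingHom.comp_apply, AdjoinRoot.lift_of]
    · exact AdjoinRoot.lift_root h

theorem adjEquiv_mk (p f : A[X]) (w : Σ ψ : A →+* F, {x : F // eval₂ ψ x p = 0}) :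
    (adjEquiv p).symm w (AdjoinRoot.mk p f) = eval₂ w.1 w.2.1 f :=
  AdjoinRoot.lift_mk w.2.2 f

open Classical in
/-- the sum over the points of a finite covering -/
theorem S1_mk (p f : A[X]) [Fintype F] [Fintype (A →+* F)] [Finite (AdjoinRoot p →+* F)] :
    S1 (AdjoinRoot.mk p f) F =
      ∑ ψ : A →+* F, ∑ x : F, if eval₂ ψ x p = 0 then chi F (eval₂ ψ x f) else 0 := by
  let _ := Fintype.ofFinite (AdjoinRoot p →+* F)
  rw [S1_eq, ← (adjEquiv (F := F) p).symm.sum_comp, Fintype.sum_sigma]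
  refine Finset.sum_congr rfl fun ψ _ => ?_
  rw [← Finset.sum_filter]
  rw [Finset.sum_subtype (Finset.univ.filter fun x : F => eval₂ ψ x p = 0)
    (p := fun x : F => eval₂ ψ x p = 0) (fun x => by simp)]
  exact Finset.sum_congr rfl fun x _ => by rw [adjEquiv_mk]

end

section
variable {M : Type} [Field M] [CharZero M] {δ : M[X]} [Fact (Irreducible δ)]

instance charZero_adj : CharZero (AdjoinRoot δ) :=
  charZero_of_injective_algebraMap (algebraMap M (AdjoinRoot δ)).injective

theorem fg_adj (hM : FG M) : FG (AdjoinRoot δ) := by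
  classical
  obtain ⟨S, hS⟩ := hM
  refine ⟨S.image (AdjoinRoot.of δ) ∪ {AdjoinRoot.root δ}, ?_⟩
  set Cf := Subfield.closure ((S.image (AdjoinRoot.of δ) ∪ {AdjoinRoot.root δ} :
    Finset (AdjoinRoot δ)) : Set (AdjoinRoot δ)) with hCf
  have hMC : ∀ a : M, AdjoinRoot.of δ a ∈ Cf := by
    intro a
    have ha : a ∈ Subfield.closure (S : Set M) := by rw [hS]; trivial
    have h1 : Subfield.closure (S : Set M) ≤ Cf.comap (AdjoinRoot.of δ) := by
      rw [Subfield.closure_le]
      intro s hs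
      show AdjoinRoot.of δ s ∈ Cf
      apply Subfield.subset_closure
      rw [Finset.coe_union, Finset.coe_image]
      exact Or.inl ⟨s, hs, rfl⟩
    exact h1 ha
  have hr : AdjoinRoot.root δ ∈ Cf := by
    apply Subfield.subset_closure
    rw [Finset.coe_union]
    right
    rw [Finset.coe_singleton]
    rfl
  rw [eq_top_iff]
  intro z _
  obtain ⟨p, rfl⟩ := AdjoinRoot.mk_surjective z
  induction p using Polynomial.induction_on' with
  | add p q hp hq => rw [map_add]; exact add_mem (hp trivial) (hq trivial)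
  | monomial n a =>
    rw [← C_mul_X_pow_eq_monomial, map_mul, map_pow, AdjoinRoot.mk_X, AdjoinRoot.mk_C]
    exact mul_mem (hMC a) (pow_mem hr n)

theorem trdeg_adj {d : ℕ} (hd : Algebra.trdeg ℚ M = d) : Algebra.trdeg ℚ (AdjoinRoot δ) = d := by
  have hδ : δ ≠ 0 := (Fact.out : Irreducible δ).ne_zero
  have hfin : Module.Finite M (AdjoinRoot δ) := (AdjoinRoot.powerBasis hδ).finite
  have ht : IsScalarTower ℚ M (AdjoinRoot δ) := IsScalarTower.of_algebraMap_eq' (Subsingleton.elim _ _)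
  have h2 := trdeg_add_eq ℚ M (A := AdjoinRoot δ)
  rw [trdeg_eq_zero (R := M) (A := AdjoinRoot δ), add_zero, hd] at h2
  exact h2.symm

variable {A : Type} [CommRing A] [IsDomain A] [Algebra A M] [IsFractionRing A M]

/-- the covering and its field -/
noncomputable def jA (δA : A[X]) (h : δA.map (algebraMap A M) = δ) : AdjoinRoot δA →+* AdjoinRoot δ :=
  AdjoinRoot.lift ((AdjoinRoot.of δ).comp (algebraMap A M)) (AdjoinRoot.root δ) (by
    rw [← eval₂_map, h]
    exact AdjoinRoot.eval₂_root δ)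

theorem jA_mk {δA : A[X]} (h : δA.map (algebraMap A M) = δ) (p : A[X]) :
    jA δA h (AdjoinRoot.mk δA p) = AdjoinRoot.mk δ (p.map (algebraMap A M)) := by
  unfold jA
  rw [AdjoinRoot.lift_mk, ← eval₂_map, ← AdjoinRoot.algebraMap_eq, ← aeval_def, AdjoinRoot.aeval_eq]

theorem jA_inj {δA : A[X]} (hm : δA.Monic) (h : δA.map (algebraMap A M) = δ) :
    Function.Injective (jA δA h) := by
  rw [injective_iff_map_eq_zero]
  intro b hb
  obtain ⟨p, rfl⟩ := AdjoinRoot.mk_surjective b
  rw [jA_mk, AdjoinRoot.mk_eq_zero, ← h] at hb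
  rw [AdjoinRoot.mk_eq_zero]
  exact (Polynomial.map_dvd_map _ (IsFractionRing.injective A M) hm).1 hb

theorem jA_dom {δA : A[X]} (hm : δA.Monic) (h : δA.map (algebraMap A M) = δ) :
    IsDomain (AdjoinRoot δA) := (jA_inj hm h).isDomain _

theorem jA_frac {δA : A[X]} (hm : δA.Monic) (h : δA.map (algebraMap A M) = δ) :
    letI : Algebra (AdjoinRoot δA) (AdjoinRoot δ) := (jA δA h).toAlgebra
    IsFractionRing (AdjoinRoot δA) (AdjoinRoot δ) := by
  letI : Algebra (AdjoinRoot δA) (AdjoinRoot δ) := (jA δA h).toAlgebra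
  refine frac_of_closure (R := AdjoinRoot δA) (M := AdjoinRoot δ) (jA_inj hm h) ?_
  set Cf := Subfield.closure (Set.range (algebraMap (AdjoinRoot δA) (AdjoinRoot δ))) with hCf
  have hval : ∀ p : A[X], AdjoinRoot.mk δ (p.map (algebraMap A M)) ∈ Cf := by
    intro p
    rw [← jA_mk h]
    exact Subfield.subset_closure ⟨AdjoinRoot.mk δA p, rfl⟩
  have hMC : ∀ a : M, AdjoinRoot.of δ a ∈ Cf := by
    intro a
    obtain ⟨x, y, -, rfl⟩ := IsFractionRing.div_surjective (A := A) a
    have h1 := hval (C x)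
    have h2 := hval (C y)
    rw [Polynomial.map_C, AdjoinRoot.mk_C] at h1 h2
    rw [map_div₀]
    exact div_mem h1 h2
  have hr : AdjoinRoot.root δ ∈ Cf := by
    have h1 := hval X
    rw [Polynomial.map_X, AdjoinRoot.mk_X] at h1
    exact h1
  rw [eq_top_iff]
  intro z _
  obtain ⟨p, rfl⟩ := AdjoinRoot.mk_surjective z
  induction p using Polynomial.induction_on' with
  | add p q hp hq => rw [map_add]; exact add_mem (hp trivial) (hq trivial)
  | monomial n a =>
    rw [← C_mul_X_pow_eq_monomial, map_mul, map_pow, AdjoinRoot.mk_X, AdjoinRoot.mk_C]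
    exact mul_mem (hMC a) (pow_mem hr n)

variable [Algebra.FiniteType ℤ A]

/-- **The sum over a finite covering.** -/
theorem asy_cov (hM : FG M) {d : ℕ} (hd : Algebra.trdeg ℚ M = d) {δA : A[X]} (hm : δA.Monic)
    (h : δA.map (algebraMap A M) = δ) (f : A[X])
    (hsq : AdjoinRoot.mk δ (f.map (algebraMap A M)) ≠ 0 →
      IsSquare (AdjoinRoot.mk δ (f.map (algebraMap A M))) →
      ∃ s : A[X], AdjoinRoot.mk δA f = AdjoinRoot.mk δA s ^ 2 ∧ IsUnit (AdjoinRoot.mk δA s)) :
    Asy (S1 (AdjoinRoot.mk δA f)) d (open Classical in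
      if AdjoinRoot.mk δ (f.map (algebraMap A M)) ≠ 0 ∧
        IsSquare (AdjoinRoot.mk δ (f.map (algebraMap A M))) then 1 else 0) := by
  classical
  letI : Algebra (AdjoinRoot δA) (AdjoinRoot δ) := (jA δA h).toAlgebra
  have h1 : IsDomain (AdjoinRoot δA) := jA_dom hm h
  have h2 : IsFractionRing (AdjoinRoot δA) (AdjoinRoot δ) := jA_frac hm h
  have h4 : Algebra.FiniteType ℤ (AdjoinRoot δA) := inferInstance
  have h5 := ft_int _ h4
  have hM' : FG (AdjoinRoot δ) := fg_adj hM
  have hd' : Algebra.trdeg ℚ (AdjoinRoot δ) = d := trdeg_adj hd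
  by_cases h6 : AdjoinRoot.mk δ (f.map (algebraMap A M)) ≠ 0 ∧
      IsSquare (AdjoinRoot.mk δ (f.map (algebraMap A M)))
  · rw [if_pos h6]
    obtain ⟨s, hs1, hs2⟩ := hsq h6.1 h6.2
    rw [hs1]
    exact asy_sq1 (M := AdjoinRoot δ) (AdjoinRoot δA) hM' hd' _ hs2
  · rw [if_neg h6]
    by_cases h7 : AdjoinRoot.mk δ (f.map (algebraMap A M)) = 0
    · have h8 : AdjoinRoot.mk δA f = 0 := by
        apply jA_inj hm h
        rw [jA_mk, h7, map_zero]
      rw [h8]
      exact asy_zero1 (AdjoinRoot δA) d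
    · exact asy_nsq1 (M := AdjoinRoot δ) (AdjoinRoot δA) hM' hd' (fun h9 => h6 ⟨h7, h9⟩) _ (jA_mk h f)

end

end Pool.Agent.R410.NG
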