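import Pool.Agent.R410.NG.CBs
import Pool.Agent.R410.NG.PPR
import Pool.Agent.R410.CB.Rk

/-!
# The ring of coefficients of a family of conic bundles
-/

set_option autoImplicit false
set_option linter.all false
set_option maxHeartbeats 1000000

open Polynomial NumberField

namespace Pool.Agent.R410.NG

open Pool.Agent.R410.LW (FG)
open Pool.Agent.R410.BA (lift1 exists_ring)
open Pool.Agent.R410.CB (Spl)
open UniqueFactorizationMonoid

section
variable {M : Type} [Field M] {k : Type} [Field k] [NumberField k] [Algebra k M]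

/-- a ring of coefficients for finitely many polynomials -/
theorem exists_ringP (hM : FG M) {κ : Type} [Fintype κ] (P : κ → M[X]) :
    ∃ A : Subalgebra ℤ M, Algebra.FiniteType ℤ A ∧
    IsFractionRing A M ∧ (∀ z : 𝓞 k, algebraMap k M z ∈ A) ∧
    ∀ j, ∃ q : A[X], q.map (algebraMap A M) = P j := by
  classical
  obtain ⟨A, hA, hft, hfr, hAk⟩ := exists_ringk (k := k) hM (Finset.univ.biUnion fun j => (P j).coeffs)
  refine ⟨A, hft, hfr, hAk, fun j => ?_⟩
  have hl : P j ∈ lifts (algebraMap A M) := by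
    rw [lifts_iff_coeff_lifts]
    intro l
    by_cases h : (P j).coeff l = 0
    · exact ⟨0, by rw [map_zero, h]⟩
    · exact ⟨⟨_, hA _ (Finset.mem_biUnion.2 ⟨j, Finset.mem_univ j, coeff_mem_coeffs h⟩)⟩, rfl⟩
  obtain ⟨q, hq⟩ := (lifts_iff_set_range _).1 hl
  exact ⟨q, hq⟩

end

section
variable {M : Type} [Field M]

open Classical in
/-- the monic irreducible factors -/
noncomputable abbrev FT (D : M[X]) : Type := {δ : M[X] // δ ∈ (normalizedFactors D).toFinset}

open Classical in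
theorem ft_mem {D : M[X]} (hD : D ≠ 0) (δ : M[X]) : δ ∈ (normalizedFactors D).toFinset ↔
    Irreducible δ ∧ δ.Monic ∧ δ ∣ D := by
  rw [Multiset.mem_toFinset, Polynomial.mem_normalizedFactors_iff hD]

open Classical in
/-- the multiplicity -/
noncomputable def mu (D : M[X]) (i : FT D) : ℕ := (normalizedFactors D).count i.1

open Classical in
theorem mu_ne {D : M[X]} (i : FT D) : mu D i ≠ 0 := by
  unfold mu
  rw [Multiset.count_ne_zero]
  exact Multiset.mem_toFinset.1 i.2

open Classical in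
theorem ft_prod (D : M[X]) : D = C D.leadingCoeff * ∏ i : FT D, i.1 ^ mu D i := by
  conv_lhs => rw [← Polynomial.leadingCoeff_mul_prod_normalizedFactors D]
  congr 1
  rw [Finset.prod_multiset_count]
  exact (Finset.prod_coe_sort (normalizedFactors D).toFinset
    (fun δ => δ ^ (normalizedFactors D).count δ)).symm

variable {a b c δ : M[X]}

open Classical in
/-- the vertical divisor splits if and only if the restriction is a square -/
theorem spl_iff (h2 : (2 : M) ≠ 0) (hirr : Irreducible δ) (hΔ : δ ∣ b ^ 2 - 4 * a * c) :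
    (∃ r s : M[X], Spl a b c δ r s) ↔ AdjoinRoot.mk δ (star a c δ) ≠ 0 ∧
      IsSquare (AdjoinRoot.mk δ (star a c δ)) := by
  have : Fact (Irreducible δ) := ⟨hirr⟩
  have h2' : IsUnit (2 : M[X]) := by
    rw [show (2 : M[X]) = C 2 by rw [map_ofNat]]
    exact isUnit_C.2 (isUnit_iff_ne_zero.2 h2)
  constructor
  · rintro ⟨r, s, h⟩
    unfold star
    by_cases ha : δ ∣ a
    · rw [if_pos ha]
      have hr : δ ∣ r := by
        have h1 : δ ∣ r ^ 2 := by
          have := dvd_sub ha h.ha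
          rwa [sub_sub_cancel] at this
        exact hirr.prime.dvd_of_dvd_pow h1
      have hs : ¬ δ ∣ s := fun hs => h.ne ⟨hr, hs⟩
      have e : AdjoinRoot.mk δ c = AdjoinRoot.mk δ s ^ 2 := by
        rw [← map_pow, ← sub_eq_zero, ← map_sub, AdjoinRoot.mk_eq_zero]
        exact h.hc
      rw [e]
      refine ⟨pow_ne_zero _ ?_, ⟨_, sq _⟩⟩
      rw [Ne, AdjoinRoot.mk_eq_zero]
      exact hs
    · rw [if_neg ha]
      have e : AdjoinRoot.mk δ a = AdjoinRoot.mk δ r ^ 2 := by
        rw [← map_pow, ← sub_eq_zero, ← map_sub, AdjoinRoot.mk_eq_zero]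
        exact h.ha
      refine ⟨?_, ?_⟩
      · rw [Ne, AdjoinRoot.mk_eq_zero]
        exact ha
      · rw [e]
        exact ⟨_, sq _⟩
  · rintro ⟨h1, t, ht⟩
    obtain ⟨w, rfl⟩ := AdjoinRoot.mk_surjective t
    unfold star at h1 ht
    by_cases ha : δ ∣ a
    · rw [if_pos ha] at h1 ht
      have hb : δ ∣ b := by
        have h3 : δ ∣ b ^ 2 := by
          have h4 : b ^ 2 = (b ^ 2 - 4 * a * c) + a * (4 * c) := by ring
          rw [h4]
          exact dvd_add hΔ (ha.mul_right _)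
        exact hirr.prime.dvd_of_dvd_pow h3
      refine ⟨0, w, ?_, ?_, ?_, ?_⟩
      · rw [zero_pow two_ne_zero, sub_zero]
        exact ha
      · rw [mul_zero, zero_mul, sub_zero]
        exact hb
      · rw [← AdjoinRoot.mk_eq_zero, map_sub, map_pow, ht]
        ring
      · rintro ⟨-, hw⟩
        apply h1
        rw [ht, AdjoinRoot.mk_eq_zero.2 hw, mul_zero]
    · rw [if_neg ha] at h1 ht
      have hr0 : AdjoinRoot.mk δ w ≠ 0 := by
        intro h3
        apply h1
        rw [ht, h3, mul_zero]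
      have h20 : (2 : AdjoinRoot δ) ≠ 0 := by
        have := (h2'.map (AdjoinRoot.mk δ)).ne_zero
        rwa [map_ofNat] at this
      obtain ⟨s, hs⟩ := AdjoinRoot.mk_surjective (g := δ)
        (AdjoinRoot.mk δ b / (2 * AdjoinRoot.mk δ w))
      have hb : AdjoinRoot.mk δ b = 2 * AdjoinRoot.mk δ w * AdjoinRoot.mk δ s := by
        rw [hs]
        field_simp
      refine ⟨w, s, ?_, ?_, ?_, ?_⟩
      · rw [← AdjoinRoot.mk_eq_zero, map_sub, map_pow, ht]
        ring
      · rw [← AdjoinRoot.mk_eq_zero, map_sub, map_mul, map_mul, map_ofNat, hb]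
        ring
      · have h5 : AdjoinRoot.mk δ (b ^ 2 - 4 * a * c) = 0 := AdjoinRoot.mk_eq_zero.2 hΔ
        rw [map_sub, map_pow, map_mul, map_mul, map_ofNat, hb, ht] at h5
        have h6 : (2 * AdjoinRoot.mk δ w) ^ 2 * (AdjoinRoot.mk δ s ^ 2 - AdjoinRoot.mk δ c) = 0 := by
          linear_combination h5
        have h7 := (mul_eq_zero.1 h6).resolve_left (pow_ne_zero _ (mul_ne_zero h20 hr0))
        rw [← AdjoinRoot.mk_eq_zero, map_sub, map_pow]
        linear_combination -h7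
      · rintro ⟨h3, -⟩
        exact hr0 (AdjoinRoot.mk_eq_zero.2 h3)

theorem spl_dvd {r s : M[X]} (h : Spl a b c δ r s) : δ ∣ b ^ 2 - 4 * a * c := by
  have e : b ^ 2 - 4 * a * c = (b - 2 * r * s) * (b + 2 * r * s) - 4 * (a - r ^ 2) * c -
    4 * r ^ 2 * (c - s ^ 2) := by ring
  rw [e]
  refine dvd_sub (dvd_sub (h.hb.mul_right _) ?_) (h.hc.mul_left _)
  exact (h.ha.mul_left _).mul_right _

/-- the split vertical divisors -/
def SplT (a b c : M[X]) : Type := {δ : M[X] // δ.Monic ∧ Irreducible δ ∧ ∃ r s : M[X], Spl a b c δ r s}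

open Classical in
/-- the condition -/
def cnd (a c : M[X]) (δ : M[X]) : Prop := AdjoinRoot.mk δ (star a c δ) ≠ 0 ∧
      IsSquare (AdjoinRoot.mk δ (star a c δ))

open Classical in
noncomputable def splEquiv (h2 : (2 : M) ≠ 0) (hΔ : b ^ 2 - 4 * a * c ≠ 0) :
    SplT a b c ≃ {i : FT (b ^ 2 - 4 * a * c) // cnd a c i.1} where
  toFun δ := ⟨⟨δ.1, (ft_mem hΔ _).2 ⟨δ.2.2.1, δ.2.1, by
    obtain ⟨r, s, h⟩ := δ.2.2.2
    exact spl_dvd h⟩⟩, by
    obtain ⟨r, s, h⟩ := δ.2.2.2
    exact (spl_iff h2 δ.2.2.1 (spl_dvd h)).1 ⟨r, s, h⟩⟩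
  invFun i := ⟨i.1.1, ((ft_mem hΔ _).1 i.1.2).2.1, ((ft_mem hΔ _).1 i.1.2).1,
    (spl_iff h2 ((ft_mem hΔ _).1 i.1.2).1 ((ft_mem hΔ _).1 i.1.2).2.2).2 i.2⟩
  left_inv δ := rfl
  right_inv i := rfl

open Classical in
theorem card_spl (h2 : (2 : M) ≠ 0) (hΔ : b ^ 2 - 4 * a * c ≠ 0) :
    ∑ i : FT (b ^ 2 - 4 * a * c), (if cnd a c i.1 then (1 : ℝ) else 0) = Nat.card (SplT a b c) := by
  rw [Nat.card_congr (splEquiv h2 hΔ), ← Finset.sum_filter, Finset.sum_const, nsmul_eq_mul, mul_one,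
    Nat.card_eq_fintype_card, Fintype.card_subtype]

theorem finite_spl (h2 : (2 : M) ≠ 0) (hΔ : b ^ 2 - 4 * a * c ≠ 0) : Finite (SplT a b c) := by
  classical
  exact Finite.of_equiv _ (splEquiv h2 hΔ).symm

end

section
variable {M : Type} [Field M] {k : Type} [Field k] [NumberField k] [Algebra k M]

open Classical in
/-- **The ring of coefficients.** -/
theorem exists_dat (hM : FG M) (a b c : M[X]) (hΔ : b ^ 2 - 4 * a * c ≠ 0) :
    ∃ A : Subalgebra ℤ M, Algebra.FiniteType ℤ A ∧ IsFractionRing A M ∧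
      (∀ z : 𝓞 k, algebraMap k M z ∈ A) ∧
      ∃ (aA bA cA : A[X]) (δA : FT (b ^ 2 - 4 * a * c) → A[X]) (u : A),
        aA.map (algebraMap A M) = a ∧ bA.map (algebraMap A M) = b ∧ cA.map (algebraMap A M) = c ∧
        (∀ i, (δA i).map (algebraMap A M) = i.1) ∧ Dat aA bA cA δA (mu (b ^ 2 - 4 * a * c)) u ∧
        (∀ i, (star aA cA (δA i)).map (algebraMap A M) = star a c i.1) ∧
        (∀ i, cnd a c i.1 → ∃ s : A[X], AdjoinRoot.mk (δA i) (star aA cA (δA i)) =
          AdjoinRoot.mk (δA i) s ^ 2 ∧ IsUnit (AdjoinRoot.mk (δA i) s)) ∧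
        (a ≠ 0 → IsSquare a → ∃ s : A[X], aA = s ^ 2 ∧ s ≠ 0 ∧ IsUnit s.leadingCoeff) := by
  set D := b ^ 2 - 4 * a * c with hD
  have hirr : ∀ i : FT D, Irreducible i.1 := fun i => ((ft_mem hΔ _).1 i.2).1
  have hmon : ∀ i : FT D, i.1.Monic := fun i => ((ft_mem hΔ _).1 i.2).2.1
  -- the cofactors
  have h1 : ∀ i : FT D, ∃ x y : M[X], ¬ i.1 ∣ a → x * a + y * i.1 = 1 := by
    intro i
    by_cases h : i.1 ∣ a
    · exact ⟨0, 0, fun h' => (h' h).elim⟩
    · obtain ⟨y, x, hxy⟩ := ((hirr i).coprime_iff_not_dvd).2 h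
      exact ⟨x, y, fun _ => by rw [← hxy]; ring⟩
  choose x1 y1 e1 using h1
  have h2 : ∀ i : FT D, ∃ r : M[X], cnd a c i.1 → i.1 ∣ star a c i.1 - r ^ 2 := by
    intro i
    by_cases h : cnd a c i.1
    · obtain ⟨t, ht⟩ := h.2
      obtain ⟨r, rfl⟩ := AdjoinRoot.mk_surjective t
      refine ⟨r, fun _ => ?_⟩
      rw [← AdjoinRoot.mk_eq_zero, map_sub, map_pow, ht]
      ring
    · exact ⟨0, fun h' => (h h').elim⟩
  choose r e2 using h2
  have h3 : ∀ i : FT D, ∃ x y : M[X], cnd a c i.1 → x * r i + y * i.1 = 1 := by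
    intro i
    by_cases h : cnd a c i.1
    · have h4 : ¬ i.1 ∣ r i := by
        intro h5
        apply h.1
        rw [AdjoinRoot.mk_eq_zero]
        have h6 := dvd_add (e2 i h) (h5.trans (dvd_pow_self _ two_ne_zero))
        rwa [sub_add_cancel] at h6
      obtain ⟨y, x, hxy⟩ := ((hirr i).coprime_iff_not_dvd).2 h4
      exact ⟨x, y, fun _ => by rw [← hxy]; ring⟩
    · exact ⟨0, 0, fun h' => (h h').elim⟩
  choose x3 y3 e3 using h3
  have h4 : ∀ z : FT D × FT D, ∃ x y : M[X], z.1 ≠ z.2 → x * z.1.1 + y * z.2.1 = 1 := by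
    intro z
    by_cases h : z.1 = z.2
    · exact ⟨0, 0, fun h' => (h' h).elim⟩
    · have h5 : IsCoprime z.1.1 z.2.1 := by
        rw [(hirr z.1).coprime_iff_not_dvd]
        intro h6
        apply h
        apply Subtype.ext
        exact eq_of_monic_of_associated (hmon _) (hmon _) ((hirr z.1).associated_of_dvd (hirr z.2) h6)
      obtain ⟨x, y, hxy⟩ := h5
      exact ⟨x, y, fun _ => hxy⟩
  choose x4 y4 e4 using h4
  obtain ⟨s, hs⟩ : ∃ s : M[X], IsSquare a → a = s ^ 2 := by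
    by_cases h : IsSquare a
    · obtain ⟨s, hs⟩ := h
      exact ⟨s, fun _ => by rw [hs, sq]⟩
    · exact ⟨0, fun h' => (h h').elim⟩
  -- the ring
  let P : (Fin 7) ⊕ (FT D × Fin 6) ⊕ ((FT D × FT D) × Fin 2) → M[X] :=
    Sum.elim (![a, b, c, C D.leadingCoeff, C D.leadingCoeff⁻¹, s, C s.leadingCoeff⁻¹])
      (Sum.elim (fun z => ![z.1.1, x1 z.1, y1 z.1, r z.1, x3 z.1, y3 z.1] z.2)
        (fun z => ![x4 z.1, y4 z.1] z.2))
  obtain ⟨A, hft, hfr, hAk, hP⟩ := exists_ringP (k := k) hM P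
  have hinj : Function.Injective (algebraMap A M) := IsFractionRing.injective A M
  have hmi : Function.Injective (Polynomial.map (algebraMap A M)) := Polynomial.map_injective _ hinj
  obtain ⟨aA, haA⟩ : ∃ q : A[X], q.map (algebraMap A M) = a := hP (Sum.inl 0)
  obtain ⟨bA, hbA⟩ : ∃ q : A[X], q.map (algebraMap A M) = b := hP (Sum.inl 1)
  obtain ⟨cA, hcA⟩ : ∃ q : A[X], q.map (algebraMap A M) = c := hP (Sum.inl 2)
  obtain ⟨lA, hlA⟩ : ∃ q : A[X], q.map (algebraMap A M) = C D.leadingCoeff := hP (Sum.inl 3)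
  obtain ⟨lA', hlA'⟩ : ∃ q : A[X], q.map (algebraMap A M) = C D.leadingCoeff⁻¹ := hP (Sum.inl 4)
  obtain ⟨sA, hsA⟩ : ∃ q : A[X], q.map (algebraMap A M) = s := hP (Sum.inl 5)
  obtain ⟨sA', hsA'⟩ : ∃ q : A[X], q.map (algebraMap A M) = C s.leadingCoeff⁻¹ := hP (Sum.inl 6)
  have g1 : ∀ i : FT D, ∃ q : A[X], q.map (algebraMap A M) = i.1 := fun i => hP (Sum.inr (Sum.inl (i, 0)))
  have g2 : ∀ i : FT D, ∃ q : A[X], q.map (algebraMap A M) = x1 i := fun i => hP (Sum.inr (Sum.inl (i, 1)))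
  have g3 : ∀ i : FT D, ∃ q : A[X], q.map (algebraMap A M) = y1 i := fun i => hP (Sum.inr (Sum.inl (i, 2)))
  have g4 : ∀ i : FT D, ∃ q : A[X], q.map (algebraMap A M) = r i := fun i => hP (Sum.inr (Sum.inl (i, 3)))
  have g5 : ∀ i : FT D, ∃ q : A[X], q.map (algebraMap A M) = x3 i := fun i => hP (Sum.inr (Sum.inl (i, 4)))
  have g6 : ∀ i : FT D, ∃ q : A[X], q.map (algebraMap A M) = y3 i := fun i => hP (Sum.inr (Sum.inl (i, 5)))
  have g7 : ∀ z : FT D × FT D, ∃ q : A[X], q.map (algebraMap A M) = x4 z := fun z =>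
    hP (Sum.inr (Sum.inr (z, 0)))
  have g8 : ∀ z : FT D × FT D, ∃ q : A[X], q.map (algebraMap A M) = y4 z := fun z =>
    hP (Sum.inr (Sum.inr (z, 1)))
  clear hP
  clear_value P
  choose δA hδA using g1
  choose x1A hx1A using g2
  choose y1A hy1A using g3
  choose rA hrA using g4
  choose x3A hx3A using g5
  choose y3A hy3A using g6
  choose x4A hx4A using g7
  choose y4A hy4A using g8
  have hδm : ∀ i, (δA i).Monic := fun i => by
    have h5 : ((δA i).map (algebraMap A M)).Monic := by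
      rw [hδA]
      exact hmon i
    exact Function.Injective.monic_map_iff hinj |>.2 h5
  have hdvd : ∀ i (p : A[X]), δA i ∣ p ↔ i.1 ∣ p.map (algebraMap A M) := by
    intro i p
    rw [← hδA i]
    exact (Polynomial.map_dvd_map _ hinj (hδm i)).symm
  have hstar : ∀ i, (star aA cA (δA i)).map (algebraMap A M) = star a c i.1 := by
    intro i
    unfold star
    by_cases h : i.1 ∣ a
    · rw [if_pos h, if_pos ((hdvd i aA).2 (by rw [haA]; exact h)), hcA]
    · rw [if_neg h, if_neg (fun h' => h (by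
        have := (hdvd i aA).1 h'
        rwa [haA] at this)), haA]
  -- the leading coefficient
  have hlc : D.leadingCoeff ≠ 0 := leadingCoeff_ne_zero.2 hΔ
  have hll : lA * lA' = 1 := by
    apply hmi
    rw [Polynomial.map_mul, hlA, hlA', Polynomial.map_one, ← C_mul, mul_inv_cancel₀ hlc, C_1]
  have hl0 : lA = C (lA.coeff 0) := by
    apply hmi
    rw [Polynomial.map_C, ← coeff_map, hlA, coeff_C_zero]
  have hul : IsUnit (lA.coeff 0) := by
    have h5 : IsUnit (C (lA.coeff 0)) := by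
      rw [← hl0]
      exact IsUnit.of_mul_eq_one _ hll
    exact isUnit_C.1 h5
  refine ⟨A, hft, hfr, hAk, aA, bA, cA, δA, lA.coeff 0, haA, hbA, hcA, hδA, ?_, hstar, ?_, ?_⟩
  · refine ⟨hul, ?_, fun i => mu_ne i, hδm, ?_, ?_⟩
    · apply hmi
      rw [Polynomial.map_sub, Polynomial.map_mul, Polynomial.map_mul, Polynomial.map_pow, haA, hbA,
        hcA, Polynomial.map_ofNat, Polynomial.map_mul, Polynomial.map_C, ← coeff_map, hlA, coeff_C_zero,
        Polynomial.map_prod]
      have h5 : b ^ 2 - 4 * a * c = C D.leadingCoeff * ∏ i : FT D, i.1 ^ mu D i := ft_prod D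
      refine h5.trans ?_
      congr 1
      refine Finset.prod_congr rfl fun i _ => ?_
      rw [Polynomial.map_pow, hδA]
    · intro i j hij
      refine ⟨x4A (i, j), y4A (i, j), ?_⟩
      apply hmi
      rw [Polynomial.map_add, Polynomial.map_mul, Polynomial.map_mul, hx4A, hy4A, hδA, hδA,
        Polynomial.map_one]
      exact e4 (i, j) hij
    · intro i
      by_cases h : i.1 ∣ a
      · right
        rw [hdvd, haA]
        exact h
      · left
        refine ⟨x1A i, y1A i, ?_⟩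
        apply hmi
        rw [Polynomial.map_add, Polynomial.map_mul, Polynomial.map_mul, hx1A, hy1A, hδA, haA,
          Polynomial.map_one]
        exact e1 i h
  · intro i hi
    refine ⟨rA i, ?_, ?_⟩
    · rw [← map_pow, ← sub_eq_zero, ← map_sub, AdjoinRoot.mk_eq_zero, hdvd, Polynomial.map_sub,
        Polynomial.map_pow, hstar, hrA]
      exact e2 i hi
    · have h5 : x3A i * rA i + y3A i * δA i = 1 := by
        apply hmi
        rw [Polynomial.map_add, Polynomial.map_mul, Polynomial.map_mul, hx3A, hy3A, hδA, hrA,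
          Polynomial.map_one]
        exact e3 i hi
      have h6 := congrArg (AdjoinRoot.mk (δA i)) h5
      rw [map_add, map_mul, map_mul, AdjoinRoot.mk_self, mul_zero, add_zero, map_one] at h6
      exact IsUnit.of_mul_eq_one_right _ h6
  · intro ha0 hsq
    have h5 := hs hsq
    have hs0 : s ≠ 0 := by
      rintro rfl
      apply ha0
      rw [h5, zero_pow two_ne_zero]
    have hsA0 : sA ≠ 0 := by
      rintro rfl
      rw [Polynomial.map_zero] at hsA
      exact hs0 hsA.symm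
    refine ⟨sA, ?_, hsA0, ?_⟩
    · apply hmi
      rw [haA, Polynomial.map_pow, hsA]
      exact h5
    · have h6 : sA' * C sA.leadingCoeff = 1 := by
        apply hmi
        rw [Polynomial.map_mul, hsA', Polynomial.map_C, ← leadingCoeff_map_of_injective hinj, hsA,
          Polynomial.map_one, ← C_mul, inv_mul_cancel₀ (leadingCoeff_ne_zero.2 hs0), C_1]
      exact isUnit_C.1 (IsUnit.of_mul_eq_one_right _ h6)

end

end Pool.Agent.R410.NG
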