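import Pool.Agent.R410.NG.Nat

/-!
# Natural averages for every model
-/

set_option autoImplicit false
set_option linter.all false
set_option maxHeartbeats 1000000

namespace Pool.Agent.R410.NG

open Polynomial NumberField IsDedekindDomain Filter Topology
open Pool.Agent.R410.BS (cF cF_le cB cB_nonneg cmb_eq good_le hom_le)
open Pool.Agent.Y707.PR (HasResidue series series_eq sum_deg_one residue_of co)
open Pool.Agent.Y707.RX (cmb)
open Pool.Agent.Y707.DK (bound_fin)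
open Pool.Agent.W401.Cheb Pool.Agent.W540.BE
open Pool.Agent.H921R2.TatePole (nm two_le_nm below deg nm_eq nm_summable fiber_card_le kerPrime
  kerPrime_bijective)

section
variable {k : Type} [Field k] [NumberField k] {J R B K : Type} [CommRing R] [IsDomain R] [CommRing B]
  [IsDomain B] [Field K] [CharZero K] [Algebra R K] [IsFractionRing R K] [Algebra B K]
  [IsFractionRing B K] [Algebra.FiniteType ℤ R] [Algebra.FiniteType ℤ B] [Algebra (𝓞 k) R]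
  [Algebra (𝓞 k) B]

/-- **The averages for every model.** -/
theorem avg_data {w : Wt J} {n : J → ℕ} {c : ℝ} (hw : IsWt w n c) {e : ℕ}
    (he : Algebra.trdeg ℚ K ≤ e)
    (hρ : (algebraMap R K).comp (algebraMap (𝓞 k) R) = (algebraMap B K).comp (algebraMap (𝓞 k) B))
    {g : J → R[X]} {g' : J → B[X]}
    (hgg : ∀ j, (g j).map (algebraMap R K) = (g' j).map (algebraMap B K))
    (hg : ∀ j, (g j).Monic ∧ (g j).natDegree = n j) {N : R} (hN : N ≠ 0) {N' : B} (hN' : N' ≠ 0)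
    {κ : Type} [Fintype κ] (L : κ → Type) [∀ j, Field (L j)] [∀ j, NumberField (L j)] (a : κ → ℝ)
    (h1 : ∃ (C : ℝ) (m : ℕ), 0 ≤ C ∧ m ≠ 0 ∧ ∀ (F : Type) [Field F] [Finite F], ((m : ℕ) : F) ≠ 0 →
      ∀ ψ : 𝓞 k →+* F, |sR w (algebraMap (𝓞 k) B) g' N' F ψ| ≤ C * (Nat.card F : ℝ) ^ e)
    (h2 : ∃ (C : ℝ) (m : ℕ), 0 ≤ C ∧ m ≠ 0 ∧ ∀ (F : Type) [Field F] [Finite F], ((m : ℕ) : F) ≠ 0 →
      |sT w g' N' F - cF L a F * (Nat.card F : ℝ) ^ e| * √(Nat.card F : ℝ) ≤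
        C * (Nat.card F : ℝ) ^ e)
 :
    (∃ B' : ℝ, ∀ v : HeightOneSpectrum (𝓞 k), |avg w g N e v| ≤ B') ∧
    ∃ D : ℝ, ∀ᶠ p : Nat.Primes in cofinite, |∑ᶠ ψ : 𝓞 k →+* ZMod (p : ℕ),
      avg w g N e (kerPrime p ψ).1.1 - cF L a (ZMod (p : ℕ))| ≤
        D * ((p : ℕ) : ℝ) ^ (-(1 / 2) : ℝ) := by
  classical
  obtain ⟨C0, m0, hC0, hm0, g0⟩ := transfer_sum hw he (algebraMap (𝓞 k) R) (algebraMap (𝓞 k) B) hρ hgg
    hg hN hN'
  obtain ⟨C1, m1, hC1, hm1, g1⟩ := h1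
  obtain ⟨C2, m2, hC2, hm2, g2⟩ := h2
  -- the average is bounded
  have hb : ∀ᶠ v : HeightOneSpectrum (𝓞 k) in cofinite, |avg w g N e v| ≤ C0 + C1 := by
    have hm : (((m0 * m1 : ℕ)) : 𝓞 k) ≠ 0 := by
      exact_mod_cast mul_ne_zero hm0 hm1
    filter_upwards [Pool.Agent.Y707.PC.ae_notMem hm] with v hv
    have hfin := Pool.Agent.H341R2.finite_v v
    have hmv : (((m0 * m1 : ℕ)) : 𝓞 k ⧸ v.asIdeal) ≠ 0 := by
      intro h0
      apply hv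
      rw [← Ideal.Quotient.eq_zero_iff_mem, map_natCast]
      exact h0
    rw [Nat.cast_mul] at hmv
    have e0 := g0 (𝓞 k ⧸ v.asIdeal) (left_ne_zero_of_mul hmv) (Ideal.Quotient.mk v.asIdeal)
    have e1 := g1 (𝓞 k ⧸ v.asIdeal) (right_ne_zero_of_mul hmv) (Ideal.Quotient.mk v.asIdeal)
    unfold avg
    set q : ℝ := (Nat.card (𝓞 k ⧸ v.asIdeal) : ℝ) with hq
    have hq1 : (1 : ℝ) ≤ q := by
      rw [hq]
      exact_mod_cast Nat.card_pos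
    have hs1 : 1 ≤ √q := Real.one_le_sqrt.2 hq1
    have hqe : (0 : ℝ) < q ^ e := by positivity
    rw [abs_mul, abs_of_pos (inv_pos.2 hqe), inv_mul_le_iff₀ hqe]
    have e2 : |sR w (algebraMap (𝓞 k) R) g N (𝓞 k ⧸ v.asIdeal) (Ideal.Quotient.mk v.asIdeal) -
        sR w (algebraMap (𝓞 k) B) g' N' (𝓞 k ⧸ v.asIdeal) (Ideal.Quotient.mk v.asIdeal)| ≤
        C0 * q ^ e := (le_mul_of_one_le_right (abs_nonneg _) hs1).trans e0
    have e3 := abs_sub_abs_le_abs_sub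
      (sR w (algebraMap (𝓞 k) R) g N (𝓞 k ⧸ v.asIdeal) (Ideal.Quotient.mk v.asIdeal))
      (sR w (algebraMap (𝓞 k) B) g' N' (𝓞 k ⧸ v.asIdeal) (Ideal.Quotient.mk v.asIdeal))
    linarith
  obtain ⟨B', hB'⟩ := bound_fin hb
  refine ⟨⟨B', hB'⟩, (Module.finrank ℤ (𝓞 k) : ℝ) * C0 + C2, ?_⟩
  have hcof : ∀ᶠ p : Nat.Primes in Filter.cofinite, ((m0 * m2 : ℕ) : ZMod (p : ℕ)) ≠ 0 := by
    have hfin : {p : Nat.Primes | ((m0 * m2 : ℕ) : ZMod (p : ℕ)) = 0}.Finite := by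
      refine Set.Finite.of_injOn (f := fun p : Nat.Primes => (p : ℕ))
        (t := ((m0 * m2).primeFactors : Set ℕ)) ?_ ?_ (Finset.finite_toSet _)
      · intro p hp
        rw [Set.mem_ofPred_eq, ZMod.natCast_eq_zero_iff] at hp
        exact Nat.mem_primeFactors.2 ⟨p.2, hp, mul_ne_zero hm0 hm2⟩
      · intro p _ q _ h
        exact Subtype.ext h
    rw [Filter.eventually_cofinite]
    simpa only [ne_eq, not_not] using hfin
  filter_upwards [hcof] with p hp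
  have : Fact (p : ℕ).Prime := ⟨p.2⟩
  have hfin := Pool.Agent.H921R2.TatePole.hom_finite (K := k) p
  let _ := Fintype.ofFinite (𝓞 k →+* ZMod (p : ℕ))
  rw [Nat.cast_mul] at hp
  have hcard : (Nat.card (ZMod (p : ℕ)) : ℝ) = ((p : ℕ) : ℝ) := by
    rw [Nat.card_eq_fintype_card, ZMod.card]
  have e0 := fun ψ => g0 (ZMod (p : ℕ)) (left_ne_zero_of_mul hp) ψ
  have e2 := g2 (ZMod (p : ℕ)) (right_ne_zero_of_mul hp)
  rw [hcard] at e2
  simp only [hcard] at e0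
  set q : ℝ := ((p : ℕ) : ℝ) with hq
  have hq0 : (0 : ℝ) < q := by
    rw [hq]
    exact_mod_cast p.2.pos
  have hqe : (0 : ℝ) < q ^ e := by positivity
  have hs : 0 < √q := Real.sqrt_pos.2 hq0
  have e3 : ∑ᶠ ψ : 𝓞 k →+* ZMod (p : ℕ), avg w g N e (kerPrime p ψ).1.1 =
      (q ^ e)⁻¹ * sT w g N (ZMod (p : ℕ)) := by
    rw [finsum_eq_sum_of_fintype, sT_sum w (algebraMap (𝓞 k) R), Finset.mul_sum]
    exact Finset.sum_congr rfl fun ψ _ => avg_ker hw g N e p ψ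
  have e4 : |sT w g N (ZMod (p : ℕ)) - sT w g' N' (ZMod (p : ℕ))| * √q ≤
      (Module.finrank ℤ (𝓞 k) : ℝ) * C0 * q ^ e := by
    rw [sT_sum w (algebraMap (𝓞 k) R), sT_sum w (algebraMap (𝓞 k) B), ← Finset.sum_sub_distrib]
    calc |∑ ψ : 𝓞 k →+* ZMod (p : ℕ), (sR w (algebraMap (𝓞 k) R) g N (ZMod (p : ℕ)) ψ -
          sR w (algebraMap (𝓞 k) B) g' N' (ZMod (p : ℕ)) ψ)| * √q ≤
        (∑ ψ : 𝓞 k →+* ZMod (p : ℕ), |sR w (algebraMap (𝓞 k) R) g N (ZMod (p : ℕ)) ψ -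
          sR w (algebraMap (𝓞 k) B) g' N' (ZMod (p : ℕ)) ψ|) * √q :=
          mul_le_mul_of_nonneg_right (Finset.abs_sum_le_sum_abs _ _) hs.le
      _ = ∑ ψ : 𝓞 k →+* ZMod (p : ℕ), (|sR w (algebraMap (𝓞 k) R) g N (ZMod (p : ℕ)) ψ -
          sR w (algebraMap (𝓞 k) B) g' N' (ZMod (p : ℕ)) ψ| * √q) := by rw [Finset.sum_mul]
      _ ≤ ∑ ψ : 𝓞 k →+* ZMod (p : ℕ), C0 * q ^ e := Finset.sum_le_sum fun ψ _ => e0 ψ
      _ = (Nat.card (𝓞 k →+* ZMod (p : ℕ)) : ℝ) * (C0 * q ^ e) := by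
          rw [Finset.sum_const, Finset.card_univ, nsmul_eq_mul, Nat.card_eq_fintype_card]
      _ ≤ (Module.finrank ℤ (𝓞 k) : ℝ) * (C0 * q ^ e) := by
          refine mul_le_mul_of_nonneg_right ?_ (by positivity)
          exact_mod_cast (Pool.Agent.W385.CP.hom_int k (ZMod (p : ℕ))).2
      _ = _ := by ring
  have e5 : ((p : ℕ) : ℝ) ^ (-(1 / 2) : ℝ) = (√q)⁻¹ := by
    rw [hq, Real.sqrt_eq_rpow, ← Real.rpow_neg hq0.le]
  rw [e3, e5]
  have e6 : (q ^ e)⁻¹ * sT w g N (ZMod (p : ℕ)) - cF L a (ZMod (p : ℕ)) =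
      (sT w g N (ZMod (p : ℕ)) - cF L a (ZMod (p : ℕ)) * q ^ e) / q ^ e := by
    field_simp
  rw [e6, abs_div, abs_of_pos hqe, div_le_iff₀ hqe, ← div_eq_mul_inv, div_mul_eq_mul_div,
    le_div_iff₀ hs]
  calc |sT w g N (ZMod (p : ℕ)) - cF L a (ZMod (p : ℕ)) * q ^ e| * √q ≤
      (|sT w g N (ZMod (p : ℕ)) - sT w g' N' (ZMod (p : ℕ))| +
        |sT w g' N' (ZMod (p : ℕ)) - cF L a (ZMod (p : ℕ)) * q ^ e|) * √q :=
        mul_le_mul_of_nonneg_right (abs_sub_le _ _ _) hs.le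
    _ ≤ ((Module.finrank ℤ (𝓞 k) : ℝ) * C0 + C2) * q ^ e := by
        rw [add_mul, add_mul]
        exact add_le_add e4 e2

/-- **The natural average for every model.** -/
theorem natural_models {w : Wt J} {n : J → ℕ} {c : ℝ} (hw : IsWt w n c) {e : ℕ}
    (he : Algebra.trdeg ℚ K ≤ e)
    (hρ : (algebraMap R K).comp (algebraMap (𝓞 k) R) = (algebraMap B K).comp (algebraMap (𝓞 k) B))
    {g : J → R[X]} {g' : J → B[X]}
    (hgg : ∀ j, (g j).map (algebraMap R K) = (g' j).map (algebraMap B K))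
    (hg : ∀ j, (g j).Monic ∧ (g j).natDegree = n j) {N : R} (hN : N ≠ 0) {N' : B} (hN' : N' ≠ 0)
    {κ : Type} [Fintype κ] (L : κ → Type) [∀ j, Field (L j)] [∀ j, NumberField (L j)] (a : κ → ℝ)
    {r : ℝ} (hr : ∑ j, a j = r)
    (h1 : ∃ (C : ℝ) (m : ℕ), 0 ≤ C ∧ m ≠ 0 ∧ ∀ (F : Type) [Field F] [Finite F], ((m : ℕ) : F) ≠ 0 →
      ∀ ψ : 𝓞 k →+* F, |sR w (algebraMap (𝓞 k) B) g' N' F ψ| ≤ C * (Nat.card F : ℝ) ^ e)
    (h2 : ∃ (C : ℝ) (m : ℕ), 0 ≤ C ∧ m ≠ 0 ∧ ∀ (F : Type) [Field F] [Finite F], ((m : ℕ) : F) ≠ 0 →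
      |sT w g' N' F - cF L a F * (Nat.card F : ℝ) ^ e| * √(Nat.card F : ℝ) ≤
        C * (Nat.card F : ℝ) ^ e)
    (S : Finset (HeightOneSpectrum (𝓞 k))) :
    Tendsto (Pool.Agent.W353.FB.average S fun v => avg w g N e v) atTop (𝓝 r) := by
  obtain ⟨⟨B', hB'⟩, D, hD⟩ := avg_data hw he hρ hgg hg hN hN' L a h1 h2
  exact natural_fun hB' L a hr hD S

end

end Pool.Agent.R410.NG
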