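import Pool.Agent.R410.NG.CBw
import Pool.Agent.R410.NG.Nat2

/-!
# The natural averages for the curves `Y² = a(X) w² + b(X) w + c(X)` over `M(w)`
-/

set_option autoImplicit false
set_option linter.all false
set_option maxHeartbeats 1000000

open Polynomial NumberField IsDedekindDomain Filter Topology

namespace Pool.Agent.R410.NG

open Pool.Agent.R410.LW (FG frac_of_closure)
open Pool.Agent.R410.BS (cF hom_le)
open Pool.Agent.R410.CB (Spl fq fq_eq)
open Pool.Agent.Y707.PC (up up_def)

section
variable {M K : Type} [Field M] [CharZero M] [Field K] [CharZero K] [Algebra M K] {ω : K}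

open Classical in
/-- **The natural average.** -/
theorem natural_cb {k : Type} [Field k] [NumberField k] [Algebra k M] (hM : FG M) {d : ℕ}
    (hd : Algebra.trdeg ℚ M = d) (hω : Transcendental M ω)
    (htop : IntermediateField.adjoin M {ω} = ⊤) {a b c : M[X]} (hodd : Odd c.natDegree)
    (hΔ : b ^ 2 - 4 * a * c ≠ 0)
    (R : Type) [CommRing R] [IsDomain R] [Algebra.FiniteType ℤ R] [Algebra R K] [IsFractionRing R K]
    [Algebra (𝓞 k) R] (hk : ∀ z : 𝓞 k, algebraMap R K (algebraMap (𝓞 k) R z) =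
      algebraMap M K (algebraMap k M z)) (g : Unit → R[X])
    (hg : (g ()).Monic ∧ (g ()).natDegree = c.natDegree)
    (hgK : (g ()).map (algebraMap R K) = fq a b c ω) {N : R} (hN : N ≠ 0)
    (S : Finset (HeightOneSpectrum (𝓞 k))) :
    Tendsto (Pool.Agent.W353.FB.average S fun v => avg wtc g N (d + 1) v) atTop
      (𝓝 ((((Nat.card (SplT a b c) : ℤ) - if a ≠ 0 ∧ IsSquare a then 1 else 0 : ℤ)) : ℝ)) := by
  have h2M : (2 : M) ≠ 0 := two_ne_zero
  obtain ⟨A, hft, hfr, hAk, aA, bA, cA, δA, u, haA, hbA, hcA, hδA, hD, hst, hsq, hasq⟩ :=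
    exists_dat (k := k) hM a b c hΔ
  have hAinj : Function.Injective (algebraMap A M) := IsFractionRing.injective A M
  -- the ring of the line
  let φ : A[X] →+* K := phA (M := M) A ω
  let _ : Algebra A[X] K := φ.toAlgebra
  have _ : IsFractionRing A[X] K := phA_frac A hω htop
  have htr := trdeg_line hd hω htop
  let ρ : 𝓞 k →+* A[X] := C.comp (rho hAk)
  let _ : Algebra (𝓞 k) A[X] := ρ.toAlgebra
  have hft' : Algebra.FiniteType ℤ A[X] := inferInstance
  have hft'' := Pool.Agent.R410.LW.ft_int _ hft'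
  -- the asymptotic value
  have h0 : Asy (fun F _ _ => sT wtc (gC aA bA cA) 1 F) (d + 1)
      ((Nat.card (SplT a b c) : ℝ) - if a ≠ 0 ∧ IsSquare a then 1 else 0) := by
    have t1 : ∀ i ∈ (Finset.univ : Finset (FT (b ^ 2 - 4 * a * c))),
        Asy (S1 (AdjoinRoot.mk (δA i) (star aA cA (δA i)))) d
          (if cnd a c i.1 then (1 : ℝ) else 0) := by
      intro i _
      have : Fact (Irreducible i.1) := ⟨((ft_mem hΔ _).1 i.2).1⟩
      have h3 := asy_cov hM hd (hD.monic i) (hδA i) (star aA cA (δA i)) (by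
        rw [hst]
        intro e1 e2
        exact hsq i ⟨e1, e2⟩)
      rw [hst] at h3
      unfold cnd
      convert h3
    have t2 := (Asy.sum Finset.univ _ _ t1).mulq
    rw [card_spl h2M hΔ] at t2
    have t3 : Asy (S2 aA) (d + 1) (if a ≠ 0 ∧ IsSquare a then (1 : ℝ) else 0) := by
      by_cases h : a ≠ 0 ∧ IsSquare a
      · rw [if_pos h]
        obtain ⟨s, hs1, hs2, hs3⟩ := hasq h.1 h.2
        rw [hs1]
        exact asy_sq A hM hd s hs2 hs3
      · rw [if_neg h]
        by_cases h4 : a = 0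
        · have h5 : aA = 0 := by
            apply Polynomial.map_injective _ hAinj
            rw [haA, h4, Polynomial.map_zero]
          rw [h5]
          exact asy_zero A (d + 1)
        · exact asy_nsq A hM hd (fun h5 => h ⟨h4, h5⟩) aA haA
    have t4 := t2.add t3.neg
    rw [← sub_eq_add_neg] at t4
    refine t4.congr 2 two_ne_zero fun F _ _ h2 => ?_
    have hF := char_of h2
    let _ := Fintype.ofFinite F
    have hfA : Finite (A →+* F) := inferInstance
    let _ := Fintype.ofFinite (A →+* F)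
    have hfX : Finite (A[X] →+* F) := Finite.of_equiv _ (polyEquiv (A := A) (F := F)).symm
    have hfi : ∀ i, Finite (AdjoinRoot (δA i) →+* F) := fun i =>
      Finite.of_equiv _ (adjEquiv (F := F) (δA i)).symm
    rw [hD.sum hF, sub_eq_add_neg]
  obtain ⟨κ, iκ, L, iL, nL, α, hα, C0, N0, hC0, hN0, hasy⟩ := h0
  have hw : IsWt wtc (fun _ : Unit => c.natDegree) ((c.natDegree : ℕ) : ℝ) := isWt_trc hodd
  have hgB : ∀ j : Unit, (g j).map (algebraMap R K) = (gC aA bA cA j).map (algebraMap A[X] K) := by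
    rintro ⟨⟩
    rw [hgK]
    show _ = (gC aA bA cA ()).map φ
    have hφC : φ.comp C = (algebraMap M K).comp (algebraMap A M) := by
      refine RingHom.ext fun z => ?_
      show phA (M := M) A ω (C z) = _
      rw [phA_apply, Polynomial.map_C, aeval_C]
      rfl
    have hφX : φ X = ω := by
      show phA (M := M) A ω X = _
      rw [phA_apply, Polynomial.map_X, aeval_X]
    rw [gC_map, hφC, hφX, ← Polynomial.map_map, ← Polynomial.map_map, ← Polynomial.map_map, haA, hbA,
      hcA, fq_eq, up_def, up_def, up_def]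
    ring
  have hrho : (algebraMap R K).comp (algebraMap (𝓞 k) R) =
      (algebraMap A[X] K).comp (algebraMap (𝓞 k) A[X]) := by
    refine RingHom.ext fun z => ?_
    show algebraMap R K (algebraMap (𝓞 k) R z) = phA (M := M) A ω (C (rho hAk z))
    rw [hk, phA_apply, Polynomial.map_C, aeval_C]
    rfl
  have hα' : ∑ j, α j = (((Nat.card (SplT a b c) : ℤ) - if a ≠ 0 ∧ IsSquare a then 1 else 0 : ℤ) : ℝ) := by
    rw [hα]
    push_cast
    rfl
  refine natural_models hw (e := d + 1) htr.le hrho (g' := gC aA bA cA) hgB (fun _ => hg) hN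
    (N' := (1 : A[X])) one_ne_zero L α hα' ?_ ?_ S
  · -- the bound
    obtain ⟨C3, hC3, g3⟩ := hom_le (R := A) (K := M) (IsFractionRing.injective A M) hd.le
    refine ⟨C3 * (((bA ^ 2 - 4 * aA * cA).natDegree : ℝ) + 1), 2, by positivity, two_ne_zero, ?_⟩
    intro F _ _ h2 ψ₀
    have hF := char_of h2
    let _ := Fintype.ofFinite F
    have hfA : Finite (A →+* F) := inferInstance
    let _ := Fintype.ofFinite (A →+* F)
    have hfX : Finite (A[X] →+* F) := Finite.of_equiv _ (polyEquiv (A := A) (F := F)).symm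
    show |sR wtc (C.comp (rho hAk)) (gC aA bA cA) 1 F ψ₀| ≤ _
    rw [sR_gC]
    set q : ℝ := (Nat.card F : ℝ) with hq
    have hq0 : 0 ≤ q := Nat.cast_nonneg _
    refine (Finset.abs_sum_le_sum_abs _ _).trans ((Finset.sum_le_card_nsmul _ _ _
      fun ψ _ => hD.fib_bound hF ψ).trans ?_)
    rw [nsmul_eq_mul]
    have t2 : ((Finset.univ.filter (fun ψ : A →+* F => ψ.comp (rho hAk) = ψ₀)).card : ℝ) ≤
        C3 * q ^ d := by
      have h1 := g3 F
      rw [Nat.card_eq_fintype_card] at h1
      refine le_trans ?_ h1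
      exact_mod_cast Finset.card_le_univ _
    calc _ ≤ C3 * q ^ d * ((((bA ^ 2 - 4 * aA * cA).natDegree : ℝ) + 1) * q) :=
          mul_le_mul_of_nonneg_right t2 (by positivity)
      _ = C3 * (((bA ^ 2 - 4 * aA * cA).natDegree : ℝ) + 1) * q ^ (d + 1) := by ring
  · exact ⟨C0, N0, hC0, hN0, fun F _ _ hF => hasy F hF⟩

end

end Pool.Agent.R410.NG
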