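import Pool.Agent.R410.NG.CBd
import Pool.Agent.R410.NG.Res

/-!
# The residue for the curves `Y² = a(X) w² + b(X) w + c(X)` over `M(w)`
-/

set_option autoImplicit false
set_option linter.all false
set_option maxHeartbeats 1000000

open Polynomial NumberField IsDedekindDomain

namespace Pool.Agent.R410.NG

open Pool.Agent.R410.LW (FG frac_of_closure)
open Pool.Agent.R410.BS (cF hom_le)
open Pool.Agent.R410.CB (Spl fq fq_eq)
open Pool.Agent.Y707.PC (up up_def)
open Pool.Agent.Y707.PR (HasResidue)

section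
variable {M K : Type} [Field M] [CharZero M] [Field K] [CharZero K] [Algebra M K] {ω : K}

/-- the map of the line -/
noncomputable def phA (A : Type) [CommRing A] [Algebra A M] (ω : K) : A[X] →+* K :=
  eval₂RingHom ((algebraMap M K).comp (algebraMap A M)) ω

theorem phA_apply (A : Type) [CommRing A] [Algebra A M] (p : A[X]) :
    phA (M := M) A ω p = aeval ω (p.map (algebraMap A M)) := by
  unfold phA
  rw [coe_eval₂RingHom, aeval_def, eval₂_map]

theorem phA_inj (A : Type) [CommRing A] [IsDomain A] [Algebra A M] [IsFractionRing A M]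
    (hω : Transcendental M ω) : Function.Injective (phA (M := M) A ω) := by
  intro p q h
  rw [phA_apply, phA_apply] at h
  exact Polynomial.map_injective _ (IsFractionRing.injective A M) (transcendental_iff_injective.1 hω h)

theorem gen_line (htop : IntermediateField.adjoin M {ω} = ⊤) (z : K) (hω : Transcendental M ω) :
    ∃ p q : M[X], aeval ω q ≠ 0 ∧ z * aeval ω q = aeval ω p := by
  have hz : z ∈ IntermediateField.adjoin M {ω} := by rw [htop]; trivial
  obtain ⟨r, s, h⟩ := (IntermediateField.mem_adjoin_simple_iff M z).1 hz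
  by_cases hs : aeval ω s = 0
  · refine ⟨0, 1, ?_, ?_⟩
    · rw [map_one]
      exact one_ne_zero
    · rw [h, hs, div_zero, zero_mul, map_zero]
  · exact ⟨r, s, hs, by rw [h, div_mul_cancel₀ _ hs]⟩

theorem phA_frac (A : Type) [CommRing A] [IsDomain A] [Algebra A M] [IsFractionRing A M]
    (hω : Transcendental M ω) (htop : IntermediateField.adjoin M {ω} = ⊤) :
    letI : Algebra A[X] K := (phA (M := M) A ω).toAlgebra
    IsFractionRing A[X] K := by
  letI : Algebra A[X] K := (phA (M := M) A ω).toAlgebra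
  refine frac_of_closure (R := A[X]) (M := K) (phA_inj A hω) ?_
  set Cf := Subfield.closure (Set.range (algebraMap A[X] K)) with hCf
  have hval : ∀ p : A[X], phA (M := M) A ω p ∈ Cf := fun p => Subfield.subset_closure ⟨p, rfl⟩
  have hMC : ∀ a : M, algebraMap M K a ∈ Cf := by
    intro a
    obtain ⟨x, y, -, rfl⟩ := IsFractionRing.div_surjective (A := A) a
    have h1 := hval (C x)
    have h2 := hval (C y)
    rw [phA_apply, Polynomial.map_C, aeval_C] at h1 h2
    rw [map_div₀]
    exact div_mem h1 h2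
  have hr : ω ∈ Cf := by
    have h1 := hval X
    rw [phA_apply, Polynomial.map_X, aeval_X] at h1
    exact h1
  have hP : ∀ p : M[X], aeval ω p ∈ Cf := by
    intro p
    induction p using Polynomial.induction_on' with
    | add p q hp hq => rw [map_add]; exact add_mem hp hq
    | monomial n a =>
      rw [← C_mul_X_pow_eq_monomial, map_mul, map_pow, aeval_X, aeval_C]
      exact mul_mem (hMC a) (pow_mem hr n)
  rw [eq_top_iff]
  intro z _
  obtain ⟨p, q, hq, hpq⟩ := gen_line htop z hω
  have : z = aeval ω p / aeval ω q := by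
    rw [← hpq, mul_div_cancel_right₀ _ hq]
  rw [this]
  exact div_mem (hP p) (hP q)

theorem trdeg_line {d : ℕ} (hd : Algebra.trdeg ℚ M = d) (hω : Transcendental M ω)
    (htop : IntermediateField.adjoin M {ω} = ⊤) : Algebra.trdeg ℚ K = (d + 1 : ℕ) := by
  have h1 := trdeg_add_eq ℚ M (A := K)
  have h2 : Algebra.IsAlgebraic (IntermediateField.adjoin M {ω}) K := by
    rw [htop]
    refine ⟨fun z => ?_⟩
    have : z = algebraMap (⊤ : IntermediateField M K) K ⟨z, trivial⟩ := rfl
    rw [this]
    exact isAlgebraic_algebraMap _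
  have h3 : Algebra.trdeg M K = 1 := Pool.Agent.R410.LW.trdeg_one ω hω
  rw [h3, hd] at h1
  rw [← h1]
  push_cast
  rfl

open Classical in
/-- **The residue.** -/
theorem residue_cb {k : Type} [Field k] [NumberField k] [Algebra k M] (hM : FG M) {d : ℕ}
    (hd : Algebra.trdeg ℚ M = d) (hω : Transcendental M ω)
    (htop : IntermediateField.adjoin M {ω} = ⊤) {a b c : M[X]} (hodd : Odd c.natDegree)
    (hΔ : b ^ 2 - 4 * a * c ≠ 0)
    (R : Type) [CommRing R] [IsDomain R] [Algebra.FiniteType ℤ R] [Algebra R K] [IsFractionRing R K]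
    [Algebra (𝓞 k) R] (hk : ∀ z : 𝓞 k, algebraMap R K (algebraMap (𝓞 k) R z) =
      algebraMap M K (algebraMap k M z)) (g : Unit → R[X])
    (hg : (g ()).Monic ∧ (g ()).natDegree = c.natDegree)
    (hgK : (g ()).map (algebraMap R K) = fq a b c ω) {N : R} (hN : N ≠ 0)
    (S : Finset (HeightOneSpectrum (𝓞 k))) :
    HasResidue S (fun v => avg wtc g N (d + 1) v) 1
      (((Nat.card (SplT a b c) : ℤ) - if a ≠ 0 ∧ IsSquare a then 1 else 0 : ℤ)) := by
  have h2M : (2 : M) ≠ 0 := two_ne_zero
  obtain ⟨A, hft, hfr, hAk, aA, bA, cA, δA, u, haA, hbA, hcA, hδA, hD, hst, hsq, hasq⟩ :=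
    exists_dat (k := k) hM a b c hΔ
  have hAinj : Function.Injective (algebraMap A M) := IsFractionRing.injective A M
  -- the ring of the line
  let φ : A[X] →+* K := phA (M := M) A ω
  let _ : Algebra A[X] K := φ.toAlgebra
  have _ : IsFractionRing A[X] K := phA_frac A hω htop
  have htr := trdeg_line hd hω htop
  let ρ : 𝓞 k →+* A[X] := C.comp (rho hAk)
  let _ : Algebra (𝓞 k) A[X] := ρ.toAlgebra
  have hft' : Algebra.FiniteType ℤ A[X] := inferInstance
  have hft'' := Pool.Agent.R410.LW.ft_int _ hft'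
  -- the asymptotic value
  have h0 : Asy (fun F _ _ => sT wtc (gC aA bA cA) 1 F) (d + 1)
      ((Nat.card (SplT a b c) : ℝ) - if a ≠ 0 ∧ IsSquare a then 1 else 0) := by
    have t1 : ∀ i ∈ (Finset.univ : Finset (FT (b ^ 2 - 4 * a * c))),
        Asy (S1 (AdjoinRoot.mk (δA i) (star aA cA (δA i)))) d
          (if cnd a c i.1 then (1 : ℝ) else 0) := by
      intro i _
      have : Fact (Irreducible i.1) := ⟨((ft_mem hΔ _).1 i.2).1⟩
      have h3 := asy_cov hM hd (hD.monic i) (hδA i) (star aA cA (δA i)) (by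
        rw [hst]
        intro e1 e2
        exact hsq i ⟨e1, e2⟩)
      rw [hst] at h3
      unfold cnd
      convert h3
    have t2 := (Asy.sum Finset.univ _ _ t1).mulq
    rw [card_spl h2M hΔ] at t2
    have t3 : Asy (S2 aA) (d + 1) (if a ≠ 0 ∧ IsSquare a then (1 : ℝ) else 0) := by
      by_cases h : a ≠ 0 ∧ IsSquare a
      · rw [if_pos h]
        obtain ⟨s, hs1, hs2, hs3⟩ := hasq h.1 h.2
        rw [hs1]
        exact asy_sq A hM hd s hs2 hs3
      · rw [if_neg h]
        by_cases h4 : a = 0
        · have h5 : aA = 0 := by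
            apply Polynomial.map_injective _ hAinj
            rw [haA, h4, Polynomial.map_zero]
          rw [h5]
          exact asy_zero A (d + 1)
        · exact asy_nsq A hM hd (fun h5 => h ⟨h4, h5⟩) aA haA
    have t4 := t2.add t3.neg
    rw [← sub_eq_add_neg] at t4
    refine t4.congr 2 two_ne_zero fun F _ _ h2 => ?_
    have hF := char_of h2
    let _ := Fintype.ofFinite F
    have hfA : Finite (A →+* F) := inferInstance
    let _ := Fintype.ofFinite (A →+* F)
    have hfX : Finite (A[X] →+* F) := Finite.of_equiv _ (polyEquiv (A := A) (F := F)).symm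
    have hfi : ∀ i, Finite (AdjoinRoot (δA i) →+* F) := fun i =>
      Finite.of_equiv _ (adjEquiv (F := F) (δA i)).symm
    rw [hD.sum hF, sub_eq_add_neg]
  obtain ⟨κ, iκ, L, iL, nL, α, hα, C0, N0, hC0, hN0, hasy⟩ := h0
  have hw : IsWt wtc (fun _ : Unit => c.natDegree) ((c.natDegree : ℕ) : ℝ) := isWt_trc hodd
  have hgB : ∀ j : Unit, (g j).map (algebraMap R K) = (gC aA bA cA j).map (algebraMap A[X] K) := by
    rintro ⟨⟩
    rw [hgK]
    show _ = (gC aA bA cA ()).map φ
    have hφC : φ.comp C = (algebraMap M K).comp (algebraMap A M) := by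
      refine RingHom.ext fun z => ?_
      show phA (M := M) A ω (C z) = _
      rw [phA_apply, Polynomial.map_C, aeval_C]
      rfl
    have hφX : φ X = ω := by
      show phA (M := M) A ω X = _
      rw [phA_apply, Polynomial.map_X, aeval_X]
    rw [gC_map, hφC, hφX, ← Polynomial.map_map, ← Polynomial.map_map, ← Polynomial.map_map, haA, hbA,
      hcA, fq_eq, up_def, up_def, up_def]
    ring
  have hrho : (algebraMap R K).comp (algebraMap (𝓞 k) R) =
      (algebraMap A[X] K).comp (algebraMap (𝓞 k) A[X]) := by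
    refine RingHom.ext fun z => ?_
    show algebraMap R K (algebraMap (𝓞 k) R z) = phA (M := M) A ω (C (rho hAk z))
    rw [hk, phA_apply, Polynomial.map_C, aeval_C]
    rfl
  have hα' : ∑ j, α j = (((Nat.card (SplT a b c) : ℤ) - if a ≠ 0 ∧ IsSquare a then 1 else 0 : ℤ) : ℝ) := by
    rw [hα]
    push_cast
    rfl
  refine all_models hw (e := d + 1) htr.le hrho (g' := gC aA bA cA) hgB (fun _ => hg) hN
    (N' := (1 : A[X])) one_ne_zero L α hα' ?_ ?_ S
  · -- the bound
    obtain ⟨C3, hC3, g3⟩ := hom_le (R := A) (K := M) (IsFractionRing.injective A M) hd.le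
    refine ⟨C3 * (((bA ^ 2 - 4 * aA * cA).natDegree : ℝ) + 1), 2, by positivity, two_ne_zero, ?_⟩
    intro F _ _ h2 ψ₀
    have hF := char_of h2
    let _ := Fintype.ofFinite F
    have hfA : Finite (A →+* F) := inferInstance
    let _ := Fintype.ofFinite (A →+* F)
    have hfX : Finite (A[X] →+* F) := Finite.of_equiv _ (polyEquiv (A := A) (F := F)).symm
    show |sR wtc (C.comp (rho hAk)) (gC aA bA cA) 1 F ψ₀| ≤ _
    rw [sR_gC]
    set q : ℝ := (Nat.card F : ℝ) with hq
    have hq0 : 0 ≤ q := Nat.cast_nonneg _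
    refine (Finset.abs_sum_le_sum_abs _ _).trans ((Finset.sum_le_card_nsmul _ _ _
      fun ψ _ => hD.fib_bound hF ψ).trans ?_)
    rw [nsmul_eq_mul]
    have t2 : ((Finset.univ.filter (fun ψ : A →+* F => ψ.comp (rho hAk) = ψ₀)).card : ℝ) ≤
        C3 * q ^ d := by
      have h1 := g3 F
      rw [Nat.card_eq_fintype_card] at h1
      refine le_trans ?_ h1
      exact_mod_cast Finset.card_le_univ _
    calc _ ≤ C3 * q ^ d * ((((bA ^ 2 - 4 * aA * cA).natDegree : ℝ) + 1) * q) :=
          mul_le_mul_of_nonneg_right t2 (by positivity)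
      _ = C3 * (((bA ^ 2 - 4 * aA * cA).natDegree : ℝ) + 1) * q ^ (d + 1) := by ring
  · exact ⟨C0, N0, hC0, hN0, fun F _ _ hF => hasy F hF⟩

end

end Pool.Agent.R410.NG
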