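import Pool.Agent.R410.NG.Tr2
import Pool.Agent.R410.BS.Sm

/-!
# The traces of the curves `y² = g(x)`
-/

set_option autoImplicit false
set_option linter.all false

namespace Pool.Agent.R410.NG

open Polynomial Finset
open Pool.Agent.R410.BS (Sw card_aff Sw_bound)

/-- the order of the field minus the number of the affine points of `y² = g(x)` -/
noncomputable def trc (F : Type) [Field F] (g : F[X]) : ℝ :=
  (Nat.card F : ℝ) - Nat.card {P : F × F // P.2 ^ 2 = g.eval P.1}

theorem trc_iso {F F' : Type} [Field F] [Field F'] (e : F ≃+* F') (g : F[X]) :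
    trc F' (g.map (e : F →+* F')) = trc F g := by
  unfold trc
  rw [Nat.card_congr e.toEquiv]
  congr 2
  refine (Nat.card_congr ((Equiv.prodCongr e.toEquiv e.toEquiv).subtypeEquiv fun P => ?_)).symm
  show P.2 ^ 2 = g.eval P.1 ↔ (e P.2) ^ 2 = (g.map (e : F →+* F')).eval (e P.1)
  have h1 : (g.map (e : F →+* F')).eval (e P.1) = e (g.eval P.1) := by
    rw [eval_map]
    exact (hom_eval₂ g (RingHom.id F) (e : F →+* F') P.1).symm
  rw [h1, ← map_pow]
  exact e.injective.eq_iff.symm

theorem trc_char {F : Type} [Field F] [Fintype F] [DecidableEq F] (hF : ringChar F ≠ 2) (g : F[X]) :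
    trc F g = -((∑ x : F, quadraticChar F (g.eval x) : ℤ) : ℝ) := by
  have h := card_aff hF g 0
  simp only [add_zero] at h
  have h2 : Sw g 0 = ∑ x : F, quadraticChar F (g.eval x) := by
    unfold Sw
    simp only [add_zero]
  rw [h2] at h
  have h3 : ((Nat.card {p : F × F // p.2 ^ 2 = g.eval p.1} : ℤ) : ℝ) =
      ((Fintype.card F : ℤ) : ℝ) + ((∑ x : F, quadraticChar F (g.eval x) : ℤ) : ℝ) := by
    rw [h]
    push_cast
    rfl
  unfold trc
  rw [Int.cast_natCast, Int.cast_natCast] at h3
  rw [h3, Nat.card_eq_fintype_card]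
  ring

theorem trc_two {F : Type} [Field F] [Finite F] (hF : ringChar F = 2) (g : F[X]) : trc F g = 0 := by
  classical
  have := Fintype.ofFinite F
  have hc : CharP F 2 := by
    rw [← hF]
    exact ringChar.charP F
  have hb : Function.Bijective (fun y : F => y ^ 2) := by
    have h1 : Function.Injective (frobenius F 2) := frobenius_inj F 2
    exact ⟨h1, Finite.surjective_of_injective h1⟩
  let E := Equiv.ofBijective _ hb
  have h1 : Nat.card {P : F × F // P.2 ^ 2 = g.eval P.1} = Nat.card F := by
    refine Nat.card_congr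
      { toFun := fun P => P.1.1
        invFun := fun x => ⟨(x, E.symm (g.eval x)), E.apply_symm_apply _⟩
        left_inv := fun P => ?_
        right_inv := fun x => rfl }
    apply Subtype.ext
    refine Prod.ext rfl ?_
    show E.symm (g.eval P.1.1) = P.1.2
    rw [← P.2]
    exact E.symm_apply_apply _
  unfold trc
  rw [h1, sub_self]

theorem trc_bound {F : Type} [Field F] [Finite F] {g : F[X]} (hg : g.Monic) {n : ℕ} (hn : g.natDegree = n)
    (hodd : Odd n) : |trc F g| ≤ n * √(Nat.card F : ℝ) := by
  classical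
  have := Fintype.ofFinite F
  by_cases hF : ringChar F = 2
  · rw [trc_two hF, abs_zero]
    positivity
  · have h := Sw_bound hF hg (by rwa [hn]) 0
    have h2 : Sw g 0 = ∑ x : F, quadraticChar F (g.eval x) := by
      unfold Sw
      simp only [add_zero]
    rw [h2] at h
    rw [trc_char hF, abs_neg, Nat.card_eq_fintype_card, ← hn]
    exact h

/-- minus the trace -/
noncomputable abbrev wtc : Wt Unit := fun F _ p => -trc F (p ())

theorem isWt_trc {n : ℕ} (hodd : Odd n) : IsWt wtc (fun _ => n) n where
  c0 := Nat.cast_nonneg _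
  iso F F' _ _ e p := by
    show -trc F' ((p ()).map (e : F →+* F')) = -trc F (p ())
    rw [trc_iso]
  bound F _ _ p hp := by
    show |-trc F (p ())| ≤ _
    rw [abs_neg]
    exact trc_bound (hp ()).1 (hp ()).2 hodd

end Pool.Agent.R410.NG
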