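import Pool.Agent.R410.NG.Adj
import Pool.Agent.R410.NG.Trc

/-!
# The sums of the traces over the points of a family of conic bundles
-/

set_option autoImplicit false
set_option linter.all false
set_option maxHeartbeats 1000000

open Polynomial NumberField

namespace Pool.Agent.R410.NG

open Pool.Agent.R410.BS (hom_le)
open Pool.Agent.R410.LW (FG)

section
variable {F : Type} [Field F]

theorem trc_chi [Fintype F] (g : F[X]) : trc F g = -∑ x : F, chi F (g.eval x) := by
  classical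
  unfold trc
  have e1 : {P : F × F // P.2 ^ 2 = g.eval P.1} ≃ Σ x : F, {y : F // y ^ 2 = g.eval x} :=
    { toFun := fun w => ⟨w.1.1, w.1.2, w.2⟩
      invFun := fun w => ⟨(w.1, w.2.1), w.2.2⟩
      left_inv := fun w => rfl
      right_inv := fun w => rfl }
  rw [Nat.card_congr e1, Nat.card_sigma]
  push_cast
  have e3 : ∀ x : F, (Nat.card {y : F // y ^ 2 = g.eval x} : ℝ) = chi F (g.eval x) + 1 := by
    intro x
    unfold chi
    ring
  rw [Finset.sum_congr rfl fun x _ => e3 x, Finset.sum_add_distrib, Finset.sum_const,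
      Finset.card_univ, nsmul_eq_mul, mul_one, Nat.card_eq_fintype_card]
  ring

variable {A : Type} [CommRing A]

/-- the points of the line -/
noncomputable def polyEquiv : (A[X] →+* F) ≃ (A →+* F) × F where
  toFun φ := (φ.comp C, φ X)
  invFun w := eval₂RingHom w.1 w.2
  left_inv φ := by
    apply Polynomial.ringHom_ext
    · intro a
      rw [coe_eval₂RingHom, eval₂_C]
      rfl
    · rw [coe_eval₂RingHom, eval₂_X]
  right_inv w := by
    refine Prod.ext ?_ ?_
    · refine RingHom.ext fun a => ?_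
      show eval₂ w.1 w.2 (C a) = _
      rw [eval₂_C]
    · show eval₂ w.1 w.2 X = _
      rw [eval₂_X]

/-- the polynomial `a v² + b v + c` over the line -/
noncomputable def gC (a b c : A[X]) : Unit → (A[X])[X] := fun _ =>
  a.map C * C (X ^ 2) + b.map C * C X + c.map C

theorem gC_map (a b c : A[X]) (φ : A[X] →+* F) : (gC a b c ()).map φ =
    a.map (φ.comp C) * C (φ X ^ 2) + b.map (φ.comp C) * C (φ X) + c.map (φ.comp C) := by
  unfold gC
  rw [Polynomial.map_add, Polynomial.map_add, Polynomial.map_mul, Polynomial.map_mul,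
    Polynomial.map_map, Polynomial.map_map, Polynomial.map_map, Polynomial.map_C, Polynomial.map_C,
    map_pow]

theorem wtc_gC [Fintype F] (a b c : A[X]) (φ : A[X] →+* F) :
    wtc F (fun j => (gC a b c j).map φ) = ∑ x : F, chi F (eval₂ (φ.comp C) x a * φ X ^ 2 +
      eval₂ (φ.comp C) x b * φ X + eval₂ (φ.comp C) x c) := by
  show -trc F ((gC a b c ()).map φ) = _
  rw [trc_chi, neg_neg, gC_map]
  refine Finset.sum_congr rfl fun x _ => ?_
  rw [eval_add, eval_add, eval_mul, eval_mul, eval_C, eval_C, eval_map, eval_map, eval_map]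

/-- the sum over the fibre -/
noncomputable def fibC (a b c : A[X]) (F : Type) [Field F] [Fintype F] (ψ : A →+* F) : ℝ :=
  ∑ v : F, ∑ x : F, chi F (eval₂ ψ x a * v ^ 2 + eval₂ ψ x b * v + eval₂ ψ x c)

theorem sT_gC [Fintype F] [Fintype (A →+* F)] [Finite (A[X] →+* F)] (a b c : A[X]) :
    sT wtc (gC a b c) 1 F = ∑ ψ : A →+* F, fibC a b c F ψ := by
  classical
  let _ := Fintype.ofFinite (A[X] →+* F)
  rw [sT_eq]
  have e1 : ∀ φ : A[X] →+* F, (if φ 1 ≠ 0 then wtc F (fun j => (gC a b c j).map φ) else 0) =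
      ∑ x : F, chi F (eval₂ (φ.comp C) x a * φ X ^ 2 +
      eval₂ (φ.comp C) x b * φ X + eval₂ (φ.comp C) x c) := by
    intro φ
    rw [if_pos (by rw [map_one]; exact one_ne_zero), wtc_gC]
  rw [Finset.sum_congr rfl fun φ _ => e1 φ]
  refine (Fintype.sum_equiv (polyEquiv (A := A) (F := F)) _ (fun w => ∑ x : F,
    chi F (eval₂ w.1 x a * w.2 ^ 2 + eval₂ w.1 x b * w.2 + eval₂ w.1 x c)) fun φ => rfl).trans ?_
  rw [Fintype.sum_prod_type]
  rfl

open Classical in
theorem sR_gC {O : Type} [CommRing O] [Fintype F] [Fintype (A →+* F)] [Finite (A[X] →+* F)]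
    (a b c : A[X]) (ρ₀ : O →+* A) (ψ₀ : O →+* F) :
    sR wtc (C.comp ρ₀) (gC a b c) 1 F ψ₀ =
      ∑ ψ ∈ Finset.univ.filter (fun ψ : A →+* F => ψ.comp ρ₀ = ψ₀), fibC a b c F ψ := by
  let _ := Fintype.ofFinite (A[X] →+* F)
  rw [sR_eq]
  have e1 : ∀ φ : A[X] →+* F, (if φ.comp ((C : A →+* A[X]).comp ρ₀) = ψ₀ ∧ φ 1 ≠ 0 then
      wtc F (fun j => (gC a b c j).map φ) else 0) = if (φ.comp C).comp ρ₀ = ψ₀ then
      ∑ x : F, chi F (eval₂ (φ.comp C) x a * φ X ^ 2 +
      eval₂ (φ.comp C) x b * φ X + eval₂ (φ.comp C) x c) else 0 := by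
    intro φ
    rw [wtc_gC, RingHom.comp_assoc]
    by_cases h : φ.comp ((C : A →+* A[X]).comp ρ₀) = ψ₀
    · rw [if_pos ⟨h, by rw [map_one]; exact one_ne_zero⟩, if_pos h]
    · rw [if_neg fun h' => h h'.1, if_neg h]
  rw [Finset.sum_congr rfl fun φ _ => e1 φ]
  refine (Fintype.sum_equiv (polyEquiv (A := A) (F := F)) _ (fun w => if w.1.comp ρ₀ = ψ₀ then
      ∑ x : F, chi F (eval₂ w.1 x a * w.2 ^ 2 + eval₂ w.1 x b * w.2 + eval₂ w.1 x c) else 0)
      fun φ => rfl).trans ?_
  rw [Fintype.sum_prod_type, Finset.sum_filter]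
  refine Finset.sum_congr rfl fun ψ _ => ?_
  unfold fibC
  by_cases h : ψ.comp ρ₀ = ψ₀
  · simp only [if_pos h]
  · simp only [if_neg h, Finset.sum_const_zero]

open Classical in
theorem fibC_eq [Fintype F] (hF : ringChar F ≠ 2) (a b c : A[X]) (ψ : A →+* F) :
    fibC a b c F ψ = (Fintype.card F : ℝ) * ∑ x : F, (if eval₂ ψ x (b ^ 2 - 4 * a * c) = 0 then
      chi F (if eval₂ ψ x a = 0 then eval₂ ψ x c else eval₂ ψ x a) else 0) -
      ∑ x : F, chi F (eval₂ ψ x a) := by
  unfold fibC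
  rw [Finset.sum_comm, Finset.mul_sum, ← Finset.sum_sub_distrib]
  refine Finset.sum_congr rfl fun x _ => ?_
  rw [sum_chi_quad hF]
  have e : eval₂ ψ x (b ^ 2 - 4 * a * c) = eval₂ ψ x b ^ 2 - 4 * eval₂ ψ x a * eval₂ ψ x c := by
    rw [← coe_eval₂RingHom, map_sub, map_mul, map_mul, map_pow, map_ofNat]
  rw [e]
  congr 1
  split_ifs
  · rfl
  · rfl
  · ring

/-- The factorization of the discriminant over the ring of coefficients. -/
structure Dat (a b c : A[X]) {ι : Type} [Fintype ι] (δ : ι → A[X]) (e : ι → ℕ) (u : A) : Prop where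
  hu : IsUnit u
  disc : b ^ 2 - 4 * a * c = C u * ∏ i, δ i ^ e i
  epos : ∀ i, e i ≠ 0
  monic : ∀ i, (δ i).Monic
  cop : ∀ i j, i ≠ j → IsCoprime (δ i) (δ j)
  st : ∀ i, IsCoprime a (δ i) ∨ δ i ∣ a

section
variable {a b c : A[X]} {ι : Type} [Fintype ι] {δ : ι → A[X]} {e : ι → ℕ} {u : A}

theorem Dat.zero_iff (D : Dat a b c δ e u) (θ : A[X] →+* F) :
    θ (b ^ 2 - 4 * a * c) = 0 ↔ ∃ i, θ (δ i) = 0 := by
  rw [D.disc, map_mul, map_prod, mul_eq_zero, Finset.prod_eq_zero_iff]
  have h1 : θ (C u) ≠ 0 := ((D.hu.map C).map θ).ne_zero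
  constructor
  · rintro (h | ⟨i, -, hi⟩)
    · exact (h1 h).elim
    · rw [map_pow] at hi
      exact ⟨i, pow_eq_zero_iff (D.epos i) |>.1 hi⟩
  · rintro ⟨i, hi⟩
    exact Or.inr ⟨i, Finset.mem_univ i, by rw [map_pow, hi, zero_pow (D.epos i)]⟩

theorem cop_hom {p q : A[X]} (h : IsCoprime p q) (θ : A[X] →+* F) (h1 : θ p = 0) (h2 : θ q = 0) :
    False := by
  obtain ⟨x, y, hxy⟩ := h
  have := congrArg θ hxy
  rw [map_add, map_mul, map_mul, h1, h2, mul_zero, mul_zero, add_zero, map_one] at this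
  exact zero_ne_one this

open Classical in
/-- the polynomial whose square root defines the vertical divisor -/
noncomputable def star (a c δ : A[X]) : A[X] := if δ ∣ a then c else a

open Classical in
theorem Dat.term (D : Dat a b c δ e u) (ψ : A →+* F) (x : F) :
    (if eval₂ ψ x (b ^ 2 - 4 * a * c) = 0 then
      chi F (if eval₂ ψ x a = 0 then eval₂ ψ x c else eval₂ ψ x a) else 0) =
    ∑ i, if eval₂ ψ x (δ i) = 0 then chi F (eval₂ ψ x (star a c (δ i))) else 0 := by
  have hz := D.zero_iff (eval₂RingHom ψ x)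
  simp only [coe_eval₂RingHom] at hz
  by_cases h : eval₂ ψ x (b ^ 2 - 4 * a * c) = 0
  · rw [if_pos h]
    obtain ⟨i, hi⟩ := hz.1 h
    rw [Finset.sum_eq_single i]
    · rw [if_pos hi]
      unfold star
      rcases D.st i with h1 | h1
      · have h2 : eval₂ ψ x a ≠ 0 := fun h3 => cop_hom h1 (eval₂RingHom ψ x) h3 hi
        have h3 : ¬ δ i ∣ a := by
          rintro ⟨t, ht⟩
          apply h2
          rw [ht, eval₂_mul, hi, zero_mul]
        rw [if_neg h2, if_neg h3]
      · obtain ⟨t, ht⟩ := id h1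
        have h2 : eval₂ ψ x a = 0 := by rw [ht, eval₂_mul, hi, zero_mul]
        rw [if_pos h2, if_pos h1]
    · intro j _ hji
      rw [if_neg]
      intro hj
      exact cop_hom (D.cop j i hji) (eval₂RingHom ψ x) hj hi
    · intro h
      exact (h (Finset.mem_univ i)).elim
  · rw [if_neg h]
    symm
    refine Finset.sum_eq_zero fun i _ => ?_
    rw [if_neg]
    intro hi
    exact h (hz.2 ⟨i, hi⟩)

open Classical in
/-- **The sum over all points.** -/
theorem Dat.sum (D : Dat a b c δ e u) [Fintype F] (hF : ringChar F ≠ 2) [Fintype (A →+* F)]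
    [Finite (A[X] →+* F)] [∀ i, Finite (AdjoinRoot (δ i) →+* F)] :
    sT wtc (gC a b c) 1 F = (Nat.card F : ℝ) *
      ∑ i, S1 (AdjoinRoot.mk (δ i) (star a c (δ i))) F - S2 a F := by
  rw [sT_gC, S2_eq]
  simp only [S1_mk]
  rw [Finset.sum_comm, Finset.mul_sum, ← Finset.sum_sub_distrib]
  refine Finset.sum_congr rfl fun ψ _ => ?_
  rw [fibC_eq hF, Nat.card_eq_fintype_card, Finset.sum_comm]
  congr 2
  exact Finset.sum_congr rfl fun x _ => D.term ψ x

/-- the bound for one fibre -/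
theorem Dat.fib_bound (D : Dat a b c δ e u) [Fintype F] (hF : ringChar F ≠ 2) (ψ : A →+* F) :
    |fibC a b c F ψ| ≤ ((b ^ 2 - 4 * a * c).natDegree + 1) * (Nat.card F : ℝ) := by
  classical
  rw [fibC_eq hF, Nat.card_eq_fintype_card]
  set q : ℝ := (Fintype.card F : ℝ) with hq
  have hq0 : 0 ≤ q := Nat.cast_nonneg _
  have hΔ : (b ^ 2 - 4 * a * c).map ψ ≠ 0 := by
    rw [D.disc, Polynomial.map_mul, Polynomial.map_C, Polynomial.map_prod]
    refine mul_ne_zero (C_ne_zero.2 (D.hu.map ψ).ne_zero) (Finset.prod_ne_zero_iff.2 fun i _ => ?_)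
    rw [Polynomial.map_pow]
    exact pow_ne_zero _ ((D.monic i).map ψ).ne_zero
  have e1 : |∑ x : F, (if eval₂ ψ x (b ^ 2 - 4 * a * c) = 0 then
      chi F (if eval₂ ψ x a = 0 then eval₂ ψ x c else eval₂ ψ x a) else 0)| ≤
      (b ^ 2 - 4 * a * c).natDegree := by
    rw [← Finset.sum_filter]
    refine (Finset.abs_sum_le_sum_abs _ _).trans ((Finset.sum_le_card_nsmul _ _ 1
      fun x _ => chi_abs _).trans ?_)
    rw [nsmul_eq_mul, mul_one]
    have h4 : (Finset.univ.filter fun x : F => eval₂ ψ x (b ^ 2 - 4 * a * c) = 0) ⊆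
        ((b ^ 2 - 4 * a * c).map ψ).roots.toFinset := by
      intro x hx
      rw [Finset.mem_filter] at hx
      rw [Multiset.mem_toFinset, mem_roots hΔ, IsRoot.def, eval_map]
      exact hx.2
    have h5 := (Finset.card_le_card h4).trans ((Multiset.toFinset_card_le _).trans
      ((card_roots' _).trans natDegree_map_le))
    exact_mod_cast h5
  have e2 : |∑ x : F, chi F (eval₂ ψ x a)| ≤ q := by
    refine (Finset.abs_sum_le_sum_abs _ _).trans ((Finset.sum_le_card_nsmul _ _ 1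
      fun x _ => chi_abs _).trans ?_)
    rw [nsmul_eq_mul, mul_one, Finset.card_univ]
  refine (abs_sub _ _).trans ?_
  rw [abs_mul, abs_of_nonneg hq0]
  have e3 := mul_le_mul_of_nonneg_left e1 hq0
  linarith

end

end

end Pool.Agent.R410.NG
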