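import Pool.Agent.R410.NG.CBw

/-!
# Function fields of hyperelliptic curves over a field
-/

set_option autoImplicit false
set_option linter.all false
set_option maxHeartbeats 1000000

open Polynomial

namespace Pool.Agent.R410.NG

open Pool.Agent.R410.LW (FG frac_of_closure)
open Pool.Agent.TH943.HJ (CR pp yy el exists_el pp_inj yy_sq)

/-- the field `K(x, y)`, `y² = F(x)` -/
structure IsCf {K K₁ : Type} [Field K] [Field K₁] [Algebra K K₁] (F : K[X]) (x y : K₁) : Prop where
  tr : Transcendental K x
  eq : y ^ 2 = aeval x F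
  gen : IntermediateField.adjoin K {x, y} = ⊤

theorem exists_cf {K : Type} [Field K] {F : K[X]} (hodd : Odd F.natDegree) :
    ∃ (K₁ : Type) (_ : Field K₁) (_ : Algebra K K₁) (x y : K₁), IsCf F x y := by
  classical
  have hdom : IsDomain (CR F) := Pool.Agent.TH943.HJ.isDomain hodd
  obtain ⟨K₁, iK, aK, fK⟩ : ∃ (K₁ : Type) (_ : Field K₁) (_ : Algebra (CR F) K₁),
      IsFractionRing (CR F) K₁ :=
    ⟨FractionRing (CR F), inferInstance, inferInstance, inferInstance⟩
  have hinj : Function.Injective (algebraMap (CR F) K₁) := IsFractionRing.injective _ _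
  let θ : K[X] →+* K₁ := (algebraMap (CR F) K₁).comp pp
  have hθ : Function.Injective θ := hinj.comp pp_inj
  letI : Algebra K K₁ := (θ.comp C).toAlgebra
  have hae : ∀ p : K[X], aeval (θ X) p = θ p := by
    intro p
    have h : (aeval (θ X) : K[X] →ₐ[K] K₁).toRingHom = θ := by
      apply Polynomial.ringHom_ext
      · intro a
        show aeval (θ X) (C a) = _
        rw [aeval_C]
        rfl
      · show aeval (θ X) X = _
        rw [aeval_X]
    exact congrArg (fun g => g p) h
  refine ⟨K₁, iK, inferInstance, θ X, algebraMap (CR F) K₁ (yy F), ?_, ?_, ?_⟩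
  · rw [transcendental_iff_injective]
    intro p q h
    rw [hae, hae] at h
    exact hθ h
  · rw [hae, ← map_pow, yy_sq]
    rfl
  · rw [eq_top_iff]
    intro z _
    have hx : θ X ∈ IntermediateField.adjoin K {θ X, algebraMap (CR F) K₁ (yy F)} :=
      IntermediateField.subset_adjoin K _ (Set.mem_insert _ _)
    have hy : algebraMap (CR F) K₁ (yy F) ∈
        IntermediateField.adjoin K {θ X, algebraMap (CR F) K₁ (yy F)} :=
      IntermediateField.subset_adjoin K _ (Set.mem_insert_of_mem _ rfl)
    have hp : ∀ p : K[X], θ p ∈ IntermediateField.adjoin K {θ X, algebraMap (CR F) K₁ (yy F)} := by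
      intro p
      have h := Pool.Agent.R410.BA.aeval_mem' _ hx p
      rwa [hae] at h
    have hb : ∀ b : CR F, algebraMap (CR F) K₁ b ∈
        IntermediateField.adjoin K {θ X, algebraMap (CR F) K₁ (yy F)} := by
      intro b
      obtain ⟨p, q, rfl⟩ := exists_el b
      unfold el
      rw [map_add, map_mul]
      exact add_mem (hp p) (mul_mem (hp q) hy)
    obtain ⟨a, b, -, rfl⟩ := IsFractionRing.div_surjective (A := CR F) z
    exact div_mem (hb a) (hb b)

section
variable {K K₁ : Type} [Field K] [Field K₁] [Algebra K K₁] {F : K[X]} {x y : K₁}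
  {R : Type} [CommRing R] [IsDomain R] [Algebra R K] [IsFractionRing R K] {G : R[X]}

/-- the map from the polynomials -/
noncomputable def th0 (R : Type) [CommRing R] [Algebra R K] (x : K₁) : R[X] →+* K₁ :=
  eval₂RingHom ((algebraMap K K₁).comp (algebraMap R K)) x

theorem th0_apply (p : R[X]) : th0 (K := K) R x p = aeval x (p.map (algebraMap R K)) := by
  unfold th0
  rw [coe_eval₂RingHom, aeval_def, eval₂_map]

theorem th0_inj (hx : Transcendental K x) : Function.Injective (th0 (K := K) R x) := by
  intro p q h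
  rw [th0_apply, th0_apply] at h
  exact Polynomial.map_injective _ (IsFractionRing.injective R K) (transcendental_iff_injective.1 hx h)

/-- the map from the coordinate ring -/
noncomputable def th (h : IsCf F x y) (hG : G.map (algebraMap R K) = F) :
    AdjoinRoot (X ^ 2 - C G : R[X][X]) →+* K₁ :=
  AdjoinRoot.lift (th0 (K := K) R x) y (by
    rw [eval₂_sub, eval₂_pow, eval₂_X, eval₂_C, th0_apply, hG, h.eq, sub_self])

theorem th_inj (h : IsCf F x y) (hG : G.map (algebraMap R K) = F) (hodd : Odd G.natDegree) :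
    Function.Injective (th h hG) := by
  rw [injective_iff_map_eq_zero]
  intro b hb
  obtain ⟨P, rfl⟩ := AdjoinRoot.mk_surjective b
  have hm : (X ^ 2 - C G : R[X][X]).Monic := monic_X_pow_sub_C G two_ne_zero
  have h1 := modByMonic_add_div P (X ^ 2 - C G : R[X][X])
  have hd : (P %ₘ (X ^ 2 - C G : R[X][X])).natDegree ≤ 1 := by
    have h2 := natDegree_modByMonic_lt P hm (by
      intro h3
      have := congrArg natDegree h3
      rw [natDegree_X_pow_sub_C, natDegree_one] at this
      omega)
    rw [natDegree_X_pow_sub_C] at h2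
    omega
  obtain ⟨p, q, hpq⟩ : ∃ p q : R[X], P %ₘ (X ^ 2 - C G : R[X][X]) = C q * X + C p :=
    ⟨_, _, eq_X_add_C_of_natDegree_le_one hd⟩
  have h2 : AdjoinRoot.mk (X ^ 2 - C G : R[X][X]) P =
      AdjoinRoot.mk (X ^ 2 - C G : R[X][X]) (C q * X + C p) := by
    rw [AdjoinRoot.mk_eq_mk, ← hpq]
    exact ⟨P /ₘ (X ^ 2 - C G), by linear_combination -h1⟩
  rw [h2] at hb ⊢
  have h3 : th0 (K := K) R x q * y + th0 (K := K) R x p = 0 := by
    have h4 : th h hG (AdjoinRoot.mk (X ^ 2 - C G : R[X][X]) (C q * X + C p)) =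
        th0 (K := K) R x q * y + th0 (K := K) R x p := by
      unfold th
      rw [AdjoinRoot.lift_mk, eval₂_add, eval₂_mul, eval₂_C, eval₂_C, eval₂_X]
    rw [← h4]
    exact hb
  have h5 : th0 (K := K) R x (p ^ 2) = th0 (K := K) R x (q ^ 2 * G) := by
    rw [map_mul, map_pow, map_pow, th0_apply G, hG, ← h.eq]
    linear_combination (th0 (K := K) R x p - th0 (K := K) R x q * y) * h3
  have h6 := th0_inj (K := K) h.tr h5
  have hq : q = 0 := by
    by_contra hq0
    have hG0 : G ≠ 0 := by
      rintro rfl
      rw [natDegree_zero] at hodd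
      exact Nat.not_odd_zero hodd
    have h7 := congrArg natDegree h6
    rw [natDegree_pow, natDegree_mul (pow_ne_zero 2 hq0) hG0, natDegree_pow] at h7
    obtain ⟨t, ht⟩ := hodd
    omega
  rw [hq, zero_pow two_ne_zero, zero_mul] at h6
  have hp : p = 0 := pow_eq_zero_iff two_ne_zero |>.1 h6
  rw [hq, hp, C_0, zero_mul, zero_add, map_zero]

theorem th_frac (h : IsCf F x y) (hG : G.map (algebraMap R K) = F) (hodd : Odd G.natDegree) :
    letI : Algebra (AdjoinRoot (X ^ 2 - C G : R[X][X])) K₁ := (th h hG).toAlgebra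
    IsFractionRing (AdjoinRoot (X ^ 2 - C G : R[X][X])) K₁ := by
  letI : Algebra (AdjoinRoot (X ^ 2 - C G : R[X][X])) K₁ := (th h hG).toAlgebra
  refine frac_of_closure (th_inj h hG hodd) ?_
  set Cf := Subfield.closure (Set.range (algebraMap (AdjoinRoot (X ^ 2 - C G : R[X][X])) K₁)) with hCf
  have hval : ∀ p : R[X], th0 (K := K) R x p ∈ Cf := fun p =>
    Subfield.subset_closure ⟨AdjoinRoot.of _ p, by
      show th h hG (AdjoinRoot.of _ p) = _
      unfold th
      exact AdjoinRoot.lift_of _⟩
  have hMC : ∀ a : K, algebraMap K K₁ a ∈ Cf := by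
    intro a
    obtain ⟨u, v, -, rfl⟩ := IsFractionRing.div_surjective (A := R) a
    have h1 := hval (C u)
    have h2 := hval (C v)
    rw [th0_apply, Polynomial.map_C, aeval_C] at h1 h2
    rw [map_div₀]
    exact div_mem h1 h2
  have hx : x ∈ Cf := by
    have h1 := hval X
    rw [th0_apply, Polynomial.map_X, aeval_X] at h1
    exact h1
  have hy : y ∈ Cf := Subfield.subset_closure ⟨AdjoinRoot.root _, by
      show th h hG (AdjoinRoot.root _) = _
      unfold th
      exact AdjoinRoot.lift_root _⟩
  rw [eq_top_iff]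
  intro z _
  have hz : z ∈ IntermediateField.adjoin K {x, y} := by rw [h.gen]; trivial
  induction hz using IntermediateField.adjoin_induction with
  | mem z hz =>
    rcases hz with rfl | hz
    · exact hx
    · rw [Set.mem_singleton_iff.1 hz]
      exact hy
  | algebraMap a => exact hMC a
  | add u v _ _ h1 h2 => exact add_mem (h1 trivial) (h2 trivial)
  | mul u v _ _ h1 h2 => exact mul_mem (h1 trivial) (h2 trivial)
  | inv u _ h1 => exact inv_mem (h1 trivial)

end

end Pool.Agent.R410.NG
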