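import Pool.Agent.R410.NG.Cf

/-!
# The function field of a curve of a pencil as a conic over a line
-/

set_option autoImplicit false
set_option linter.all false
set_option maxHeartbeats 1000000

open Polynomial
open scoped IntermediateField.algebraAdjoinAdjoin

namespace Pool.Agent.R410.NG

open Pool.Agent.R410.LW (FG frac_of_closure)
open Pool.Agent.R410.CB (fq fq_eq)
open Pool.Agent.Y707.PC (up up_def)

theorem alg_adjoin {M K₁ : Type} [Field M] [Field K₁] [Algebra M K₁] {x z : K₁}
    (h : IsAlgebraic (IntermediateField.adjoin M ({x} : Set K₁)) z) :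
    IsAlgebraic (Algebra.adjoin M ({x} : Set K₁)) z :=
  (IsFractionRing.isAlgebraic_iff (Algebra.adjoin M ({x} : Set K₁))
    (IntermediateField.adjoin M ({x} : Set K₁)) K₁).2 h

section
variable {M K K₁ L : Type} [Field M] [Field K] [Field K₁] [Field L] [Algebra M K] [Algebra K K₁]
  [Algebra M L] [Algebra L K₁] [Algebra M K₁] [IsScalarTower M K K₁] [IsScalarTower M L K₁]
  {ω : K} {x₀ : L} {x y : K₁}

theorem mem_line (hL : IntermediateField.adjoin M {x₀} = ⊤) (z : L) :
    algebraMap L K₁ z ∈ IntermediateField.adjoin M {algebraMap L K₁ x₀} := by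
  have hz : z ∈ IntermediateField.adjoin M {x₀} := by rw [hL]; trivial
  induction hz using IntermediateField.adjoin_induction with
  | mem z hz =>
    rw [Set.mem_singleton_iff.1 hz]
    exact IntermediateField.subset_adjoin M _ (Set.mem_singleton _)
  | algebraMap a =>
    rw [← IsScalarTower.algebraMap_apply]
    exact IntermediateField.algebraMap_mem _ a
  | add u v _ _ h1 h2 => rw [map_add]; exact add_mem h1 h2
  | mul u v _ _ h1 h2 => rw [map_mul]; exact mul_mem h1 h2
  | inv u _ h1 => rw [map_inv₀]; exact inv_mem h1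

theorem tr_swap (hω : Transcendental M ω) (hx : Transcendental K (algebraMap L K₁ x₀))
    (hL : IntermediateField.adjoin M {x₀} = ⊤) : Transcendental L (algebraMap K K₁ ω) := by
  set x := algebraMap L K₁ x₀ with hxd
  have h1 : AlgebraicIndependent M (fun _ : Unit => ω) := algebraicIndependent_unique_type_iff.2 hω
  have h2 : AlgebraicIndependent K (fun _ : Unit => x) := algebraicIndependent_unique_type_iff.2 hx
  have h3 := h1.sumElim_comp h2
  have h4 : AlgebraicIndependent M
      (Sum.elim (fun _ : Unit => algebraMap K K₁ ω) (fun _ : Unit => x)) := by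
    have h := h3.comp Sum.swap Sum.swap_leftInverse.injective
    have e : (Sum.elim (fun _ : Unit => x) (algebraMap K K₁ ∘ fun _ : Unit => ω)) ∘ Sum.swap =
        Sum.elim (fun _ : Unit => algebraMap K K₁ ω) (fun _ : Unit => x) := by
      funext o
      rcases o with o | o <;> rfl
    rwa [e] at h
  have h5 := (AlgebraicIndependent.sumElim_iff.1 h4).2
  have hr : Set.range (fun _ : Unit => x) = {x} := by
    ext z
    simp [eq_comm]
  rw [hr] at h5
  have h6 : Transcendental (Algebra.adjoin M ({x} : Set K₁)) (algebraMap K K₁ ω) :=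
    algebraicIndependent_unique_type_iff.1 h5
  have h7 : Transcendental (IntermediateField.adjoin M ({x} : Set K₁)) (algebraMap K K₁ ω) := by
    intro h8
    apply h6
    exact alg_adjoin h8
  rintro ⟨P, hP, hP0⟩
  apply h7
  let g : L →+* IntermediateField.adjoin M ({x} : Set K₁) :=
    (algebraMap L K₁).codRestrict (IntermediateField.adjoin M ({x} : Set K₁)).toSubring
      fun z => mem_line hL z
  refine ⟨P.map g, (Polynomial.map_ne_zero_iff g.injective).2 hP, ?_⟩
  rw [aeval_def, eval₂_map]
  exact hP0

variable {b c : M[X]}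

theorem tr_y (hω : Transcendental M ω) (hx : Transcendental K (algebraMap L K₁ x₀))
    (ht : Transcendental M x₀) (hL : IntermediateField.adjoin M {x₀} = ⊤) (hb : b ≠ 0)
    (hy : y ^ 2 = algebraMap L K₁ (aeval x₀ c) + algebraMap K K₁ ω * algebraMap L K₁ (aeval x₀ b)) :
    Transcendental L y := by
  intro h
  apply tr_swap hω hx hL
  have hb0 : aeval x₀ b ≠ 0 := by
    intro h0
    apply hb
    apply transcendental_iff_injective.1 ht
    rw [h0, map_zero]
  have hb1 : algebraMap L K₁ (aeval x₀ b) ≠ 0 := by
    rw [Ne, map_eq_zero]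
    exact hb0
  have e : algebraMap K K₁ ω = (y ^ 2 - algebraMap L K₁ (aeval x₀ c)) *
      algebraMap L K₁ (aeval x₀ b)⁻¹ := by
    rw [hy, map_inv₀]
    field_simp
    ring
  rw [e]
  exact ((h.pow 2).sub (isAlgebraic_algebraMap _)).mul (isAlgebraic_algebraMap _)

theorem gen_y (htop : IntermediateField.adjoin M {ω} = ⊤)
    (ht : Transcendental M x₀) (hb : b ≠ 0)
    (hy : y ^ 2 = algebraMap L K₁ (aeval x₀ c) + algebraMap K K₁ ω * algebraMap L K₁ (aeval x₀ b))
    (hgen : IntermediateField.adjoin K {algebraMap L K₁ x₀, y} = ⊤) :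
    IntermediateField.adjoin L {y} = ⊤ := by
  have hb0 : aeval x₀ b ≠ 0 := by
    intro h0
    apply hb
    apply transcendental_iff_injective.1 ht
    rw [h0, map_zero]
  have hb1 : algebraMap L K₁ (aeval x₀ b) ≠ 0 := by
    rw [Ne, map_eq_zero]
    exact hb0
  have e : algebraMap K K₁ ω = (y ^ 2 - algebraMap L K₁ (aeval x₀ c)) *
      algebraMap L K₁ (aeval x₀ b)⁻¹ := by
    rw [hy, map_inv₀]
    field_simp
    ring
  have hyL : y ∈ IntermediateField.adjoin L {y} :=
    IntermediateField.subset_adjoin L _ (Set.mem_singleton _)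
  have hωL : algebraMap K K₁ ω ∈ IntermediateField.adjoin L {y} := by
    rw [e]
    exact mul_mem (sub_mem (pow_mem hyL 2) (IntermediateField.algebraMap_mem _ _))
      (IntermediateField.algebraMap_mem _ _)
  have hK : ∀ z : K, algebraMap K K₁ z ∈ IntermediateField.adjoin L {y} := by
    intro z
    have hz : z ∈ IntermediateField.adjoin M {ω} := by rw [htop]; trivial
    induction hz using IntermediateField.adjoin_induction with
    | mem z hz =>
      rw [Set.mem_singleton_iff.1 hz]
      exact hωL
    | algebraMap a =>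
      rw [← IsScalarTower.algebraMap_apply, IsScalarTower.algebraMap_apply M L K₁]
      exact IntermediateField.algebraMap_mem _ _
    | add u v _ _ h1 h2 => rw [map_add]; exact add_mem h1 h2
    | mul u v _ _ h1 h2 => rw [map_mul]; exact mul_mem h1 h2
    | inv u _ h1 => rw [map_inv₀]; exact inv_mem h1
  rw [eq_top_iff]
  intro z _
  have hz : z ∈ IntermediateField.adjoin K {algebraMap L K₁ x₀, y} := by rw [hgen]; trivial
  induction hz using IntermediateField.adjoin_induction with
  | mem z hz =>
    rcases hz with rfl | hz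
    · exact IntermediateField.algebraMap_mem _ _
    · rw [Set.mem_singleton_iff.1 hz]
      exact hyL
  | algebraMap a => exact hK a
  | add u v _ _ h1 h2 => exact add_mem (h1 trivial) (h2 trivial)
  | mul u v _ _ h1 h2 => exact mul_mem (h1 trivial) (h2 trivial)
  | inv u _ h1 => exact inv_mem (h1 trivial)

/-- the polynomials over the line -/
noncomputable def aL (x₀ : L) (b b' : M[X]) : L[X] := C (aeval x₀ b)⁻¹ * b'.map (algebraMap M L)

/-- the polynomials over the line -/
noncomputable def cL (x₀ : L) (b c b' c' : M[X]) : L[X] :=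
  c'.map (algebraMap M L) - C (aeval x₀ c * (aeval x₀ b)⁻¹) * b'.map (algebraMap M L)

theorem map_F {b' c' : M[X]} (ht : Transcendental M x₀) (hb : b ≠ 0)
    (hy : y ^ 2 = algebraMap L K₁ (aeval x₀ c) + algebraMap K K₁ ω * algebraMap L K₁ (aeval x₀ b)) :
    (fq 0 b' c' ω).map (algebraMap K K₁) = fq (aL x₀ b b') 0 (cL x₀ b c b' c') y := by
  have hb0 : aeval x₀ b ≠ 0 := by
    intro h0
    apply hb
    apply transcendental_iff_injective.1 ht
    rw [h0, map_zero]
  have hb1 : algebraMap L K₁ (aeval x₀ b) ≠ 0 := by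
    rw [Ne, map_eq_zero]
    exact hb0
  have e : algebraMap K K₁ ω = y ^ 2 * algebraMap L K₁ (aeval x₀ b)⁻¹ -
      algebraMap L K₁ (aeval x₀ c * (aeval x₀ b)⁻¹) := by
    rw [hy, map_mul, map_inv₀]
    field_simp
    ring
  rw [fq_eq, fq_eq]
  simp only [up_def, Polynomial.map_add, Polynomial.map_mul, Polynomial.map_C, Polynomial.map_zero,
    mul_zero, add_zero, Polynomial.map_map]
  unfold aL cL
  simp only [Polynomial.map_sub, Polynomial.map_mul, Polynomial.map_C, Polynomial.map_map]
  have h1 : (algebraMap K K₁).comp (algebraMap M K) = algebraMap M K₁ :=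
    (IsScalarTower.algebraMap_eq M K K₁).symm
  have h2 : (algebraMap L K₁).comp (algebraMap M L) = algebraMap M K₁ :=
    (IsScalarTower.algebraMap_eq M L K₁).symm
  rw [h1, h2, e, C_sub, C_mul]
  ring

theorem deg_aL (ht : Transcendental M x₀) {b' : M[X]} (hb : b ≠ 0) :
    (aL x₀ b b').natDegree = b'.natDegree := by
  have hb0 : aeval x₀ b ≠ 0 := by
    intro h0
    apply hb
    apply transcendental_iff_injective.1 ht
    rw [h0, map_zero]
  unfold aL
  rw [natDegree_C_mul (inv_ne_zero hb0), natDegree_map]

theorem deg_cL {b' c' : M[X]} (h : b'.natDegree < c'.natDegree) :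
    (cL x₀ b c b' c').natDegree = c'.natDegree := by
  unfold cL
  rw [natDegree_sub_eq_left_of_natDegree_lt, natDegree_map]
  rw [natDegree_map]
  refine (natDegree_C_mul_le _ _).trans_lt ?_
  rw [natDegree_map]
  exact h

end

section
variable {M : Type} [Field M] [CharZero M]

theorem fg_ratFunc (hM : FG M) : FG (RatFunc M) := by
  classical
  obtain ⟨S, hS⟩ := hM
  refine ⟨insert RatFunc.X (S.image (algebraMap M (RatFunc M))), ?_⟩
  set Cf := Subfield.closure
    ((insert RatFunc.X (S.image (algebraMap M (RatFunc M))) : Finset (RatFunc M)) :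
      Set (RatFunc M)) with hCf
  have hX : RatFunc.X ∈ Cf := Subfield.subset_closure (by
    rw [Finset.mem_coe]
    exact Finset.mem_insert_self _ _)
  have hMC : ∀ a : M, algebraMap M (RatFunc M) a ∈ Cf := by
    intro a
    have ha : a ∈ Subfield.closure (S : Set M) := by rw [hS]; trivial
    have h1 : Subfield.closure (S : Set M) ≤ Cf.comap (algebraMap M (RatFunc M)) := by
      rw [Subfield.closure_le]
      intro s hs
      apply Subfield.subset_closure
      rw [Finset.mem_coe]
      exact Finset.mem_insert_of_mem (Finset.mem_image_of_mem _ hs)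
    exact h1 ha
  rw [eq_top_iff]
  intro z _
  have hz : z ∈ IntermediateField.adjoin M {(RatFunc.X : RatFunc M)} := by
    rw [RatFunc.adjoin_X]
    trivial
  induction hz using IntermediateField.adjoin_induction with
  | mem z hz =>
    rw [Set.mem_singleton_iff.1 hz]
    exact hX
  | algebraMap a => exact hMC a
  | add u v _ _ h1 h2 => exact add_mem (h1 trivial) (h2 trivial)
  | mul u v _ _ h1 h2 => exact mul_mem (h1 trivial) (h2 trivial)
  | inv u _ h1 => exact inv_mem (h1 trivial)

end

end Pool.Agent.R410.NG
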