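import Pool.Agent.R410.NG.Cv

/-!
# The curves of two pencils
-/

set_option autoImplicit false
set_option linter.all false
set_option maxHeartbeats 1000000

open Polynomial NumberField IsDedekindDomain Filter Topology

namespace Pool.Agent.R410.NG

open Pool.Agent.R410.LW (FG frac_of_closure)
open Pool.Agent.R410.BS (cF hom_le landau_all)
open Pool.Agent.R410.CB (Spl fq fq_eq deg_fq)
open Pool.Agent.Y707.PC (up up_def)
open Pool.Agent.TH943.HJ (CR)

theorem fg_line {M L : Type} [Field M] [Field L] [Algebra M L] {x₀ : L} (hM : FG M)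
    (hL : IntermediateField.adjoin M {x₀} = ⊤) : FG L := by
  classical
  obtain ⟨S, hS⟩ := hM
  refine ⟨insert x₀ (S.image (algebraMap M L)), ?_⟩
  set Cf := Subfield.closure ((insert x₀ (S.image (algebraMap M L)) : Finset L) : Set L) with hCf
  have hX : x₀ ∈ Cf := Subfield.subset_closure (by
    rw [Finset.mem_coe]
    exact Finset.mem_insert_self _ _)
  have hMC : ∀ a : M, algebraMap M L a ∈ Cf := by
    intro a
    have ha : a ∈ Subfield.closure (S : Set M) := by rw [hS]; trivial
    have h1 : Subfield.closure (S : Set M) ≤ Cf.comap (algebraMap M L) := by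
      rw [Subfield.closure_le]
      intro s hs
      apply Subfield.subset_closure
      rw [Finset.mem_coe]
      exact Finset.mem_insert_of_mem (Finset.mem_image_of_mem _ hs)
    exact h1 ha
  rw [eq_top_iff]
  intro z _
  have hz : z ∈ IntermediateField.adjoin M {x₀} := by
    rw [hL]
    trivial
  induction hz using IntermediateField.adjoin_induction with
  | mem z hz =>
    rw [Set.mem_singleton_iff.1 hz]
    exact hX
  | algebraMap a => exact hMC a
  | add u v _ _ h1 h2 => exact add_mem (h1 trivial) (h2 trivial)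
  | mul u v _ _ h1 h2 => exact mul_mem (h1 trivial) (h2 trivial)
  | inv u _ h1 => exact inv_mem (h1 trivial)

theorem exists_line {M L K₁ : Type} [Field M] [CharZero M] [Field L] [CharZero L] [Algebra M L]
    [Field K₁] [Algebra M K₁]
    {x₀ : L} (ht : Transcendental M x₀) (hL : IntermediateField.adjoin M {x₀} = ⊤) {x : K₁}
    (hx : Transcendental M x) :
    ∃ _ : Algebra L K₁, IsScalarTower M L K₁ ∧ algebraMap L K₁ x₀ = x := by
  let _ : Algebra M[X] L := (phA (M := M) M x₀).toAlgebra
  have hfr : IsFractionRing M[X] L := phA_frac M ht hL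
  let θ : M[X] →+* K₁ := (aeval x : M[X] →ₐ[M] K₁).toRingHom
  have hθ : Function.Injective θ := transcendental_iff_injective.1 hx
  let j : L →+* K₁ := IsFractionRing.lift (A := M[X]) (K := L) hθ
  have hj : ∀ p : M[X], j (aeval x₀ p) = aeval x p := by
    intro p
    have h1 : algebraMap M[X] L p = aeval x₀ p := by
      show phA (M := M) M x₀ p = _
      rw [phA_apply]
      congr 1
      exact Polynomial.map_id
    rw [← h1]
    exact IsFractionRing.lift_algebraMap hθ p
  refine ⟨j.toAlgebra, ?_, ?_⟩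
  · let _ : Algebra L K₁ := j.toAlgebra
    refine IsScalarTower.of_algebraMap_eq fun m => ?_
    have h := hj (C m)
    rw [aeval_C, aeval_C] at h
    exact h.symm
  · have h := hj X
    rw [aeval_X, aeval_X] at h
    exact h

section
variable {M K L : Type} [Field M] [CharZero M] [Field K] [CharZero K] [Algebra M K] {ω : K}
  [Field L] [CharZero L] [Algebra M L] {x₀ : L}

open Classical in
/-- the rank over the function field -/
noncomputable def nn2 (x₀ : L) (b c b' c' : M[X]) : ℕ :=
  Nat.card (SplT (aL x₀ b b') 0 (cL x₀ b c b' c')) -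
    if aL x₀ b b' ≠ 0 ∧ IsSquare (aL x₀ b b') then 1 else 0

/-- **The curve of a pencil over the function field of a curve of a pencil.** -/
theorem pair_main (hM : FG M) {d : ℕ} (hd : Algebra.trdeg ℚ M = d) (hω : Transcendental M ω)
    (htop : IntermediateField.adjoin M {ω} = ⊤) (ht : Transcendental M x₀)
    (hL : IntermediateField.adjoin M {x₀} = ⊤) {b c b' c' : M[X]} (hb : b ≠ 0) (hb' : b' ≠ 0)
    (hodd' : Odd c'.natDegree) (hbc' : b'.natDegree < c'.natDegree)
    (hsep : (fq 0 b' c' ω).Separable) {K₁ : Type} [Field K₁] [CharZero K₁] [Algebra K K₁]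
    {x y : K₁} (h : IsCf (fq 0 b c ω) x y) :
    Algebra.trdeg ℚ K₁ = (d + 1 + 1 : ℕ) ∧
    (∃ _ : IsDomain (CR ((fq 0 b' c' ω).map (algebraMap K K₁))),
      Module.rank ℤ (Additive (ClassGroup (CR ((fq 0 b' c' ω).map (algebraMap K K₁))))) =
        (nn2 x₀ b c b' c' : Cardinal)) ∧
    ∃ (B : Type) (_ : CommRing B) (_ : IsDomain B) (_ : Algebra B K₁) (_ : IsFractionRing B K₁)
      (_ : Algebra.FiniteType ℤ B) (g' : Unit → B[X]),
      (g' ()).map (algebraMap B K₁) = (fq 0 b' c' ω).map (algebraMap K K₁) ∧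
      Asy (fun F _ _ => sT wtc g' 1 F) (d + 1 + 1) (nn2 x₀ b c b' c') := by
  classical
  let _ : Algebra M K₁ := ((algebraMap K K₁).comp (algebraMap M K)).toAlgebra
  have _ : IsScalarTower M K K₁ := IsScalarTower.of_algebraMap_eq fun m => rfl
  have hxM : Transcendental M x := h.tr.restrictScalars (FaithfulSMul.algebraMap_injective M K)
  obtain ⟨_, hst, hx₀⟩ := exists_line ht hL hxM
  have hxK : Transcendental K (algebraMap L K₁ x₀) := by rw [hx₀]; exact h.tr
  have hy : y ^ 2 = algebraMap L K₁ (aeval x₀ c) +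
      algebraMap K K₁ ω * algebraMap L K₁ (aeval x₀ b) := by
    have e : ∀ p : M[X], algebraMap L K₁ (aeval x₀ p) = aeval x (up p : K[X]) := by
      intro p
      rw [← aeval_algebraMap_apply, hx₀, up_def, aeval_map_algebraMap]
    rw [h.eq, fq_eq, e, e]
    simp only [map_add, map_mul, aeval_C, up_def, Polynomial.map_zero, mul_zero, add_zero]
  have hyL : Transcendental L y := tr_y hω hxK ht hL hb hy
  have hgL : IntermediateField.adjoin L {y} = ⊤ := gen_y htop ht hb hy (by rw [hx₀]; exact h.gen)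
  have hLd : Algebra.trdeg ℚ L = (d + 1 : ℕ) := trdeg_line hd ht hL
  have hLF : FG L := fg_line hM hL
  have hFe : (fq 0 b' c' ω).map (algebraMap K K₁) = fq (aL x₀ b b') 0 (cL x₀ b c b' c') y :=
    map_F ht hb hy
  have hda : (aL x₀ b b').natDegree = b'.natDegree := deg_aL ht hb
  have hdc : (cL x₀ b c b' c').natDegree = c'.natDegree := deg_cL hbc'
  have hc0 : cL x₀ b c b' c' ≠ 0 := by
    intro h0
    rw [h0, natDegree_zero] at hdc
    omega
  have ha0 : aL x₀ b b' ≠ 0 := by
    have hb0 : aeval x₀ b ≠ 0 := by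
      intro h0
      apply hb
      apply transcendental_iff_injective.1 ht
      rw [h0, map_zero]
    unfold aL
    exact mul_ne_zero (C_ne_zero.2 (inv_ne_zero hb0)) ((Polynomial.map_ne_zero_iff
      (algebraMap M L).injective).2 hb')
  have hΔ : (0 : L[X]) ^ 2 - 4 * aL x₀ b b' * cL x₀ b c b' c' ≠ 0 := by
    have h4 : (4 : L[X]) ≠ 0 := by
      rw [show (4 : L[X]) = C 4 by rw [map_ofNat]]
      exact C_ne_zero.2 (by norm_num)
    rw [zero_pow two_ne_zero, zero_sub]
    exact neg_ne_zero.2 (mul_ne_zero (mul_ne_zero h4 ha0) hc0)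
  have hsq : Squarefree (fq (aL x₀ b b') 0 (cL x₀ b c b' c') y) := by
    rw [← hFe]
    exact hsep.map.squarefree
  obtain ⟨r1, r2⟩ := rank_cb' hyL hgL (a := aL x₀ b b') (b := 0) (c := cL x₀ b c b' c')
    (by rw [hdc]; exact hodd') (by rw [hda, hdc]; exact hbc')
    (by rw [natDegree_zero, hdc]; exact hodd'.pos) hsq hΔ
  refine ⟨trdeg_line hLd hyL hgL, ?_, ?_⟩
  · rw [hFe]
    exact r1
  · obtain ⟨B, i1, i2, i3, i4, i5, g', hg', hA⟩ := Pool.Agent.R410.EP.model_cb hLF hLd hyL hgL hΔ
    refine ⟨B, i1, i2, i3, i4, i5, g', by rw [hg', hFe], ?_⟩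
    have e : (nn2 x₀ b c b' c' : ℝ) = (((Nat.card (SplT (aL x₀ b b') 0 (cL x₀ b c b' c')) : ℤ) -
        if aL x₀ b b' ≠ 0 ∧ IsSquare (aL x₀ b b') then 1 else 0 : ℤ) : ℝ) := by
      unfold nn2
      by_cases h : aL x₀ b b' ≠ 0 ∧ IsSquare (aL x₀ b b')
      · rw [if_pos h, if_pos h, Nat.cast_sub (r2 h)]
        push_cast
        rfl
      · rw [if_neg h, if_neg h, Nat.sub_zero]
        push_cast
        ring
    rw [e]
    exact hA

end

end Pool.Agent.R410.NG
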