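import Pool.Agent.R410.NG.Asy
import Pool.Agent.H126G.ZC

/-!
# Sums of quadratic characters over the points of schemes
-/

set_option autoImplicit false
set_option linter.all false
set_option maxHeartbeats 1000000

open Polynomial NumberField

namespace Pool.Agent.R410.NG

open Pool.Agent.R410.BS (ZS hom_le)
open Pool.Agent.R410.LW (FG ev ev_C ev_X)

section
variable {F : Type} [Field F]

/-- the quadratic character: the number of the square roots minus one -/
noncomputable def chi (F : Type) [Field F] (c : F) : ℝ := (Nat.card {y : F // y ^ 2 = c} : ℝ) - 1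

theorem chi_eq [Fintype F] [DecidableEq F] (hF : ringChar F ≠ 2) (c : F) :
    chi F c = (quadraticChar F c : ℝ) := by
  have h := quadraticChar_card_sqrts hF c
  have h2 : ((({x : F | x ^ 2 = c} : Set F).toFinset.card : ℤ) : ℝ) = ((quadraticChar F c + 1 : ℤ) : ℝ) := by
    rw [h]
  rw [Int.cast_natCast, Int.cast_add, Int.cast_one] at h2
  unfold chi
  rw [Nat.card_eq_fintype_card]
  have h3 : Fintype.card {y : F // y ^ 2 = c} = ({x : F | x ^ 2 = c} : Set F).toFinset.card := by
    rw [Set.toFinset_card]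
    rfl
  rw [h3, h2]
  ring

theorem chi_zero : chi F 0 = 0 := by
  unfold chi
  have h : Nat.card {y : F // y ^ 2 = 0} = 1 := by
    rw [Nat.card_eq_one_iff_unique]
    refine ⟨⟨fun a b => Subtype.ext ?_⟩, ⟨0, by ring⟩⟩
    rw [pow_eq_zero_iff two_ne_zero |>.1 a.2, pow_eq_zero_iff two_ne_zero |>.1 b.2]
  rw [h]
  simp

theorem chi_abs [Finite F] (c : F) : |chi F c| ≤ 1 := by
  classical
  have := Fintype.ofFinite F
  unfold chi
  have h : Nat.card {y : F // y ^ 2 = c} ≤ 2 := by
    rw [Nat.card_eq_fintype_card, Fintype.card_subtype]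
    have h1 : (Finset.univ.filter fun y : F => y ^ 2 = c) ⊆ (X ^ 2 - C c : F[X]).roots.toFinset := by
      intro y hy
      rw [Finset.mem_filter] at hy
      rw [Multiset.mem_toFinset, mem_roots (X_pow_sub_C_ne_zero two_pos c), IsRoot.def, eval_sub,
        eval_pow, eval_X, eval_C, hy.2, sub_self]
    refine (Finset.card_le_card h1).trans ((Multiset.toFinset_card_le _).trans ?_)
    refine (card_roots' _).trans ?_
    rw [natDegree_X_pow_sub_C]
  rw [abs_le]
  have h1 : (Nat.card {y : F // y ^ 2 = c} : ℝ) ≤ 2 := by exact_mod_cast h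
  have h2 : (0 : ℝ) ≤ (Nat.card {y : F // y ^ 2 = c} : ℝ) := Nat.cast_nonneg _
  constructor <;> linarith

theorem char_of {F : Type} [Field F] (h : ((2 : ℕ) : F) ≠ 0) : ringChar F ≠ 2 := by
  intro h2
  apply h
  rw [← h2]
  exact ringChar.Nat.cast_ringChar

theorem chi_sq [Finite F] (hF : ringChar F ≠ 2) {s : F} (hs : s ≠ 0) : chi F (s ^ 2) = 1 := by
  classical
  have := Fintype.ofFinite F
  rw [chi_eq hF, quadraticChar_sq_one' hs]
  simp

/-- **The sum of the quadratic character of a quadratic polynomial.** -/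
theorem sum_chi_quad [Fintype F] (hF : ringChar F ≠ 2) (a b c : F) :
    ∑ v : F, chi F (a * v ^ 2 + b * v + c) = (open Classical in
      if b ^ 2 - 4 * a * c = 0 then (Fintype.card F : ℝ) * chi F (if a = 0 then c else a) else 0) -
        chi F a := by
  classical
  have h2 : (2 : F) ≠ 0 := Ring.two_ne_zero hF
  simp only [chi_eq hF]
  by_cases ha : a = 0
  · subst ha
    rw [quadraticChar_zero, Int.cast_zero, sub_zero, if_pos rfl]
    by_cases hb : b = 0
    · subst hb
      rw [if_pos (by ring)]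
      simp only [zero_mul, zero_add]
      rw [Finset.sum_const, nsmul_eq_mul, Finset.card_univ]
    · rw [if_neg]
      · have h3 := Pool.Agent.H126G.sum_char_linear hF b c hb
        have h4 : ∑ v : F, ((quadraticChar F (0 * v ^ 2 + b * v + c) : ℤ) : ℝ) =
            ((∑ v : F, quadraticChar F (b * v + c) : ℤ) : ℝ) := by
          push_cast
          exact Finset.sum_congr rfl fun v _ => by rw [zero_mul, zero_add]
        rw [h4, h3, Int.cast_zero]
      · intro h
        apply hb
        have : b ^ 2 = 0 := by linear_combination h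
        exact pow_eq_zero_iff two_ne_zero |>.1 this
  · rw [if_neg ha]
    by_cases hΔ : b ^ 2 - 4 * a * c = 0
    · rw [if_pos hΔ]
      have h5 : quadraticChar F a * quadraticChar F a = 1 := by
        rw [← sq]; exact quadraticChar_sq_one ha
      have h1 : ∀ x : F, quadraticChar F (a * x ^ 2 + b * x + c) =
          quadraticChar F a * (if 2 * a * x + b = 0 then 0 else 1) := by
        intro x
        have h3 : (2 * a * x + b) ^ 2 = (2 ^ 2 * a) * (a * x ^ 2 + b * x + c) := by
          linear_combination hΔ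
        have h6 : quadraticChar F (2 ^ 2) = 1 := quadraticChar_sq_one' h2
        have h7 : quadraticChar F ((2 * a * x + b) ^ 2) =
            quadraticChar F a * quadraticChar F (a * x ^ 2 + b * x + c) := by
          rw [h3, map_mul, map_mul, h6, one_mul]
        have h8 : quadraticChar F (a * x ^ 2 + b * x + c) =
            quadraticChar F a * quadraticChar F ((2 * a * x + b) ^ 2) := by
          rw [h7, ← mul_assoc, h5, one_mul]
        rw [h8]
        congr 1
        by_cases h0 : 2 * a * x + b = 0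
        · rw [if_pos h0, h0, zero_pow two_ne_zero, quadraticChar_zero]
        · rw [if_neg h0, quadraticChar_sq_one' h0]
      have h9 : ∑ v : F, ((quadraticChar F (a * v ^ 2 + b * v + c) : ℤ) : ℝ) =
          (quadraticChar F a : ℝ) * ∑ v : F, (if 2 * a * v + b = 0 then (0 : ℝ) else 1) := by
        rw [Finset.mul_sum]
        refine Finset.sum_congr rfl fun v _ => ?_
        rw [h1 v]
        push_cast
        rfl
      have h10 : ∑ v : F, (if 2 * a * v + b = 0 then (0 : ℝ) else 1) = (Fintype.card F : ℝ) - 1 := by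
        have h11 : ∀ v : F, (if 2 * a * v + b = 0 then (0 : ℝ) else 1) =
            1 - (if v = -b / (2 * a) then (1 : ℝ) else 0) := by
          intro v
          have h2a : 2 * a ≠ 0 := mul_ne_zero h2 ha
          by_cases hv : v = -b / (2 * a)
          · rw [if_pos hv, if_pos (by rw [hv]; field_simp; ring)]
            ring
          · rw [if_neg hv, if_neg]
            · ring
            · intro h12
              apply hv
              rw [eq_div_iff h2a]
              linear_combination h12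
        rw [Finset.sum_congr rfl fun v _ => h11 v, Finset.sum_sub_distrib, Finset.sum_const,
          Finset.sum_ite_eq' , if_pos (Finset.mem_univ _), nsmul_eq_mul, mul_one, Finset.card_univ]
      rw [h9, h10]
      ring
    · rw [if_neg hΔ, zero_sub]
      have h3 := Pool.Agent.H126G.sum_char_quadratic hF a b c ha hΔ
      have h4 : ∑ v : F, ((quadraticChar F (a * v ^ 2 + b * v + c) : ℤ) : ℝ) =
            ((∑ v : F, quadraticChar F (a * v ^ 2 + b * v + c) : ℤ) : ℝ) := by
        push_cast
        rfl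
      rw [h4, h3]
      push_cast
      rfl

end

section
variable {A : Type} [CommRing A]

/-- the sum over the points of the line over a scheme -/
noncomputable def S2 (f : A[X]) : Ff := fun F _ _ => ∑ᶠ ψ : A →+* F, ∑ᶠ x : F, chi F (eval₂ ψ x f)

/-- the sum over the points of a scheme -/
noncomputable def S1 (f : A) : Ff := fun F _ _ => ∑ᶠ ψ : A →+* F, chi F (ψ f)

theorem S2_eq (f : A[X]) (F : Type) [Field F] [Fintype F] [Fintype (A →+* F)] :
    S2 f F = ∑ ψ : A →+* F, ∑ x : F, chi F (eval₂ ψ x f) := by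
  unfold S2
  rw [finsum_eq_sum_of_fintype]
  exact Finset.sum_congr rfl fun ψ _ => finsum_eq_sum_of_fintype _

theorem S1_eq (f : A) (F : Type) [Field F] [Finite F] [Fintype (A →+* F)] :
    S1 f F = ∑ ψ : A →+* F, chi F (ψ f) := finsum_eq_sum_of_fintype _

theorem S2_C (f : A) (F : Type) [Field F] [Finite F] [Finite (A →+* F)] :
    S2 (C f) F = (Nat.card F : ℝ) * S1 f F := by
  classical
  have := Fintype.ofFinite F
  have := Fintype.ofFinite (A →+* F)
  rw [S2_eq, S1_eq, Finset.mul_sum]
  refine Finset.sum_congr rfl fun ψ _ => ?_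
  simp only [eval₂_C]
  rw [Finset.sum_const, Finset.card_univ, nsmul_eq_mul, Nat.card_eq_fintype_card]

/-- the number of the points of `y² = f(x)` -/
theorem card_ZS (f : A[X]) (F : Type) [Field F] [Finite F] [Finite (A →+* F)] :
    (Nat.card (ZS F (fun _ : Unit => (X ^ 2 - C f : A[X][X])) 1) : ℝ) =
      S2 f F + (Nat.card F : ℝ) * Nat.card (A →+* F) := by
  classical
  have := Fintype.ofFinite F
  have := Fintype.ofFinite (A →+* F)
  have e1 : ZS F (fun _ : Unit => (X ^ 2 - C f : A[X][X])) 1 ≃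
      Σ ψ : A →+* F, Σ x : F, {y : F // y ^ 2 = eval₂ ψ x f} :=
    { toFun := fun w => ⟨w.1.1, w.2.1.1, w.2.1.2, by
        have h := w.2.2
        have h' : ev w.1.1 w.2.1 (X ^ 2 - C f : A[X][X]) = 0 := by
          simpa only [Finset.univ_unique, Finset.prod_singleton] using h
        rw [map_sub, map_pow, ev_X, ev_C, sub_eq_zero] at h'
        exact h'⟩
      invFun := fun w => ⟨⟨w.1, by rw [map_one]; exact one_ne_zero⟩, ⟨(w.2.1, w.2.2.1), by
        have h' : ev w.1 (w.2.1, w.2.2.1) (X ^ 2 - C f : A[X][X]) = 0 := by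
          rw [map_sub, map_pow, ev_X, ev_C, sub_eq_zero]
          exact w.2.2.2
        simpa only [Finset.univ_unique, Finset.prod_singleton] using h'⟩⟩
      left_inv := fun w => rfl
      right_inv := fun w => rfl }
  rw [Nat.card_congr e1, Nat.card_sigma, S2_eq]
  push_cast
  have e2 : ∀ ψ : A →+* F, (Nat.card (Σ x : F, {y : F // y ^ 2 = eval₂ ψ x f}) : ℝ) =
      ∑ x : F, chi F (eval₂ ψ x f) + Nat.card F := by
    intro ψ
    rw [Nat.card_sigma]
    push_cast
    have e3 : ∀ x : F, (Nat.card {y : F // y ^ 2 = eval₂ ψ x f} : ℝ) = chi F (eval₂ ψ x f) + 1 := by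
      intro x
      unfold chi
      ring
    rw [Finset.sum_congr rfl fun x _ => e3 x, Finset.sum_add_distrib, Finset.sum_const,
      Finset.card_univ, nsmul_eq_mul, mul_one, Nat.card_eq_fintype_card]
  rw [Finset.sum_congr rfl fun ψ _ => e2 ψ, Finset.sum_add_distrib, Finset.sum_const,
    Finset.card_univ, nsmul_eq_mul, Nat.card_eq_fintype_card (α := A →+* F)]
  ring

end

section
variable {M : Type} [Field M] [CharZero M]

theorem irr_sqrt {D : Type} [CommRing D] [IsDomain D] {a : D} (ha : ¬ IsSquare a) :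
    Irreducible (X ^ 2 - C a : D[X]) := by
  have hm : (X ^ 2 - C a : D[X]).Monic := monic_X_pow_sub_C a two_ne_zero
  have hd : (X ^ 2 - C a : D[X]).natDegree = 2 := natDegree_X_pow_sub_C
  rw [hm.irreducible_iff_roots_eq_zero_of_degree_le_three (by omega) (by omega)]
  rw [Multiset.eq_zero_iff_forall_notMem]
  intro y hy
  rw [mem_roots hm.ne_zero, IsRoot.def, eval_sub, eval_pow, eval_X, eval_C, sub_eq_zero] at hy
  exact ha ⟨y, by rw [← hy, sq]⟩

variable (A : Type) [CommRing A] [IsDomain A] [Algebra.FiniteType ℤ A] [Algebra A M]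
    [IsFractionRing A M]

/-- the sum of the character of a function which is not a square -/
theorem asy_nsq (hM : FG M) {d : ℕ} (hd : Algebra.trdeg ℚ M = d) {a : M[X]} (ha : ¬ IsSquare a)
    (f : A[X]) (hf : f.map (algebraMap A M) = a) : Asy (S2 f) (d + 1) 0 := by
  have h1 := asy_plane hM hd (h := X ^ 2 - C a) (monic_X_pow_sub_C a two_ne_zero) (irr_sqrt ha) A
    (X ^ 2 - C f) (monic_X_pow_sub_C f two_ne_zero) (by
      rw [Polynomial.map_sub, Polynomial.map_pow, Polynomial.map_X, Polynomial.map_C,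
        coe_mapRingHom, hf])
  have h2 := (asy_hom hM hd A).mulq.neg
  have h3 := h1.add h2
  rw [show (1 : ℝ) + -1 = 0 by ring] at h3
  refine h3.congr 1 one_ne_zero fun F _ _ _ => ?_
  rw [card_ZS]
  ring

theorem asy_nsq1 (hM : FG M) {d : ℕ} (hd : Algebra.trdeg ℚ M = d) {a : M} (ha : ¬ IsSquare a)
    (f : A) (hf : algebraMap A M f = a) : Asy (S1 f) d 0 := by
  have ha' : ¬ IsSquare (C a : M[X]) := by
    rintro ⟨s, hs⟩
    apply ha
    have hd : s.natDegree = 0 := by
      have h1 := congrArg natDegree hs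
      rw [natDegree_C, ← sq, natDegree_pow] at h1
      omega
    obtain ⟨t, rfl⟩ := natDegree_eq_zero.1 hd
    exact ⟨t, C_injective (by rw [hs, C_mul])⟩
  apply Asy.divq
  refine (asy_nsq A hM hd ha' (C f) (by rw [Polynomial.map_C, hf])).congr 1 one_ne_zero
    fun F _ _ _ => ?_
  rw [S2_C]

/-- the sum of the character of a nonzero square -/
theorem asy_sq (hM : FG M) {d : ℕ} (hd : Algebra.trdeg ℚ M = d) (s : A[X]) (hs : s ≠ 0)
    (hl : IsUnit s.leadingCoeff) : Asy (S2 (s ^ 2)) (d + 1) 1 := by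
  have h1 := (asy_hom hM hd A).mulq
  obtain ⟨C3, hC3, g3⟩ := hom_le (R := A) (K := M) (IsFractionRing.injective A M) hd.le
  refine h1.near ⟨s.natDegree * C3, 2, by positivity, two_ne_zero, ?_⟩
  intro F _ _ hF
  have hF2 := char_of hF
  classical
  have := Fintype.ofFinite F
  have := Fintype.ofFinite (A →+* F)
  rw [S2_eq]
  have e1 : ∀ ψ : A →+* F, |∑ x : F, chi F (eval₂ ψ x (s ^ 2)) - (Nat.card F : ℝ)| ≤ s.natDegree := by
    intro ψ
    have hψ : s.map ψ ≠ 0 := by
      intro h
      have h2 := congrArg (fun p => coeff p s.natDegree) h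
      simp only [coeff_map, coeff_zero] at h2
      have h3 : IsUnit (ψ s.leadingCoeff) := hl.map ψ
      exact h3.ne_zero h2
    have e2 : ∀ x : F, chi F (eval₂ ψ x (s ^ 2)) = 1 - (if (s.map ψ).eval x = 0 then (1 : ℝ) else 0) := by
      intro x
      rw [eval₂_pow, ← eval_map]
      by_cases h : (s.map ψ).eval x = 0
      · rw [h, if_pos rfl, zero_pow two_ne_zero, chi_zero]
        ring
      · rw [if_neg h, chi_sq hF2 h]
        ring
    rw [Finset.sum_congr rfl fun x _ => e2 x, Finset.sum_sub_distrib, Finset.sum_const,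
      Finset.card_univ, nsmul_eq_mul, mul_one, Nat.card_eq_fintype_card,
      show (Fintype.card F : ℝ) - ∑ x : F, (if (s.map ψ).eval x = 0 then (1 : ℝ) else 0) -
        (Fintype.card F : ℝ) = -∑ x : F, (if (s.map ψ).eval x = 0 then (1 : ℝ) else 0) by ring,
      abs_neg, ← Finset.sum_filter, Finset.sum_const, nsmul_eq_mul, mul_one, Nat.abs_cast]
    have h4 : (Finset.univ.filter fun x : F => (s.map ψ).eval x = 0) ⊆ (s.map ψ).roots.toFinset := by
      intro x hx
      rw [Finset.mem_filter] at hx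
      rw [Multiset.mem_toFinset, mem_roots hψ]
      exact hx.2
    have h5 := (Finset.card_le_card h4).trans ((Multiset.toFinset_card_le _).trans
      ((card_roots' _).trans natDegree_map_le))
    exact_mod_cast h5
  have e2 : ∑ ψ : A →+* F, ∑ x : F, chi F (eval₂ ψ x (s ^ 2)) - (Nat.card F : ℝ) * Nat.card (A →+* F) =
      ∑ ψ : A →+* F, (∑ x : F, chi F (eval₂ ψ x (s ^ 2)) - (Nat.card F : ℝ)) := by
    rw [Finset.sum_sub_distrib, Finset.sum_const, Finset.card_univ, nsmul_eq_mul,
      Nat.card_eq_fintype_card (α := A →+* F)]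
    ring
  rw [e2]
  have h6 := g3 F
  have hq1 : (1 : ℝ) ≤ (Nat.card F : ℝ) := by exact_mod_cast Nat.card_pos
  have hs1 : √(Nat.card F : ℝ) ≤ (Nat.card F : ℝ) := by
    have h5 : 1 ≤ √(Nat.card F : ℝ) := Real.one_le_sqrt.2 hq1
    have hss : √(Nat.card F : ℝ) * √(Nat.card F : ℝ) = (Nat.card F : ℝ) :=
      Real.mul_self_sqrt (by linarith)
    nlinarith
  calc |∑ ψ : A →+* F, (∑ x : F, chi F (eval₂ ψ x (s ^ 2)) - (Nat.card F : ℝ))| * √(Nat.card F : ℝ) ≤
      (∑ ψ : A →+* F, |∑ x : F, chi F (eval₂ ψ x (s ^ 2)) - (Nat.card F : ℝ)|) * √(Nat.card F : ℝ) :=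
        mul_le_mul_of_nonneg_right (Finset.abs_sum_le_sum_abs _ _) (Real.sqrt_nonneg _)
    _ ≤ (∑ ψ : A →+* F, (s.natDegree : ℝ)) * (Nat.card F : ℝ) :=
        mul_le_mul (Finset.sum_le_sum fun ψ _ => e1 ψ) hs1 (Real.sqrt_nonneg _) (by positivity)
    _ = s.natDegree * (Nat.card (A →+* F) : ℝ) * (Nat.card F : ℝ) := by
        rw [Finset.sum_const, Finset.card_univ, nsmul_eq_mul, Nat.card_eq_fintype_card (α := A →+* F)]
        ring
    _ ≤ s.natDegree * (C3 * (Nat.card F : ℝ) ^ d) * (Nat.card F : ℝ) := by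
        refine mul_le_mul_of_nonneg_right ?_ (by linarith)
        exact mul_le_mul_of_nonneg_left h6 (Nat.cast_nonneg _)
    _ = s.natDegree * C3 * (Nat.card F : ℝ) ^ (d + 1) := by ring

theorem asy_sq1 (hM : FG M) {d : ℕ} (hd : Algebra.trdeg ℚ M = d) (s : A) (hs : IsUnit s) :
    Asy (S1 (s ^ 2)) d 1 := by
  refine (asy_hom hM hd A).congr 2 two_ne_zero fun F _ _ hF => ?_
  classical
  have hF2 := char_of hF
  have := Fintype.ofFinite F
  have := Fintype.ofFinite (A →+* F)
  rw [S1_eq]
  have e1 : ∀ ψ : A →+* F, chi F (ψ (s ^ 2)) = 1 := by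
    intro ψ
    rw [map_pow]
    exact chi_sq hF2 (hs.map ψ).ne_zero
  rw [Finset.sum_congr rfl fun ψ _ => e1 ψ, Finset.sum_const, Finset.card_univ, nsmul_eq_mul,
    mul_one, Nat.card_eq_fintype_card (α := A →+* F)]

theorem asy_zero1 (d : ℕ) : Asy (S1 (0 : A)) d 0 := by
  refine (Asy.zero d).congr 1 one_ne_zero fun F _ _ _ => ?_
  have := Fintype.ofFinite (A →+* F)
  rw [S1_eq]
  refine Finset.sum_eq_zero fun ψ _ => ?_
  rw [map_zero, chi_zero]

theorem asy_zero (d : ℕ) : Asy (S2 (0 : A[X])) d 0 := by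
  refine (Asy.zero d).congr 1 one_ne_zero fun F _ _ _ => ?_
  have := Fintype.ofFinite F
  have := Fintype.ofFinite (A →+* F)
  rw [S2_eq]
  refine Finset.sum_eq_zero fun ψ _ => Finset.sum_eq_zero fun x _ => ?_
  rw [eval₂_zero, chi_zero]

end

end Pool.Agent.R410.NG
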