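import Pool.Agent.R410.NG.Ch
import Pool.Agent.R410.NG.Res

/-!
# The averages for the products of the curves of pencils
-/

set_option autoImplicit false
set_option linter.all false
set_option maxHeartbeats 1000000

open Polynomial NumberField IsDedekindDomain Filter Topology

namespace Pool.Agent.R410.NG

open Pool.Agent.R410.LW (FG frac_of_closure)
open Pool.Agent.R410.BS (cF hom_le landau_all)
open Pool.Agent.R410.CB (Spl fq fq_eq deg_fq)
open Pool.Agent.Y707.PC (up up_def)
open Pool.Agent.Y707.PR (HasResidue series)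

section
variable {M K L : Type} [Field M] [CharZero M] [Field K] [CharZero K] [Algebra M K] {ω : K}
  [Field L] [CharZero L] [Algebra M L] {x₀ : L}

/-- the number of the points -/
noncomputable def sH {R : Type} [CommRing R] (N : R) : Ff := fun F _ _ =>
  (Nat.card {φ : R →+* F // φ N ≠ 0} : ℝ)

theorem asy_sH (hK : FG K) {e : ℕ} (he : Algebra.trdeg ℚ K = e) {R : Type} [CommRing R] [IsDomain R]
    [Algebra.FiniteType ℤ R] [Algebra R K] [IsFractionRing R K] {N : R} (hN : N ≠ 0) :
    Asy (sH N) e 1 := by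
  obtain ⟨L, iL, nL, hL⟩ := landau_all hK he
  obtain ⟨C, N', hC, hN', h⟩ := hL R N hN
  refine ⟨Unit, inferInstance, fun _ => L, fun _ => iL, fun _ => nL, fun _ => 1, by simp, C, N', hC,
    hN', ?_⟩
  intro F _ _ hF
  have h1 := h F hF
  have h3 : cF (fun _ : Unit => L) (fun _ => 1) F = (Nat.card (𝓞 L →+* F) : ℝ) := by
    unfold cF
    simp
  rw [h3]
  exact h1

open Classical in
/-- the first rank -/
noncomputable def nn1 (b' c' : M[X]) : ℕ := Nat.card (SplT 0 b' c')

/-- **The products of the traces of two curves.** -/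
theorem asy_pair (hM : FG M) {d : ℕ} (hd : Algebra.trdeg ℚ M = d) (hω : Transcendental M ω)
    (htop : IntermediateField.adjoin M {ω} = ⊤) (ht : Transcendental M x₀)
    (hL : IntermediateField.adjoin M {x₀} = ⊤) {b c b' c' : M[X]} (hb : b ≠ 0) (hb' : b' ≠ 0)
    (hodd : Odd c.natDegree) (hbc : b.natDegree < c.natDegree)
    (hodd' : Odd c'.natDegree) (hbc' : b'.natDegree < c'.natDegree)
    (hsep : (fq 0 b' c' ω).Separable) {R : Type} [CommRing R] [IsDomain R]
    [Algebra.FiniteType ℤ R] [Algebra R K] [IsFractionRing R K] {G G' : R[X]} (hG : G.Monic)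
    (hG' : G'.Monic) (hGm : G.map (algebraMap R K) = fq 0 b c ω)
    (hGm' : G'.map (algebraMap R K) = fq 0 b' c' ω) {N : R} (hN : N ≠ 0) :
    Asy (sP G G' N) (d + 1 + 1) ((nn2 x₀ b c b' c' : ℝ) - nn1 b' c') := by
  classical
  have hdF : (fq 0 b c ω).natDegree = c.natDegree := deg_fq (by rw [natDegree_zero]; exact hodd.pos) hbc
  have hdF' : (fq 0 b' c' ω).natDegree = c'.natDegree :=
    deg_fq (by rw [natDegree_zero]; exact hodd'.pos) hbc'
  have hdG : G.natDegree = c.natDegree := by
    rw [← hG.natDegree_map (algebraMap R K), hGm, hdF]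
  have hdG' : G'.natDegree = c'.natDegree := by
    rw [← hG'.natDegree_map (algebraMap R K), hGm', hdF']
  obtain ⟨K₁, i1, i2, x, y, h⟩ := exists_cf (F := fq 0 b c ω) (by rw [hdF]; exact hodd)
  have hcK : CharZero K₁ := charZero_of_injective_algebraMap (algebraMap K K₁).injective
  obtain ⟨htr, -, B, j1, j2, j3, j4, j5, g', hg', hA⟩ := pair_main hM hd hω htop ht hL hb hb' hodd'
    hbc' hsep h
  have hoddG : Odd G.natDegree := by rw [hdG]; exact hodd
  -- the coordinate ring
  have hdom : IsDomain (AdjoinRoot (X ^ 2 - C G : R[X][X])) := (th_inj h hGm hoddG).isDomain (th h hGm)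
  let _ : Algebra (AdjoinRoot (X ^ 2 - C G : R[X][X])) K₁ := (th h hGm).toAlgebra
  have hfr : IsFractionRing (AdjoinRoot (X ^ 2 - C G : R[X][X])) K₁ := th_frac h hGm hoddG
  have hft : Algebra.FiniteType ℤ R[X] := inferInstance
  have hft1 : Algebra.FiniteType R[X] (AdjoinRoot (X ^ 2 - C G : R[X][X])) := inferInstance
  have hft2 := Pool.Agent.R410.LW.ft_int _ (Algebra.FiniteType.trans hft hft1)
  have hio : (algebraMap (AdjoinRoot (X ^ 2 - C G : R[X][X])) K₁).comp (io G) =
      (algebraMap K K₁).comp (algebraMap R K) := by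
    refine RingHom.ext fun a => ?_
    show th h hGm (AdjoinRoot.of _ (C a)) = _
    unfold th
    rw [AdjoinRoot.lift_of, th0_apply, Polynomial.map_C, aeval_C]
    rfl
  have hioN : io G N ≠ 0 := by
    intro h0
    have h1 := congrArg (fun f : R →+* K₁ => f N) hio
    have h2 : algebraMap (AdjoinRoot (X ^ 2 - C G : R[X][X])) K₁ (io G N) =
        algebraMap K K₁ (algebraMap R K N) := h1
    rw [h0, map_zero] at h2
    have h3 := (map_eq_zero (algebraMap K K₁)).1 h2.symm
    exact hN (IsFractionRing.injective R K (by rw [h3, map_zero]))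
  have hA1 : Asy (fun F _ _ => sT wtc (fun _ : Unit => G'.map (io G)) (io G N) F) (d + 1 + 1)
      (nn2 x₀ b c b' c') := by
    refine asy_any (K := K₁) (isWt_trc (n := G'.natDegree) (by rw [hdG']; exact hodd'))
      (by rw [htr]) (g' := g') ?_ ?_ hioN one_ne_zero hA
    · intro j
      rw [Polynomial.map_map, hio, ← Polynomial.map_map, hGm']
      exact hg'.symm
    · intro j
      exact ⟨hG'.map _, hG'.natDegree_map _⟩
  -- the line
  have hb1 : b' ^ 2 - 4 * (0 : M[X]) * c' ≠ 0 := by
    rw [mul_zero, zero_mul, sub_zero]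
    exact pow_ne_zero 2 hb'
  obtain ⟨B2, k1, k2, k3, k4, k5, g2, hg2, hA2⟩ := Pool.Agent.R410.EP.model_cb hM hd hω htop hb1
  have hA3 : Asy (fun F _ _ => sT wtc (fun _ : Unit => G') N F) (d + 1) (nn1 b' c') := by
    refine asy_any (K := K) (isWt_trc (n := G'.natDegree) (by rw [hdG']; exact hodd'))
      (by rw [trdeg_line hd hω htop]) (g' := g2) ?_ ?_ hN one_ne_zero ?_
    · intro j
      rw [hGm']
      exact hg2.symm
    · intro j
      exact ⟨hG', rfl⟩
    · have e : (nn1 b' c' : ℝ) = (((Nat.card (SplT 0 b' c') : ℤ) -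
          if (0 : M[X]) ≠ 0 ∧ IsSquare (0 : M[X]) then 1 else 0 : ℤ) : ℝ) := by
        unfold nn1
        rw [if_neg (fun h => h.1 rfl)]
        push_cast
        ring
      rw [e]
      exact hA2
  have hA4 := hA1.add hA3.mulq.neg
  refine (hA4.congr 1 one_ne_zero fun F _ _ _ => ?_)
  rw [prod_cov]
  ring

end

end Pool.Agent.R410.NG
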