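import Pool.Agent.R410.NG.Ci

/-!
# The residue for the products of the curves of pencils
-/

set_option autoImplicit false
set_option linter.all false
set_option maxHeartbeats 1000000

open Polynomial NumberField IsDedekindDomain Filter Topology

namespace Pool.Agent.R410.NG

open Pool.Agent.R410.LW (FG frac_of_closure)
open Pool.Agent.R410.BS (cF hom_le landau_all)
open Pool.Agent.R410.CB (Spl fq fq_eq deg_fq)
open Pool.Agent.Y707.PC (up up_def)
open Pool.Agent.Y707.PR (HasResidue series)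

/-- the trace on `H²` divided by the order of the field -/
noncomputable def w2 (m : ℕ) : Wt (Fin m) := fun F _ p =>
  (m : ℝ) + (Nat.card F : ℝ)⁻¹ * ∑ i, ∑ j, if i < j then trc F (p i) * trc F (p j) else 0

/-- the bound -/
noncomputable def c2 {m : ℕ} (n : Fin m → ℕ) : ℝ :=
  (m : ℝ) + ∑ i, ∑ j, if i < j then (n i : ℝ) * n j else 0

theorem c2_nonneg {m : ℕ} (n : Fin m → ℕ) : 0 ≤ c2 n := by
  unfold c2
  refine add_nonneg (Nat.cast_nonneg _) (Finset.sum_nonneg fun i _ => Finset.sum_nonneg fun j _ => ?_)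
  split_ifs
  · positivity
  · exact le_rfl

theorem w2_bound {m : ℕ} {n : Fin m → ℕ} (hodd : ∀ i, Odd (n i)) (F : Type) [Field F] [Finite F]
    (p : Fin m → F[X]) (hp : ∀ j, (p j).Monic ∧ (p j).natDegree = n j) : |w2 m F p| ≤ c2 n := by
  have hq : (0 : ℝ) < (Nat.card F : ℝ) := by exact_mod_cast Nat.card_pos
  have hs : √(Nat.card F : ℝ) * √(Nat.card F : ℝ) = Nat.card F := Real.mul_self_sqrt hq.le
  have hs0 : 0 ≤ √(Nat.card F : ℝ) := Real.sqrt_nonneg _
  have h1 : |∑ i, ∑ j, if i < j then trc F (p i) * trc F (p j) else 0| ≤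
      ∑ i, ∑ j, if i < j then (n i : ℝ) * n j * Nat.card F else 0 := by
    refine (Finset.abs_sum_le_sum_abs _ _).trans (Finset.sum_le_sum fun i _ => ?_)
    refine (Finset.abs_sum_le_sum_abs _ _).trans (Finset.sum_le_sum fun j _ => ?_)
    by_cases h : i < j
    · rw [if_pos h, if_pos h, abs_mul]
      have e1 := trc_bound (hp i).1 (hp i).2 (hodd i)
      have e2 := trc_bound (hp j).1 (hp j).2 (hodd j)
      calc |trc F (p i)| * |trc F (p j)| ≤
          ((n i : ℝ) * √(Nat.card F : ℝ)) * ((n j : ℝ) * √(Nat.card F : ℝ)) :=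
            mul_le_mul e1 e2 (abs_nonneg _) (by positivity)
        _ = (n i : ℝ) * n j * (√(Nat.card F : ℝ) * √(Nat.card F : ℝ)) := by ring
        _ = _ := by rw [hs]
    · rw [if_neg h, if_neg h, abs_zero]
  have h2 : ∑ i, ∑ j, (if i < j then (n i : ℝ) * n j * Nat.card F else 0) =
      (∑ i, ∑ j, if i < j then (n i : ℝ) * n j else 0) * Nat.card F := by
    rw [Finset.sum_mul]
    refine Finset.sum_congr rfl fun i _ => ?_
    rw [Finset.sum_mul]
    refine Finset.sum_congr rfl fun j _ => ?_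
    rw [ite_mul, zero_mul]
  rw [h2] at h1
  unfold w2 c2
  refine (abs_add_le _ _).trans ?_
  rw [abs_mul, abs_inv, abs_of_pos hq, Nat.abs_cast]
  refine add_le_add le_rfl ?_
  rw [inv_mul_le_iff₀ hq, mul_comm (Nat.card F : ℝ)]
  exact h1

theorem isWt_w2 {m : ℕ} {n : Fin m → ℕ} (hodd : ∀ i, Odd (n i)) : IsWt (w2 m) n (c2 n) where
  c0 := c2_nonneg n
  iso F F' _ _ e p := by
    unfold w2
    simp only [trc_iso]
    rw [Nat.card_congr e.toEquiv]
  bound F _ _ p hp := by
    have hq : (1 : ℝ) ≤ (Nat.card F : ℝ) := by exact_mod_cast Nat.card_pos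
    exact (w2_bound hodd F p hp).trans (le_mul_of_one_le_right (c2_nonneg n) (Real.one_le_sqrt.2 hq))

section
variable {R : Type} [CommRing R] {m : ℕ}

theorem sT_w2 [Algebra.FiniteType ℤ R] (g : Fin m → R[X]) (N : R) (F : Type) [Field F] [Finite F] :
    (Nat.card F : ℝ) * sT (w2 m) g N F = (Nat.card F : ℝ) * ((m : ℝ) * sH N F) +
      ∑ i, ∑ j, if i < j then sP (g i) (g j) N F else 0 := by
  classical
  let _ : Fintype (R →+* F) := Fintype.ofFinite _
  have hq : (Nat.card F : ℝ) ≠ 0 := by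
    have : (0 : ℝ) < (Nat.card F : ℝ) := by exact_mod_cast Nat.card_pos
    exact this.ne'
  have e1 : ∀ φ : R →+* F, (Nat.card F : ℝ) *
      (if φ N ≠ 0 then w2 m F (fun j => (g j).map φ) else 0) =
      (Nat.card F : ℝ) * ((m : ℝ) * if φ N ≠ 0 then 1 else 0) + ∑ i, ∑ j, if i < j then
        (if φ N ≠ 0 then trc F ((g i).map φ) * trc F ((g j).map φ) else 0) else 0 := by
    intro φ
    by_cases h : φ N ≠ 0
    · simp only [if_pos h]
      unfold w2
      rw [mul_add, ← mul_assoc (Nat.card F : ℝ) (Nat.card F : ℝ)⁻¹, mul_inv_cancel₀ hq, one_mul, mul_one]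
    · simp only [if_neg h, mul_zero, ite_self, Finset.sum_const_zero, add_zero]
  have e2 : sH N F = ∑ φ : R →+* F, if φ N ≠ 0 then (1 : ℝ) else 0 := by
    unfold sH
    rw [Nat.card_eq_fintype_card, Fintype.card_subtype, Finset.sum_boole]
  rw [sT_eq, Finset.mul_sum, Finset.sum_congr rfl fun φ _ => e1 φ, Finset.sum_add_distrib,
    ← Finset.mul_sum, ← Finset.mul_sum, ← e2]
  congr 1
  rw [Finset.sum_comm]
  refine Finset.sum_congr rfl fun i _ => ?_
  rw [Finset.sum_comm]
  refine Finset.sum_congr rfl fun j _ => ?_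
  by_cases h : i < j
  · simp only [if_pos h]
    rw [sP_eq]
  · simp only [if_neg h, Finset.sum_const_zero]

end

section
variable {k : Type} [Field k] [NumberField k]

/-- the shift -/
theorem residue_shift {S : Finset (HeightOneSpectrum (𝓞 k))} {b : HeightOneSpectrum (𝓞 k) → ℝ}
    {r : ℝ} (h : HasResidue S b 1 r) :
    HasResidue S (fun v => (Ideal.absNorm v.asIdeal : ℝ) * b v) 2 r := by
  have key : ∀ (v : HeightOneSpectrum (𝓞 k)) (s : ℂ),
      (((Ideal.absNorm v.asIdeal : ℝ) * b v : ℝ) : ℂ) *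
        (Real.log (Ideal.absNorm v.asIdeal) : ℂ) * (Ideal.absNorm v.asIdeal : ℂ) ^ (-s) =
      (b v : ℂ) * (Real.log (Ideal.absNorm v.asIdeal) : ℂ) *
        (Ideal.absNorm v.asIdeal : ℂ) ^ (-(s - 1)) := by
    intro v s
    have hn : (Ideal.absNorm v.asIdeal : ℂ) ≠ 0 := by
      have h := Pool.Agent.H921R2.TatePole.two_le_nm v
      have h' : 2 ≤ Ideal.absNorm v.asIdeal := h
      exact_mod_cast (by omega : Ideal.absNorm v.asIdeal ≠ 0)
    rw [show -(s - 1) = -s + 1 by ring, Complex.cpow_add _ _ hn, Complex.cpow_one]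
    push_cast
    ring
  obtain ⟨h1, G, hG, h2⟩ := h
  refine ⟨?_, fun s => G (s - 1), ?_, ?_⟩
  · intro s hs
    have h3 := h1 (s - 1) (by rw [Complex.sub_re, Complex.one_re]; linarith)
    refine h3.congr fun v => ?_
    exact (key v.1 s).symm
  · have e : G = G := rfl
    have h3 : AnalyticAt ℂ (fun s : ℂ => s - 1) ((2 : ℝ) : ℂ) := analyticAt_id.sub analyticAt_const
    refine AnalyticAt.comp' (f := fun s : ℂ => s - 1) (g := G) ?_ h3
    have h4 : (((2 : ℝ) : ℂ) - 1) = ((1 : ℝ) : ℂ) := by push_cast; norm_num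
    rw [h4]
    exact hG
  · have h3 : Tendsto (fun s : ℂ => s - 1) (𝓝 ((2 : ℝ) : ℂ)) (𝓝 ((1 : ℝ) : ℂ)) := by
      have h5 : Tendsto (fun s : ℂ => s - 1) (𝓝 ((2 : ℝ) : ℂ)) (𝓝 (((2 : ℝ) : ℂ) - 1)) :=
        tendsto_id.sub_const 1
      have h4 : (((2 : ℝ) : ℂ) - 1) = ((1 : ℝ) : ℂ) := by push_cast; norm_num
      rwa [h4] at h5
    filter_upwards [h3.eventually h2] with s hs hre
    have h6 := hs (by rw [Complex.sub_re, Complex.one_re]; linarith)
    have h7 : series S (fun v => (Ideal.absNorm v.asIdeal : ℝ) * b v) s = series S b (s - 1) := by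
      unfold series
      exact tsum_congr fun v => key v.1 s
    rw [h7, h6]
    push_cast
    congr 2
    ring

end

section
variable {M K L : Type} [Field M] [CharZero M] [Field K] [CharZero K] [Algebra M K] {ω : K}
  [Field L] [CharZero L] [Algebra M L] {x₀ : L} {k : Type} [Field k] [NumberField k]

/-- **The residue for the products of the curves of pencils.** -/
theorem residue_products {m : ℕ} (hM : FG M) {d : ℕ} (hd : Algebra.trdeg ℚ M = d)
    (hω : Transcendental M ω) (htop : IntermediateField.adjoin M {ω} = ⊤) (ht : Transcendental M x₀)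
    (hL : IntermediateField.adjoin M {x₀} = ⊤) {b c : Fin m → M[X]} (hb : ∀ i, b i ≠ 0)
    (hodd : ∀ i, Odd (c i).natDegree) (hbc : ∀ i, (b i).natDegree < (c i).natDegree)
    (hsep : ∀ i, (fq 0 (b i) (c i) ω).Separable) {R : Type} [CommRing R] [IsDomain R]
    [Algebra.FiniteType ℤ R] [Algebra R K] [IsFractionRing R K] [Algebra (𝓞 k) R]
    {g : Fin m → R[X]} (hg : ∀ i, (g i).Monic)
    (hgm : ∀ i, (g i).map (algebraMap R K) = fq 0 (b i) (c i) ω) {N : R} (hN : N ≠ 0)
    (S : Finset (HeightOneSpectrum (𝓞 k))) :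
    HasResidue S (fun v => (Ideal.absNorm v.asIdeal : ℝ) * avg (w2 m) g N (d + 1) v) 2
      ((m + ∑ i, ∑ j, if i < j then ((nn2 x₀ (b i) (c i) (b j) (c j) : ℤ) - nn1 (b j) (c j)) else 0 :
        ℤ) : ℝ) := by
  classical
  have htr : Algebra.trdeg ℚ K = (d + 1 : ℕ) := trdeg_line hd hω htop
  have hKF : FG K := fg_line hM htop
  have hgd : ∀ i, (g i).natDegree = (c i).natDegree := by
    intro i
    rw [← (hg i).natDegree_map (algebraMap R K), hgm,
      deg_fq (by rw [natDegree_zero]; exact (hodd i).pos) (hbc i)]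
  have hw : IsWt (w2 m) (fun i => (c i).natDegree) (c2 fun i => (c i).natDegree) := isWt_w2 hodd
  -- the asymptotic value
  have h1 : Asy (fun F _ _ => sT (w2 m) g N F) (d + 1)
      ((m : ℝ) + ∑ i, ∑ j, if i < j then ((nn2 x₀ (b i) (c i) (b j) (c j) : ℝ) - nn1 (b j) (c j))
        else 0) := by
    apply Asy.divq
    have t1 := ((asy_sH hKF htr hN).smul (m : ℝ)).mulq
    rw [mul_one] at t1
    have t2 : Asy (fun F _ _ => ∑ i, ∑ j, if i < j then sP (g i) (g j) N F else 0) (d + 1 + 1)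
        (∑ i, ∑ j, if i < j then ((nn2 x₀ (b i) (c i) (b j) (c j) : ℝ) - nn1 (b j) (c j))
          else 0) := by
      refine Asy.sum Finset.univ (fun i => fun F _ _ => ∑ j, if i < j then sP (g i) (g j) N F else 0) _
        fun i _ => ?_
      refine Asy.sum Finset.univ (fun j => fun F _ _ => if i < j then sP (g i) (g j) N F else 0) _
        fun j _ => ?_
      by_cases hij : i < j
      · simp only [if_pos hij]
        exact asy_pair hM hd hω htop ht hL (hb i) (hb j) (hodd i) (hbc i) (hodd j) (hbc j) (hsep j)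
          (hg i) (hg j) (hgm i) (hgm j) hN
      · simp only [if_neg hij]
        exact Asy.zero _
    refine (t1.add t2).congr 1 one_ne_zero fun F _ _ _ => ?_
    exact sT_w2 g N F
  obtain ⟨κ, iκ, L', iL, nL, a, ha, C2, N2, hC2, hN2, g2⟩ := h1
  obtain ⟨C3, hC3, g3⟩ := hom_le (R := R) (K := K) (IsFractionRing.injective R K) (e := d + 1)
    (by rw [htr])
  apply residue_shift
  refine all_models (K := K) hw (e := d + 1) (by rw [htr]) rfl (fun _ => rfl)
    (fun j => ⟨hg j, hgd j⟩) hN hN L' a (by rw [ha]; push_cast; rfl) ?_ ⟨C2, N2, hC2, hN2, g2⟩ S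
  refine ⟨C3 * c2 fun i => (c i).natDegree, 1, mul_nonneg hC3 (c2_nonneg _), one_ne_zero,
    fun F _ _ _ ψ => ?_⟩
  let _ : Fintype (R →+* F) := Fintype.ofFinite _
  rw [sR_eq]
  calc |∑ φ : R →+* F, if φ.comp (algebraMap (𝓞 k) R) = ψ ∧ φ N ≠ 0 then
        w2 m F (fun j => (g j).map φ) else 0| ≤
      ∑ φ : R →+* F, |if φ.comp (algebraMap (𝓞 k) R) = ψ ∧ φ N ≠ 0 then
        w2 m F (fun j => (g j).map φ) else 0| := Finset.abs_sum_le_sum_abs _ _
    _ ≤ ∑ φ : R →+* F, c2 fun i => (c i).natDegree := by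
        refine Finset.sum_le_sum fun φ _ => ?_
        split_ifs
        · exact w2_bound hodd F _ fun j => ⟨(hg j).map φ, by rw [(hg j).natDegree_map, hgd]⟩
        · rw [abs_zero]
          exact c2_nonneg _
    _ = (Nat.card (R →+* F) : ℝ) * c2 fun i => (c i).natDegree := by
        rw [Finset.sum_const, Finset.card_univ, nsmul_eq_mul, Nat.card_eq_fintype_card]
    _ ≤ (C3 * (Nat.card F : ℝ) ^ (d + 1)) * c2 fun i => (c i).natDegree :=
        mul_le_mul_of_nonneg_right (g3 F) (c2_nonneg _)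
    _ = _ := by ring

end

end Pool.Agent.R410.NG
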