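import Pool.Agent.R410.NG.Cj
import Pool.Agent.R410.EP.Gen
import Pool.Agent.R410.EP.Sep

/-!
# The Euler product for `H²` of the products of the curves of pencils
-/

set_option autoImplicit false
set_option linter.all false
set_option maxHeartbeats 1000000

open Polynomial NumberField IsDedekindDomain Filter Topology

namespace Pool.Agent.R410.NG

open Pool.Agent.R410.LW (FG frac_of_closure)
open Pool.Agent.R410.BS (cF hom_le landau_all)
open Pool.Agent.R410.CB (Spl fq fq_eq deg_fq)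
open Pool.Agent.Y707.PC (up up_def)
open Pool.Agent.TH958.An (Pt qy ptOf)
open Pool.Agent.R410.EP (trY trY_eq ZG euler_gen)

section
variable {M K L : Type} [Field M] [CharZero M] [Field K] [CharZero K] [Algebra M K] {ω : K}
  [Field L] [CharZero L] [Algebra M L] {x₀ : L}

/-- **The asymptotic value for the products of the curves of pencils.** -/
theorem asy_w2 {m : ℕ} (hM : FG M) {d : ℕ} (hd : Algebra.trdeg ℚ M = d)
    (hω : Transcendental M ω) (htop : IntermediateField.adjoin M {ω} = ⊤) (ht : Transcendental M x₀)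
    (hL : IntermediateField.adjoin M {x₀} = ⊤) {b c : Fin m → M[X]} (hb : ∀ i, b i ≠ 0)
    (hodd : ∀ i, Odd (c i).natDegree) (hbc : ∀ i, (b i).natDegree < (c i).natDegree)
    (hsep : ∀ i, (fq 0 (b i) (c i) ω).Separable) {R : Type} [CommRing R] [IsDomain R]
    [Algebra.FiniteType ℤ R] [Algebra R K] [IsFractionRing R K]
    {g : Fin m → R[X]} (hg : ∀ i, (g i).Monic)
    (hgm : ∀ i, (g i).map (algebraMap R K) = fq 0 (b i) (c i) ω) {N : R} (hN : N ≠ 0) :
    Asy (fun F _ _ => sT (w2 m) g N F) (d + 1)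
      ((m : ℝ) + ∑ i, ∑ j, if i < j then ((nn2 x₀ (b i) (c i) (b j) (c j) : ℝ) - nn1 (b j) (c j))
        else 0) := by
  classical
  have htr : Algebra.trdeg ℚ K = (d + 1 : ℕ) := trdeg_line hd hω htop
  have hKF : FG K := fg_line hM htop
  apply Asy.divq
  have t1 := ((asy_sH hKF htr hN).smul (m : ℝ)).mulq
  rw [mul_one] at t1
  have t2 : Asy (fun F _ _ => ∑ i, ∑ j, if i < j then sP (g i) (g j) N F else 0) (d + 1 + 1)
      (∑ i, ∑ j, if i < j then ((nn2 x₀ (b i) (c i) (b j) (c j) : ℝ) - nn1 (b j) (c j))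
        else 0) := by
    refine Asy.sum Finset.univ (fun i => fun F _ _ => ∑ j, if i < j then sP (g i) (g j) N F else 0) _
      fun i _ => ?_
    refine Asy.sum Finset.univ (fun j => fun F _ _ => if i < j then sP (g i) (g j) N F else 0) _
      fun j _ => ?_
    by_cases hij : i < j
    · simp only [if_pos hij]
      exact asy_pair hM hd hω htop ht hL (hb i) (hb j) (hodd i) (hbc i) (hodd j) (hbc j) (hsep j)
        (hg i) (hg j) (hgm i) (hgm j) hN
    · simp only [if_neg hij]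
      exact Asy.zero _
  refine (t1.add t2).congr 1 one_ne_zero fun F _ _ _ => ?_
  exact sT_w2 g N F

/-- the local trace divided by the norm -/
noncomputable def tau {R : Type} [CommRing R] {m : ℕ} (G : Fin m → R[X]) (y : Pt R) (n : ℕ) : ℝ :=
  (m : ℝ) + (n : ℝ)⁻¹ * ∑ i, ∑ j, if i < j then trY (G i) y n * trY (G j) y n else 0

theorem tau_eq {R : Type} [CommRing R] {m : ℕ} (G : Fin m → R[X]) (F : Type) [Field F] [Finite F]
    (φ : R →+* F) : tau G (ptOf φ) (Nat.card F) = w2 m F (fun j => (G j).map φ) := by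
  unfold tau w2
  simp only [trY_eq _ φ _ rfl]

/-- **The Euler product for `H²`.** -/
theorem euler_products {m : ℕ} (hM : FG M) {d : ℕ} (hd : Algebra.trdeg ℚ M = d)
    (hω : Transcendental M ω) (htop : IntermediateField.adjoin M {ω} = ⊤) (ht : Transcendental M x₀)
    (hL : IntermediateField.adjoin M {x₀} = ⊤) {b c : Fin m → M[X]} (hb : ∀ i, b i ≠ 0)
    (hodd : ∀ i, Odd (c i).natDegree) (hbc : ∀ i, (b i).natDegree < (c i).natDegree)
    (hsep : ∀ i, (fq 0 (b i) (c i) ω).Separable) {R : Type} [CommRing R] [IsDomain R]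
    [Algebra.FiniteType ℤ R] [Algebra R K] [IsFractionRing R K]
    {g : Fin m → R[X]} (hg : ∀ i, (g i).Monic)
    (hgm : ∀ i, (g i).map (algebraMap R K) = fq 0 (b i) (c i) ω) {N : R} (hN : N ≠ 0) :
    ∃ Φ : ℂ → ℂ,
      (∀ s : ℂ, ((d + 1 : ℕ) : ℝ) + 1 < s.re → HasProd (fun y : {y : Pt R // N ∉ y.asIdeal} =>
        ZG (tau g) y.1 ((qy y.1 : ℂ) ^ (-s))) (Φ s)) ∧
      DifferentiableOn ℂ Φ {s : ℂ | ((d + 1 : ℕ) : ℝ) + 1 < s.re} ∧
      MeromorphicAt Φ (((d + 1 : ℕ) : ℂ) + 1) ∧ meromorphicOrderAt Φ (((d + 1 : ℕ) : ℂ) + 1) =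
        ((-(m + ∑ i, ∑ j, if i < j then
          ((nn2 x₀ (b i) (c i) (b j) (c j) : ℤ) - nn1 (b j) (c j)) else 0) : ℤ) : WithTop ℤ) := by
  classical
  have htr : Algebra.trdeg ℚ K = (d + 1 : ℕ) := trdeg_line hd hω htop
  have hgd : ∀ i, (g i).natDegree = (c i).natDegree := by
    intro i
    rw [← (hg i).natDegree_map (algebraMap R K), hgm,
      deg_fq (by rw [natDegree_zero]; exact (hodd i).pos) (hbc i)]
  obtain ⟨C3, hC3, g3⟩ := hom_le (R := R) (K := K) (IsFractionRing.injective R K) (e := d + 1)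
    (by rw [htr])
  refine euler_gen (τ := tau g) (c2_nonneg fun i => (c i).natDegree) ?_ hC3 (fun F _ _ => g3 F) ?_
  · intro F _ _ φ
    rw [tau_eq]
    exact w2_bound hodd F _ fun j => ⟨(hg j).map φ, by rw [(hg j).natDegree_map, hgd]⟩
  · have h1 := asy_w2 hM hd hω htop ht hL hb hodd hbc hsep hg hgm hN
    have h2 : (((m + ∑ i, ∑ j, if i < j then
        ((nn2 x₀ (b i) (c i) (b j) (c j) : ℤ) - nn1 (b j) (c j)) else 0 : ℤ)) : ℝ) =
        (m : ℝ) + ∑ i, ∑ j, if i < j then ((nn2 x₀ (b i) (c i) (b j) (c j) : ℝ) - nn1 (b j) (c j))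
          else 0 := by
      push_cast
      rfl
    rw [h2]
    refine h1.congr 1 one_ne_zero fun F _ _ _ => ?_
    unfold sT
    exact finsum_congr fun φ => tau_eq g F φ.1

end

end Pool.Agent.R410.NG
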