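import Pool.Agent.R410.EP.Mod
import Pool.Agent.R410.NG.Cg

/-!
# The products of the traces of two curves as a sum over a covering
-/

set_option autoImplicit false
set_option linter.all false
set_option maxHeartbeats 1000000

open Polynomial NumberField IsDedekindDomain Filter Topology

namespace Pool.Agent.R410.NG

open Pool.Agent.R410.LW (FG frac_of_closure)
open Pool.Agent.R410.BS (cF hom_le landau_all)

section
variable {J : Type} {R : Type} [CommRing R]

theorem sT_int' [Algebra.FiniteType ℤ R] (w : Wt J) (g : J → R[X]) (N : R) (F : Type)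
    [Field F] [Finite F] : sT w g N F = sR w (Int.castRingHom R) g N F (Int.castRingHom F) := by
  classical
  let _ : Fintype (ℤ →+* F) := Fintype.ofFinite _
  rw [sT_sum w (Int.castRingHom R), Finset.sum_eq_single (Int.castRingHom F)]
  · intro ψ _ h
    exact (h (Subsingleton.elim _ _)).elim
  · intro h
    exact (h (Finset.mem_univ _)).elim

variable {B K : Type} [IsDomain R] [CommRing B] [IsDomain B] [Field K]
  [CharZero K] [Algebra R K] [IsFractionRing R K] [Algebra B K] [IsFractionRing B K]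
  [Algebra.FiniteType ℤ R] [Algebra.FiniteType ℤ B]

/-- the asymptotic value does not depend on the model -/
theorem asy_any {w : Wt J} {n : J → ℕ} {c : ℝ} (hw : IsWt w n c) {e : ℕ}
    (he : Algebra.trdeg ℚ K ≤ e) {g : J → R[X]} {g' : J → B[X]}
    (hgg : ∀ j, (g j).map (algebraMap R K) = (g' j).map (algebraMap B K))
    (hg : ∀ j, (g j).Monic ∧ (g j).natDegree = n j) {N : R} (hN : N ≠ 0) {N' : B} (hN' : N' ≠ 0)
    {r : ℝ} (h : Asy (fun F _ _ => sT w g' N' F) e r) : Asy (fun F _ _ => sT w g N F) e r := by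
  obtain ⟨C1, N1, hC1, hN1, g1⟩ := transfer_sum hw he (Int.castRingHom R) (Int.castRingHom B)
    (Subsingleton.elim _ _) hgg hg hN hN'
  refine h.near ⟨C1, N1, hC1, hN1, fun F _ _ hF => ?_⟩
  have e1 := g1 F hF (Int.castRingHom F)
  rw [← sT_int', ← sT_int'] at e1
  exact e1

end

section
variable {R : Type} [CommRing R] {F : Type} [Field F]

/-- the map to the coordinate ring -/
noncomputable def io (G : R[X]) : R →+* AdjoinRoot (X ^ 2 - C G : R[X][X]) :=
  (AdjoinRoot.of (X ^ 2 - C G : R[X][X])).comp C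

/-- the point of the coordinate ring -/
noncomputable def ltP (G : R[X]) (φ : R →+* F) (P : {P : F × F // P.2 ^ 2 = (G.map φ).eval P.1}) :
    AdjoinRoot (X ^ 2 - C G : R[X][X]) →+* F :=
  AdjoinRoot.lift (eval₂RingHom φ P.1.1) P.1.2 (by
    rw [eval₂_sub, eval₂_pow, eval₂_X, eval₂_C, coe_eval₂RingHom, P.2, eval_map, sub_self])

theorem ltP_of (G : R[X]) (φ : R →+* F) (P : {P : F × F // P.2 ^ 2 = (G.map φ).eval P.1})
    (p : R[X]) : ltP G φ P (AdjoinRoot.of _ p) = eval₂ φ P.1.1 p := by
  unfold ltP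
  rw [AdjoinRoot.lift_of, coe_eval₂RingHom]

theorem ltP_root (G : R[X]) (φ : R →+* F) (P : {P : F × F // P.2 ^ 2 = (G.map φ).eval P.1}) :
    ltP G φ P (AdjoinRoot.root _) = P.1.2 := by
  unfold ltP
  exact AdjoinRoot.lift_root _

/-- the points of the coordinate ring above a point -/
noncomputable def fibE (G : R[X]) (φ : R →+* F) :
    {χ : AdjoinRoot (X ^ 2 - C G : R[X][X]) →+* F // χ.comp (io G) = φ} ≃
      {P : F × F // P.2 ^ 2 = (G.map φ).eval P.1} where
  toFun χ := ⟨(χ.1 (AdjoinRoot.of _ X), χ.1 (AdjoinRoot.root _)), by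
    have h1 : (AdjoinRoot.root (X ^ 2 - C G : R[X][X])) ^ 2 = AdjoinRoot.of _ G := by
      have h := AdjoinRoot.eval₂_root (X ^ 2 - C G : R[X][X])
      rw [eval₂_sub, eval₂_pow, eval₂_X, eval₂_C, sub_eq_zero] at h
      exact h
    have h2 : χ.1.comp (AdjoinRoot.of (X ^ 2 - C G : R[X][X])) =
        eval₂RingHom φ (χ.1 (AdjoinRoot.of _ X)) := by
      apply Polynomial.ringHom_ext
      · intro a
        rw [coe_eval₂RingHom, eval₂_C]
        exact congrArg (fun f : R →+* F => f a) χ.2
      · rw [coe_eval₂RingHom, eval₂_X]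
        rfl
    show χ.1 (AdjoinRoot.root _) ^ 2 = (G.map φ).eval (χ.1 (AdjoinRoot.of _ X))
    rw [← map_pow, h1, eval_map]
    exact congrArg (fun f : R[X] →+* F => f G) h2⟩
  invFun P := ⟨ltP G φ P, by
    refine RingHom.ext fun a => ?_
    refine (ltP_of G φ P (C a)).trans ?_
    rw [eval₂_C]⟩
  left_inv χ := by
    apply Subtype.ext
    apply AdjoinRoot.ringHom_ext
    · apply Polynomial.ringHom_ext
      · intro a
        refine (ltP_of G φ _ (C a)).trans ?_
        rw [eval₂_C]
        exact (congrArg (fun f : R →+* F => f a) χ.2).symm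
      · refine (ltP_of G φ _ X).trans ?_
        rw [eval₂_X]
        rfl
    · exact ltP_root G φ _
  right_inv P := by
    apply Subtype.ext
    apply Prod.ext
    · refine (ltP_of G φ P X).trans ?_
      rw [eval₂_X]
    · exact ltP_root G φ P

/-- the sum over the points of the coordinate ring -/
theorem sum_cov (G : R[X]) [Fintype F] [Fintype (R →+* F)]
    [Fintype (AdjoinRoot (X ^ 2 - C G : R[X][X]) →+* F)] (f : (R →+* F) → ℝ) :
    ∑ χ : AdjoinRoot (X ^ 2 - C G : R[X][X]) →+* F, f (χ.comp (io G)) =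
      ∑ φ : R →+* F, f φ * ((Nat.card F : ℝ) - trc F (G.map φ)) := by
  classical
  rw [← Finset.sum_fiberwise Finset.univ
    (fun χ : AdjoinRoot (X ^ 2 - C G : R[X][X]) →+* F => χ.comp (io G))]
  refine Finset.sum_congr rfl fun φ _ => ?_
  have h1 : ∑ χ ∈ Finset.univ.filter (fun χ : AdjoinRoot (X ^ 2 - C G : R[X][X]) →+* F =>
      χ.comp (io G) = φ), f (χ.comp (io G)) = ∑ χ ∈ Finset.univ.filter
      (fun χ : AdjoinRoot (X ^ 2 - C G : R[X][X]) →+* F => χ.comp (io G) = φ), f φ :=
    Finset.sum_congr rfl fun χ hχ => by rw [(Finset.mem_filter.1 hχ).2]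
  rw [h1, Finset.sum_const, nsmul_eq_mul, mul_comm]
  congr 1
  have h2 : (Finset.univ.filter (fun χ : AdjoinRoot (X ^ 2 - C G : R[X][X]) →+* F =>
      χ.comp (io G) = φ)).card = Nat.card {P : F × F // P.2 ^ 2 = (G.map φ).eval P.1} := by
    rw [← Nat.card_congr (fibE G φ), Nat.card_eq_fintype_card, Fintype.card_subtype]
  rw [h2]
  unfold trc
  ring

/-- the sum of the products of the traces -/
noncomputable def sP (G G' : R[X]) (N : R) : Ff := fun F _ _ =>
  ∑ᶠ φ : {φ : R →+* F // φ N ≠ 0}, trc F (G.map φ.1) * trc F (G'.map φ.1)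

open Classical in
theorem sP_eq (G G' : R[X]) (N : R) (F : Type) [Field F] [Finite F] [Fintype (R →+* F)] :
    sP G G' N F = ∑ φ : R →+* F, if φ N ≠ 0 then trc F (G.map φ) * trc F (G'.map φ) else 0 :=
  finsum_sub (fun φ : R →+* F => φ N ≠ 0) (fun φ => trc F (G.map φ) * trc F (G'.map φ))

theorem prod_cov [Algebra.FiniteType ℤ R] (G G' : R[X]) (N : R) (F : Type) [Field F] [Finite F] :
    sP G G' N F = sT wtc (fun _ : Unit => G'.map (io G)) (io G N) F -
      (Nat.card F : ℝ) * sT wtc (fun _ : Unit => G') N F := by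
  classical
  let _ : Fintype F := Fintype.ofFinite F
  let _ : Fintype (R →+* F) := Fintype.ofFinite _
  have hft : Algebra.FiniteType ℤ R[X] := inferInstance
  have hft1 : Algebra.FiniteType R[X] (AdjoinRoot (X ^ 2 - C G : R[X][X])) := inferInstance
  have hft2 := Pool.Agent.R410.LW.ft_int _ (Algebra.FiniteType.trans hft hft1)
  let _ : Fintype (AdjoinRoot (X ^ 2 - C G : R[X][X]) →+* F) := Fintype.ofFinite _
  rw [sP_eq, sT_eq, sT_eq]
  have h1 := sum_cov (F := F) G (fun φ => if φ N ≠ 0 then -trc F (G'.map φ) else 0)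
  have h2 : ∀ χ : AdjoinRoot (X ^ 2 - C G : R[X][X]) →+* F,
      (if χ (io G N) ≠ 0 then wtc F (fun j => ((fun _ : Unit => G'.map (io G)) j).map χ) else 0) =
      if (χ.comp (io G)) N ≠ 0 then -trc F (G'.map (χ.comp (io G))) else 0 := by
    intro χ
    show (if χ (io G N) ≠ 0 then -trc F ((G'.map (io G)).map χ) else 0) = _
    rw [Polynomial.map_map]
    rfl
  rw [Finset.sum_congr rfl fun χ _ => h2 χ, h1, Finset.mul_sum, ← Finset.sum_sub_distrib]
  refine Finset.sum_congr rfl fun φ _ => ?_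
  show _ = _ - (Nat.card F : ℝ) * (if φ N ≠ 0 then -trc F (G'.map φ) else 0)
  by_cases h : φ N ≠ 0
  · rw [if_pos h, if_pos h]
    ring
  · rw [if_neg h, if_neg h]
    ring

end

end Pool.Agent.R410.NG
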