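import Pool.Agent.Y707.DK.Tau
import Pool.Agent.R410.NG.Res

/-!
# Natural averages
-/

set_option autoImplicit false
set_option linter.all false
set_option maxHeartbeats 1000000

namespace Pool.Agent.R410.NG

open Polynomial NumberField IsDedekindDomain Filter Topology
open Pool.Agent.H921R2.TatePole (nm two_le_nm kerPrime)
open Pool.Agent.W353.FB (finite_below average average_eq)
open Pool.Agent.W385.TT (PA PA_low PA_hc PA_finite PA_sub PA_mul PA_sum PA_add pc pc_nonneg)
open Pool.Agent.H341R2 (low)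
open Pool.Agent.R410.BS (cF cF_le cB cB_nonneg cmb_eq)
open Pool.Agent.Y707.DK (PA_null)

section
variable {k : Type} [Field k] [NumberField k]

/-- **The natural average of a bounded function** with given sums over the primes of degree one. -/
theorem natural_fun {b : HeightOneSpectrum (𝓞 k) → ℝ} {B : ℝ} (hb : ∀ v, |b v| ≤ B)
    {κ : Type} [Fintype κ] (L : κ → Type) [∀ j, Field (L j)] [∀ j, NumberField (L j)] (a : κ → ℝ)
    {r : ℝ} (hr : ∑ j, a j = r) {D : ℝ}
    (h : ∀ᶠ p : Nat.Primes in cofinite, |∑ᶠ ψ : 𝓞 k →+* ZMod (p : ℕ), b (kerPrime p ψ).1.1 -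
      cF L a (ZMod (p : ℕ))| ≤ D * ((p : ℕ) : ℝ) ^ (-(1 / 2) : ℝ))
    (S : Finset (HeightOneSpectrum (𝓞 k))) : Tendsto (average S b) atTop (𝓝 r) := by
  classical
  have h1 := Pool.Agent.W353.SP.LA_EN S (φ := b) (ψ := b) ⟨B, hb⟩ fun _ _ => rfl
  have h2 := PA_low b hb
  have h3 : Tendsto (PA fun p => ∑ j, a j * (Pool.Agent.H921R2.TatePole.hc (𝓞 (L j)) (p : ℕ) : ℝ))
      atTop (𝓝 (∑ j : κ, a j * 1)) := by
    have h4 := tendsto_finset_sum (Finset.univ : Finset κ) fun j _ =>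
      (PA_hc (K := L j)).const_mul (a j)
    refine h4.congr fun X => ?_
    rw [PA_sum]
    exact Finset.sum_congr rfl fun j _ => (PA_mul _ _ _).symm
  have h5 : Tendsto (PA fun p => low b p -
      ∑ j, a j * (Pool.Agent.H921R2.TatePole.hc (𝓞 (L j)) (p : ℕ) : ℝ)) atTop (𝓝 0) := by
    refine PA_null fun ε hε => ?_
    have hsmall : ∀ᶠ p : Nat.Primes in cofinite, |D| < ε * Real.sqrt (p : ℕ) := by
      have h6 : Tendsto (fun p : Nat.Primes => ε * Real.sqrt (p : ℕ)) cofinite atTop := by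
        refine Tendsto.const_mul_atTop hε (Real.tendsto_sqrt_atTop.comp
          (tendsto_natCast_atTop_atTop.comp ?_))
        rw [← Nat.cofinite_eq_atTop]
        exact Subtype.val_injective.tendsto_cofinite
      exact h6.eventually_gt_atTop _
    filter_upwards [h, hsmall] with p h7 h9
    have : Fact (p : ℕ).Prime := ⟨p.2⟩
    have hfin := Pool.Agent.H921R2.TatePole.hom_finite (K := k) p
    let _ := Fintype.ofFinite (𝓞 k →+* ZMod (p : ℕ))
    have hp0 : (0 : ℝ) < ((p : ℕ) : ℝ) := by exact_mod_cast p.2.pos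
    have hsq : 0 < Real.sqrt (p : ℕ) := Real.sqrt_pos.2 hp0
    have e1 : low b p = ∑ᶠ ψ : 𝓞 k →+* ZMod (p : ℕ), b (kerPrime p ψ).1.1 := by
      rw [Pool.Agent.W353.TP.low_kerPrime, finsum_eq_sum_of_fintype]
    have e2 : ∑ j, a j * (Pool.Agent.H921R2.TatePole.hc (𝓞 (L j)) (p : ℕ) : ℝ) =
        cF L a (ZMod (p : ℕ)) := rfl
    rw [e1, e2]
    refine h7.trans ?_
    rw [Real.rpow_neg hp0.le, ← Real.sqrt_eq_rpow, ← div_eq_mul_inv, div_le_iff₀ hsq]
    exact (le_abs_self D).trans h9.le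
  have h6 := ((h1.add h2).add h5).add h3
  have e : (0 : ℝ) + 0 + 0 + (∑ j : κ, a j * 1) = r := by
    simp only [mul_one]
    rw [hr]
    ring
  rw [e] at h6
  refine h6.congr fun X => ?_
  rw [average_eq, PA_sub, Pool.Agent.W353.SP.EN_eq]
  ring

end

end Pool.Agent.R410.NG
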