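import Pool.Agent.W353.FB.Final

/-!
# Averages over the primes of norm at most `T`, for real `T`
-/

set_option autoImplicit false
set_option linter.all false

namespace Pool.Agent.R410.NG

open NumberField IsDedekindDomain Filter Topology
open Pool.Agent.W353.FB (average)

variable {k : Type} [Field k] [NumberField k]

/-- `Σ_T(b) = ∑_{v ∉ S, q_v ≤ T} b(v) log q_v` -/
noncomputable def sumT (S : Finset (HeightOneSpectrum (𝓞 k))) (b : HeightOneSpectrum (𝓞 k) → ℝ)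
    (T : ℝ) : ℝ :=
  ∑ᶠ v ∈ {v : HeightOneSpectrum (𝓞 k) | v ∉ S ∧ (Ideal.absNorm v.asIdeal : ℝ) ≤ T},
    b v * Real.log (Ideal.absNorm v.asIdeal : ℝ)

theorem sumT_lim {S : Finset (HeightOneSpectrum (𝓞 k))} {b : HeightOneSpectrum (𝓞 k) → ℝ} {r : ℝ}
    (h : Tendsto (average S b) atTop (𝓝 r)) : Tendsto (fun T : ℝ => sumT S b T / T) atTop (𝓝 r) := by
  have h1 : Tendsto (fun T : ℝ => average S b ⌊T⌋₊) atTop (𝓝 r) := h.comp tendsto_nat_floor_atTop
  have h2 : Tendsto (fun T : ℝ => (⌊T⌋₊ : ℝ) / T) atTop (𝓝 1) := tendsto_nat_floor_div_atTop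
  have h3 := h1.mul h2
  rw [mul_one] at h3
  refine h3.congr' ?_
  filter_upwards [eventually_ge_atTop (1 : ℝ)] with T hT
  have hT0 : 0 ≤ T := by linarith
  have hf : (⌊T⌋₊ : ℝ) ≠ 0 := by
    have : 1 ≤ ⌊T⌋₊ := Nat.le_floor (by exact_mod_cast hT)
    exact_mod_cast (by omega : ⌊T⌋₊ ≠ 0)
  have hs : {v : HeightOneSpectrum (𝓞 k) | v ∉ S ∧ (Ideal.absNorm v.asIdeal : ℝ) ≤ T} =
      {v : HeightOneSpectrum (𝓞 k) | v ∉ S ∧ Ideal.absNorm v.asIdeal ≤ ⌊T⌋₊} := by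
    ext v
    simp only [Set.mem_setOf_eq]
    rw [Nat.le_floor_iff hT0]
  unfold average sumT
  rw [hs]
  field_simp

theorem sumT_neg (S : Finset (HeightOneSpectrum (𝓞 k))) (b : HeightOneSpectrum (𝓞 k) → ℝ) (T : ℝ) :
    sumT S (fun v => -b v) T = -sumT S b T := by
  unfold sumT
  rw [← finsum_neg_distrib]
  refine finsum_congr fun v => ?_
  rw [← finsum_neg_distrib]
  exact finsum_congr fun _ => by ring

end Pool.Agent.R410.NG
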