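import Pool.Agent.R410.NG.Trc
import Pool.Agent.R410.BA.Fin

/-!
# The sums of the traces over the points of the product of pencils
-/

set_option autoImplicit false
set_option linter.all false
set_option maxHeartbeats 1000000

namespace Pool.Agent.R410.NG

open Polynomial Finset NumberField
open Pool.Agent.R410.BS
open Pool.Agent.R410.LW (FG)
open Pool.Agent.TH958.An (trE tF)

/-- the sum over one fibre -/
theorem fib_bound (r : ℕ) (B : ℝ) (hB : 0 ≤ B) (b : ℕ) : ∃ C : ℝ, 0 ≤ C ∧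
    ∀ (F : Type) [Field F] [Fintype F] [DecidableEq F], ringChar F ≠ 2 → ∀ (c₀ : Polynomial F)
      (c : Fin r → Polynomial F), c₀.Monic → Odd c₀.natDegree → (c₀.natDegree : ℝ) ≤ B →
      (∀ i, (c i).Monic ∧ Odd (c i).natDegree ∧ ((c i).natDegree : ℝ) ≤ B) →
      ∀ bad : Finset F, bad.card ≤ b →
      |∑ w ∈ univ.filter (fun w => w ∉ bad), (-(Sw c₀ w : ℝ)) *
        ∏ i, ((Fintype.card F : ℝ) + Sw (c i) w)| ≤ C * (Fintype.card F : ℝ) ^ (r + 1) := by
  obtain ⟨C, hC, h⟩ := fib_sum r B hB b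
  refine ⟨C + r * (B * B), by positivity, ?_⟩
  intro F _ _ _ hF c₀ c hc₀ hodd₀ hd₀ hc bad hbad
  have h1 := h F hF c₀ c hc₀ hodd₀ hd₀ hc bad hbad
  set q : ℝ := (Fintype.card F : ℝ) with hq
  have hq1 : 1 ≤ q := by rw [hq]; exact_mod_cast Fintype.card_pos
  have hq0 : 0 < q := by linarith
  have hs0 : 0 ≤ √q := Real.sqrt_nonneg _
  have hss : √q * √q = q := Real.mul_self_sqrt hq0.le
  have hsq : √q ≤ q := by
    have h5 : 1 ≤ √q := Real.one_le_sqrt.2 hq1
    nlinarith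
  have hNN : ∀ i, |(NN c₀ (c i) : ℝ) - q| ≤ B * B * q := by
    intro i
    have h2 : (∑ w : F, (Sw c₀ w : ℝ) * Sw (c i) w) = q * (NN c₀ (c i) - q) := by
      have h3 := sum_SwSw hF c₀ (c i)
      have h4 : ((∑ w : F, Sw c₀ w * Sw (c i) w : ℤ) : ℝ) =
          (((Fintype.card F : ℤ) * NN c₀ (c i) - (Fintype.card F : ℤ) ^ 2 : ℤ) : ℝ) := by rw [h3]
      push_cast at h4
      rw [h4, hq]
      ring
    have h3 : |∑ w : F, (Sw c₀ w : ℝ) * Sw (c i) w| ≤ q * (B * B * q) := by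
      refine (Finset.abs_sum_le_sum_abs _ _).trans ((Finset.sum_le_card_nsmul _ _ (B * B * q)
        fun w _ => ?_).trans (le_of_eq ?_))
      · rw [abs_mul]
        have e1 : |(Sw c₀ w : ℝ)| ≤ B * √q :=
          (Sw_bound hF hc₀ hodd₀ w).trans (mul_le_mul_of_nonneg_right hd₀ hs0)
        have e2 : |(Sw (c i) w : ℝ)| ≤ B * √q :=
          (Sw_bound hF (hc i).1 (hc i).2.1 w).trans (mul_le_mul_of_nonneg_right (hc i).2.2 hs0)
        calc |(Sw c₀ w : ℝ)| * |(Sw (c i) w : ℝ)| ≤ (B * √q) * (B * √q) :=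
              mul_le_mul e1 e2 (abs_nonneg _) (by positivity)
          _ = B * B * (√q * √q) := by ring
          _ = B * B * q := by rw [hss]
      · rw [nsmul_eq_mul, Finset.card_univ]
    rw [h2, abs_mul, abs_of_pos hq0] at h3
    exact le_of_mul_le_mul_left h3 hq0
  have h6 : |q ^ r * ∑ i, ((NN c₀ (c i) : ℝ) - q)| ≤ r * (B * B) * q ^ (r + 1) := by
    rw [abs_mul, abs_of_nonneg (by positivity)]
    calc q ^ r * |∑ i, ((NN c₀ (c i) : ℝ) - q)| ≤ q ^ r * ∑ i : Fin r, |(NN c₀ (c i) : ℝ) - q| :=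
          mul_le_mul_of_nonneg_left (Finset.abs_sum_le_sum_abs _ _) (by positivity)
      _ ≤ q ^ r * ∑ i : Fin r, B * B * q :=
          mul_le_mul_of_nonneg_left (Finset.sum_le_sum fun i _ => hNN i) (by positivity)
      _ = r * (B * B) * q ^ (r + 1) := by
          rw [Finset.sum_const, Finset.card_univ, Fintype.card_fin, nsmul_eq_mul]
          ring
  set T := ∑ w ∈ univ.filter (fun w => w ∉ bad), (-(Sw c₀ w : ℝ)) * ∏ i, (q + Sw (c i) w)
  have h7 : |T| ≤ |T + q ^ r * ∑ i, ((NN c₀ (c i) : ℝ) - q)| +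
      |q ^ r * ∑ i, ((NN c₀ (c i) : ℝ) - q)| := by
    have := abs_sub (T + q ^ r * ∑ i, ((NN c₀ (c i) : ℝ) - q)) (q ^ r * ∑ i, ((NN c₀ (c i) : ℝ) - q))
    rwa [add_sub_cancel_right] at this
  refine h7.trans ((add_le_add h1 h6).trans ?_)
  rw [add_mul]
  refine add_le_add (mul_le_mul_of_nonneg_left ?_ hC) le_rfl
  rw [pow_succ]
  exact mul_le_mul_of_nonneg_left hsq (by positivity)

section
variable {A : Type} [CommRing A] {r : ℕ} (f : Fin r → A[X]) (f₀ : A[X])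

/-- the polynomial of the curve over the ring of the product of the pencils -/
noncomputable def gB : Unit → (BB f)[X] := fun _ => f₀.map (cst f) + C (wB f)

theorem wtc_gB {F : Type} [Field F] [Fintype F] [DecidableEq F] (hF : ringChar F ≠ 2)
    (φ : BB f →+* F) : wtc F (fun j => (gB f f₀ j).map φ) =
      (Sw (f₀.map (φ.comp (cst f))) (φ (wB f)) : ℝ) := by
  show -trc F ((f₀.map (cst f) + C (wB f)).map φ) = _
  rw [trc_char hF, neg_neg, Sw, Polynomial.map_add, Polynomial.map_map, Polynomial.map_C]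
  congr 1
  refine Finset.sum_congr rfl fun x _ => ?_
  rw [eval_add, eval_C]

theorem two_of_delta {F : Type} [Field F] (φ : BB f →+* F) (h : φ (EB f f₀).Δ ≠ 0) :
    ringChar F ≠ 2 := by
  intro h2
  apply h
  have h3 : (2 : F) = 0 := by
    have := ringChar.Nat.cast_ringChar (R := F)
    rw [h2] at this
    exact_mod_cast this
  obtain ⟨t, ht⟩ := two_dvd (EB f f₀) rfl rfl
  rw [ht, map_mul, map_ofNat, h3, zero_mul]

open Classical in
/-- the term of the sum -/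
theorem term_eq {F : Type} [Field F] [Fintype F] (hF : ringChar F ≠ 2) (φ : BB f →+* F) :
    (if φ (EB f f₀).Δ ≠ 0 then wtc F (fun j => (gB f f₀ j).map φ) else 0) =
      if (cub (f₀.map (φ.comp (cst f))) (φ (wB f))).Δ = 0 then 0 else
        (Sw (f₀.map (φ.comp (cst f))) (φ (wB f)) : ℝ) := by
  have h1 : φ (EB f f₀).Δ = (cub (f₀.map (φ.comp (cst f))) (φ (wB f))).Δ := by
    rw [← EB_map, WeierstrassCurve.map_Δ]
  rw [h1]
  by_cases h : (cub (f₀.map (φ.comp (cst f))) (φ (wB f))).Δ = 0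
  · rw [if_neg (not_not.2 h), if_pos h]
  · rw [if_pos h, if_neg h, wtc_gB f f₀ hF]

variable {k : Type} [CommRing k]

open Classical in
/-- The sum over the points above a point of the base. -/
theorem sR_gB {F : Type} [Field F] [Fintype F] [Fintype (BB f →+* F)] [Fintype (A →+* F)]
    (hF : ringChar F ≠ 2) (ρ₀ : k →+* A) (ψ₀ : k →+* F) :
    sR wtc ((cst f).comp ρ₀) (gB f f₀) (EB f f₀).Δ F ψ₀ =
      -∑ ψ ∈ univ.filter (fun ψ : A →+* F => ψ.comp ρ₀ = ψ₀),
        ∑ w ∈ univ.filter (fun w => w ∉ univ.filter fun w => (cub (f₀.map ψ) w).Δ = 0),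
          (-(Sw (f₀.map ψ) w : ℝ)) * ∏ i, ((Fintype.card F : ℝ) + Sw ((f i).map ψ) w) := by
  have h1 := sum_bb_general f hF (fun ψ w => if ψ.comp ρ₀ = ψ₀ then
    (if (cub (f₀.map ψ) w).Δ = 0 then 0 else (Sw (f₀.map ψ) w : ℝ)) else 0)
  have h2 : sR wtc ((cst f).comp ρ₀) (gB f f₀) (EB f f₀).Δ F ψ₀ =
      ∑ φ : BB f →+* F, (fun (ψ : A →+* F) (w : F) => if ψ.comp ρ₀ = ψ₀ then
        (if (cub (f₀.map ψ) w).Δ = 0 then 0 else (Sw (f₀.map ψ) w : ℝ)) else 0)
          (φ.comp (cst f)) (φ (wB f)) := by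
    rw [sR_eq]
    refine Finset.sum_congr rfl fun φ _ => ?_
    have h3 := term_eq f f₀ hF φ
    show _ = if (φ.comp (cst f)).comp ρ₀ = ψ₀ then _ else _
    rw [RingHom.comp_assoc, ← h3]
    by_cases h4 : φ.comp ((cst f).comp ρ₀) = ψ₀
    · rw [if_pos h4]
      by_cases h5 : φ (EB f f₀).Δ ≠ 0
      · rw [if_pos ⟨h4, h5⟩, if_pos h5]
      · rw [if_neg h5, if_neg fun h => h5 h.2]
    · rw [if_neg h4, if_neg fun h => h4 h.1]
  rw [h2, h1, ← Finset.sum_neg_distrib, Finset.sum_filter]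
  refine Finset.sum_congr rfl fun ψ _ => ?_
  by_cases h4 : ψ.comp ρ₀ = ψ₀
  · simp only [if_pos h4]
    rw [← Finset.sum_neg_distrib, Finset.sum_filter]
    refine Finset.sum_congr rfl fun w _ => ?_
    by_cases h5 : (cub (f₀.map ψ) w).Δ = 0
    · rw [if_pos h5, if_neg, zero_mul]
      rw [not_not, Finset.mem_filter]
      exact ⟨Finset.mem_univ _, h5⟩
    · rw [if_neg h5, if_pos]
      · ring
      · rw [Finset.mem_filter]
        exact fun h => h5 h.2
  · simp only [if_neg h4, zero_mul, Finset.sum_const_zero]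

open Classical in
/-- The whole sum. -/
theorem sT_gB {F : Type} [Field F] [Fintype F] [Fintype (BB f →+* F)] (hF : ringChar F ≠ 2)
    (hm : f₀.Monic) (hd : f₀.natDegree = 3) :
    sT wtc (gB f f₀) (EB f f₀).Δ F = -∑ φ : BB f →+* F, tF (EB f f₀) (EB f f₀).Δ φ := by
  rw [sT_eq, ← Finset.sum_neg_distrib]
  refine Finset.sum_congr rfl fun φ _ => ?_
  rw [term_eq f f₀ hF φ, tF_EB f f₀ hF hm hd φ]
  by_cases h : (cub (f₀.map (φ.comp (cst f))) (φ (wB f))).Δ = 0
  · rw [if_pos h, if_pos h, neg_zero]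
  · rw [if_neg h, if_neg h, neg_neg]

end

end Pool.Agent.R410.NG
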