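import Pool.Agent.R410.NG.PPR
import Pool.Agent.R410.NG.Nat2

/-!
# The natural averages for the curves over function fields of products of pencils
-/

set_option autoImplicit false
set_option linter.all false
set_option maxHeartbeats 1000000

namespace Pool.Agent.R410.NG

open Polynomial Finset NumberField IsDedekindDomain
open Pool.Agent.R410.BS
open Pool.Agent.R410.BA
open Pool.Agent.R410.LW (FG)
open Pool.Agent.TH958.An (trE tF)
open Filter (Tendsto)
open Topology

section
variable {M K : Type} [Field M] [CharZero M] [Field K] [CharZero K] [Algebra M K] {r : ℕ}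
  {x y : Fin r → K} {w : K} {k : Type} [Field k] [NumberField k] [Algebra k M]

/-- **The natural average.** -/
theorem natural_any (hM : FG M) {d : ℕ} (hd : Algebra.trdeg ℚ M = d)
    (hind : AlgebraicIndependent M (fun o : Option (Fin r) => o.elim w x))
    {f₀ : M[X]} (hf₀ : f₀.Monic) (h3 : f₀.natDegree = 3) {f : Fin r → M[X]} (hf : ∀ i, (f i).Monic)
    (hodd : ∀ i, Odd (f i).natDegree) (hy : ∀ i, y i ^ 2 = aeval (x i) (f i) + w)
    (htop : IntermediateField.adjoin M (insert w (Set.range x ∪ Set.range y)) = ⊤)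
    (R : Type) [CommRing R] [IsDomain R] [Algebra.FiniteType ℤ R] [Algebra R K] [IsFractionRing R K]
    [Algebra (𝓞 k) R] (hk : ∀ z : 𝓞 k, algebraMap R K (algebraMap (𝓞 k) R z) =
      algebraMap M K (algebraMap k M z)) (g : Unit → R[X]) (hg : (g ()).Monic ∧ (g ()).natDegree = 3)
    (hgK : (g ()).map (algebraMap R K) = f₀.map (algebraMap M K) + C w) {N : R} (hN : N ≠ 0)
    (S : Finset (HeightOneSpectrum (𝓞 k))) :
    Tendsto (Pool.Agent.W353.FB.average S fun v => avg wtc g N (d + 1 + r) v) Filter.atTop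
      (𝓝 ((∑ i, (Nat.card (MF (PP f₀ (f i))) : ℤ) - r : ℤ) : ℝ)) := by
  classical
  have hdeg : ∀ i, 0 < (f i).natDegree := fun i => (hodd i).pos
  have h03 : 0 < f₀.natDegree := by rw [h3]; norm_num
  choose iF hF using fun i => mf_spec (PP_monic (f i) hf₀ h03) (PP_sqf hf₀ h03 (hdeg i))
  -- the factors
  let J : Fin r → Type := fun i => MF (PP f₀ (f i))
  let h : ∀ i, J i → M[X][X] := fun i Q => Q.1
  have hm : ∀ i j, (h i j).Monic := fun i j => j.2.1
  have hirr : ∀ i j, Irreducible (h i j) := fun i j => j.2.2.1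
  have hinj : ∀ i, Function.Injective (h i) := fun i => Subtype.val_injective
  obtain ⟨L, iL, nL, LL, iLL, nLL, hmain⟩ := main_sum hM hd h hm hirr hinj
  -- the ring of coefficients
  obtain ⟨A, hA, hft, hfr, hAk⟩ := exists_ringk (k := k) hM (f₀.coeffs ∪
    univ.biUnion (fun i => (f i).coeffs) ∪
    univ.biUnion (fun i => univ.biUnion fun j => (h i j).coeffs.biUnion Polynomial.coeffs))
  obtain ⟨g₀, hg₀, hg₀m, hg₀d⟩ := lift1 (A := A) (p := f₀) (fun t ht => hA t (by
    rw [Finset.mem_union, Finset.mem_union]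
    exact Or.inl (Or.inl ht))) hf₀
  choose gg hgg hgm hgd using fun i => lift1 (A := A) (p := f i) (fun t ht => hA t (by
    rw [Finset.mem_union, Finset.mem_union]
    exact Or.inl (Or.inr (Finset.mem_biUnion.2 ⟨i, Finset.mem_univ i, ht⟩)))) (hf i)
  choose hh hhh hhm using fun i j => lift2 (A := A) (p := h i j) (fun P hP t ht => hA t (by
    rw [Finset.mem_union]
    exact Or.inr (Finset.mem_biUnion.2 ⟨i, Finset.mem_univ i, Finset.mem_biUnion.2
      ⟨j, Finset.mem_univ j, Finset.mem_biUnion.2 ⟨P, hP, ht⟩⟩⟩))) (hm i j)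
  have hAinj : Function.Injective (algebraMap A M) := IsFractionRing.injective A M
  have hprodA : ∀ i, ∏ j, hh i j = PP g₀ (gg i) := by
    intro i
    apply Polynomial.map_injective (mapRingHom (algebraMap A M)) (Polynomial.map_injective _ hAinj)
    rw [Polynomial.map_prod, Finset.prod_congr rfl fun j _ => hhh i j]
    have h1 : ∏ j, h i j = PP f₀ (f i) := hF i
    rw [h1]
    unfold PP
    rw [Polynomial.map_sub, Polynomial.map_C, Polynomial.map_map, coe_mapRingHom, hgg, ← hg₀,
      Polynomial.map_map]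
    congr 2
    ext a
    simp
  obtain ⟨C0, N0, hC0, hN0, hsum⟩ := hmain A hh g₀ gg hg₀m (by rw [hg₀d, h3])
    (fun i => ⟨hgm i, by rw [hgd]; exact hodd i⟩) hhm hhh hprodA 1 one_ne_zero
  -- the ring of the product of the pencils
  obtain ⟨φ, hφc, hφw, hφi, hφf⟩ := frac_bb hind hdeg hy htop (A := A) gg hgg
  let _ : Algebra (BB gg) K := φ.toAlgebra
  have _ : IsFractionRing (BB gg) K := hφf
  have hdom : IsDomain (BB gg) := hφi.isDomain φ
  have htr := trdeg_K hd hind hy htop
  let ρ : 𝓞 k →+* BB gg := (cst gg).comp (rho hAk)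
  let _ : Algebra (𝓞 k) (BB gg) := ρ.toAlgebra
  -- the combination of the number fields
  let κ : Type := (Σ i, J i) ⊕ Fin r
  let Ls : κ → Type := Sum.elim (fun z => LL z.1 z.2) (fun _ => L)
  let iLs : ∀ k, Field (Ls k) := fun k => match k with
    | Sum.inl z => iLL z.1 z.2
    | Sum.inr _ => iL
  have nLs : ∀ k, NumberField (Ls k) := fun k => match k with
    | Sum.inl z => nLL z.1 z.2
    | Sum.inr _ => nL
  let a : κ → ℝ := Sum.elim (fun _ => 1) (fun _ => -1)
  have hcard : ∀ i, Nat.card (MF (PP f₀ (f i))) = Fintype.card (J i) := fun i => Nat.card_eq_fintype_card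
  have hsa : ∑ k, a k = ((∑ i, (Nat.card (MF (PP f₀ (f i))) : ℤ) - r : ℤ) : ℝ) := by
    rw [Fintype.sum_sum_type, Fintype.sum_sigma]
    simp only [a, Sum.elim_inl, Sum.elim_inr, Finset.sum_const, Finset.card_univ, nsmul_eq_mul, mul_one,
      Fintype.card_fin]
    push_cast
    rw [Finset.sum_congr rfl fun i _ => by rw [← hcard i]]
    ring
  have hcF : ∀ (F : Type) [Field F], cF Ls a F =
      ∑ i, ∑ j, (Nat.card (𝓞 (LL i j) →+* F) : ℝ) - r * (Nat.card (𝓞 L →+* F) : ℝ) := by
    intro F _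
    unfold cF
    rw [Fintype.sum_sum_type, Fintype.sum_sigma]
    simp only [a, Sum.elim_inl, Sum.elim_inr, one_mul]
    have h2 : ∑ x : Fin r, -1 * (Nat.card (𝓞 (Ls (Sum.inr x)) →+* F) : ℝ) =
        -(r * (Nat.card (𝓞 L →+* F) : ℝ)) := by
      show ∑ x : Fin r, -1 * (Nat.card (𝓞 L →+* F) : ℝ) = _
      rw [Finset.sum_const, Finset.card_univ, Fintype.card_fin, nsmul_eq_mul]
      ring
    rw [h2, sub_eq_add_neg]
    rfl
  have hw3 : IsWt wtc (fun _ : Unit => 3) ((3 : ℕ) : ℝ) := isWt_trc (n := 3) (by decide)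
  -- the curve over the ring
  have hEK : (EB gg g₀).map φ = cub (f₀.map (algebraMap M K)) w := by
    unfold EB
    rw [cub_map, Polynomial.map_map, hφc, hφw, ← hg₀, Polynomial.map_map]
  have hΔ : (EB gg g₀).Δ ≠ 0 := by
    intro h0
    have h4 : (cub (f₀.map (algebraMap M K)) w).Δ ≠ 0 := by
      refine cub_ne f₀ ?_
      exact hind.transcendental none
    apply h4
    rw [← hEK, WeierstrassCurve.map_Δ, h0, map_zero]
  have hgB : ∀ j : Unit, (g j).map (algebraMap R K) = (gB gg g₀ j).map (algebraMap (BB gg) K) := by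
    rintro ⟨⟩
    rw [hgK]
    show _ = (g₀.map (cst gg) + C (wB gg)).map φ
    rw [Polynomial.map_add, Polynomial.map_map, hφc, Polynomial.map_C, hφw, ← hg₀, Polynomial.map_map]
  have hrho : (algebraMap R K).comp (algebraMap (𝓞 k) R) =
      (algebraMap (BB gg) K).comp (algebraMap (𝓞 k) (BB gg)) := by
    refine RingHom.ext fun z => ?_
    show algebraMap R K (algebraMap (𝓞 k) R z) = φ (cst gg (rho hAk z))
    rw [hk]
    have h5 := congrArg (fun θ : A →+* K => θ (rho hAk z)) hφc
    exact h5.symm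
  refine natural_models hw3 (e := d + 1 + r) htr.le hrho (g' := gB gg g₀) hgB (fun _ => hg) hN hΔ Ls a hsa
    ?_ ?_ S
  · -- the bound
    obtain ⟨C3, hC3, g3⟩ := hom_le (R := A) (K := M) (IsFractionRing.injective A M) hd.le
    set B : ℝ := 3 + ∑ i, ((gg i).natDegree : ℝ) with hB
    have hB0 : 0 ≤ B := by positivity
    obtain ⟨C4, hC4, g4⟩ := fib_bound r B hB0 2
    refine ⟨C3 * C4, 6, by positivity, by norm_num, ?_⟩
    intro F _ _ h6 ψ₀
    let _ : Fintype F := Fintype.ofFinite F
    have h6' : (6 : F) ≠ 0 := by exact_mod_cast h6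
    have h2 : (2 : F) ≠ 0 := fun h => h6' (by
      have : (6 : F) = 2 * 3 := by norm_num
      rw [this, h, zero_mul])
    have hFc : ringChar F ≠ 2 := by
      intro h
      have := ringChar.Nat.cast_ringChar (R := F)
      rw [h] at this
      exact h2 (by exact_mod_cast this)
    have hfin1 : Finite (BB gg →+* F) := by
      have : Algebra.FiniteType ℤ (BB gg) := inferInstance
      infer_instance
    let _ : Fintype (BB gg →+* F) := Fintype.ofFinite _
    let _ : Fintype (A →+* F) := Fintype.ofFinite _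
    have e1 := sR_gB gg g₀ hFc (rho hAk) ψ₀
    show |sR wtc ((cst gg).comp (rho hAk)) (gB gg g₀) (EB gg g₀).Δ F ψ₀| ≤ _
    rw [e1, abs_neg, Nat.card_eq_fintype_card]
    set q : ℝ := (Fintype.card F : ℝ) with hq
    have hq1 : 1 ≤ q := by rw [hq]; exact_mod_cast Fintype.card_pos
    have t1 : ∀ ψ ∈ univ.filter (fun ψ : A →+* F => ψ.comp (rho hAk) = ψ₀),
        |∑ w ∈ univ.filter (fun w => w ∉ univ.filter fun w => (cub (g₀.map ψ) w).Δ = 0),
          (-(Sw (g₀.map ψ) w : ℝ)) * ∏ i, (q + Sw ((gg i).map ψ) w)| ≤ C4 * q ^ (r + 1) := by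
      intro ψ _
      refine g4 F hFc (g₀.map ψ) (fun i => (gg i).map ψ) (hg₀m.map _) ?_ ?_
        (fun i => ⟨(hgm i).map _, ?_, ?_⟩) _ (bad_card h6' _)
      · rw [hg₀m.natDegree_map, hg₀d, h3]
        decide
      · rw [hg₀m.natDegree_map, hg₀d, h3, hB]
        have : 0 ≤ ∑ i, ((gg i).natDegree : ℝ) := Finset.sum_nonneg fun i _ => Nat.cast_nonneg _
        push_cast
        linarith
      · rw [(hgm i).natDegree_map, hgd]
        exact hodd i
      · rw [(hgm i).natDegree_map, hB]
        have := Finset.single_le_sum (f := fun i => ((gg i).natDegree : ℝ))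
          (fun i _ => Nat.cast_nonneg _) (Finset.mem_univ i)
        linarith
    refine (Finset.abs_sum_le_sum_abs _ _).trans ((Finset.sum_le_card_nsmul _ _ _ t1).trans ?_)
    rw [nsmul_eq_mul]
    have t2 : ((univ.filter (fun ψ : A →+* F => ψ.comp (rho hAk) = ψ₀)).card : ℝ) ≤ C3 * q ^ d := by
      have h1 := g3 F
      rw [Nat.card_eq_fintype_card, Nat.card_eq_fintype_card] at h1
      refine le_trans ?_ h1
      exact_mod_cast Finset.card_le_univ _
    calc _ ≤ C3 * q ^ d * (C4 * q ^ (r + 1)) :=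
          mul_le_mul_of_nonneg_right t2 (by positivity)
      _ = C3 * C4 * q ^ (d + 1 + r) := by ring
  · -- the asymptotic value
    refine ⟨C0, 6 * N0, hC0, mul_ne_zero (by norm_num) hN0, ?_⟩
    intro F _ _ hNF
    let _ : Fintype F := Fintype.ofFinite F
    rw [Nat.cast_mul] at hNF
    have h6' : (6 : F) ≠ 0 := by
      have := left_ne_zero_of_mul hNF
      exact_mod_cast this
    have h2 : (2 : F) ≠ 0 := fun h => h6' (by
      have : (6 : F) = 2 * 3 := by norm_num
      rw [this, h, zero_mul])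
    have hFc : ringChar F ≠ 2 := by
      intro h
      have := ringChar.Nat.cast_ringChar (R := F)
      rw [h] at this
      exact h2 (by exact_mod_cast this)
    let _ : Fintype (BB gg →+* F) := Fintype.ofFinite _
    have h1 := hsum F (right_ne_zero_of_mul hNF)
    have hinjF : ∀ φ : BB gg →+* F, φ (cst gg 1) ≠ 0 := fun φ => by
      rw [map_one, map_one]
      exact one_ne_zero
    have e1 : (∑ φ : BB gg →+* F, (open Classical in if φ (cst gg 1) ≠ 0 then
        tF (EB gg g₀) (EB gg g₀).Δ φ else 0)) = ∑ φ : BB gg →+* F, tF (EB gg g₀) (EB gg g₀).Δ φ :=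
      Finset.sum_congr rfl fun φ _ => if_pos (hinjF φ)
    rw [e1] at h1
    rw [sT_gB gg g₀ hFc hg₀m (by rw [hg₀d, h3]), hcF]
    rw [← abs_neg]
    refine le_trans (le_of_eq ?_) h1
    congr 2
    ring

end

end Pool.Agent.R410.NG
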