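import Pool.Agent.R410.NG.Ck
import Pool.Agent.R410.NG.CBr

/-!
# Surfaces fibred over the line
-/

set_option autoImplicit false
set_option linter.all false
set_option maxHeartbeats 1000000

open Polynomial NumberField IsDedekindDomain Filter Topology

namespace Pool.Agent.R410.NG

open Pool.Agent.R410.LW (FG frac_of_closure)
open Pool.Agent.R410.BS (cF hom_le landau_all)
open Pool.Agent.R410.CB (Spl fq fq_eq deg_fq)
open Pool.Agent.Y707.PC (up up_def)
open Pool.Agent.Y707.PR (HasResidue series)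
open Pool.Agent.TH943.HJ (CR)

section
variable {k : Type} [Field k] [NumberField k]

/-- the sum of two series -/
theorem residue_add {S : Finset (HeightOneSpectrum (𝓞 k))} {b b' : HeightOneSpectrum (𝓞 k) → ℝ}
    {s₀ r r' : ℝ} (h : HasResidue S b s₀ r) (h' : HasResidue S b' s₀ r') :
    HasResidue S (fun v => b v + b' v) s₀ (r + r') := by
  obtain ⟨h1, G, hG, h2⟩ := h
  obtain ⟨h1', G', hG', h2'⟩ := h'
  have key : ∀ (v : HeightOneSpectrum (𝓞 k)) (s : ℂ), (((b v + b' v : ℝ) : ℂ)) *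
      (Real.log (Ideal.absNorm v.asIdeal) : ℂ) * (Ideal.absNorm v.asIdeal : ℂ) ^ (-s) =
      (b v : ℂ) * (Real.log (Ideal.absNorm v.asIdeal) : ℂ) * (Ideal.absNorm v.asIdeal : ℂ) ^ (-s) +
      (b' v : ℂ) * (Real.log (Ideal.absNorm v.asIdeal) : ℂ) * (Ideal.absNorm v.asIdeal : ℂ) ^ (-s) := by
    intro v s
    push_cast
    ring
  refine ⟨fun s hs => ?_, fun s => G s + G' s, hG.add hG', ?_⟩
  · exact ((h1 s hs).add (h1' s hs)).congr fun v => (key v.1 s).symm
  · filter_upwards [h2, h2'] with s e1 e2 hs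
    have h3 : series S (fun v => b v + b' v) s = series S b s + series S b' s := by
      unfold series
      rw [← (h1 s hs).tsum_add (h1' s hs)]
      exact tsum_congr fun v => key v.1 s
    rw [h3, e1 hs, e2 hs]
    push_cast
    ring

/-- small coefficients -/
theorem residue_small {S : Finset (HeightOneSpectrum (𝓞 k))} {b : HeightOneSpectrum (𝓞 k) → ℝ}
    {C : ℝ} (hC : 0 ≤ C)
    (h : ∀ v, |b v| * √((Ideal.absNorm v.asIdeal : ℕ) : ℝ) ≤ C) : HasResidue S b 1 0 := by
  have hnm : ∀ v : HeightOneSpectrum (𝓞 k), (1 : ℝ) ≤ √((Ideal.absNorm v.asIdeal : ℕ) : ℝ) := by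
    intro v
    have h := Pool.Agent.H921R2.TatePole.two_le_nm v
    have h' : 1 ≤ Ideal.absNorm v.asIdeal := by
      have h'' : 2 ≤ Ideal.absNorm v.asIdeal := h
      omega
    exact Real.one_le_sqrt.2 (by exact_mod_cast h')
  have hb : ∀ v, |b v| ≤ C := fun v => (le_mul_of_one_le_right (abs_nonneg _) (hnm v)).trans (h v)
  have h2 := @residue_fun k _ _ b C hb Empty _ (fun _ => ℚ) _ _ (fun j => j.elim) 0 (by simp)
    ((Module.finrank ℤ (𝓞 k) : ℝ) * C) (by
      refine Filter.Eventually.of_forall fun p => ?_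
      have : Fact (p : ℕ).Prime := ⟨p.2⟩
      have hfin := Pool.Agent.H921R2.TatePole.hom_finite (K := k) p
      let _ := Fintype.ofFinite (𝓞 k →+* ZMod (p : ℕ))
      have hp0 : (0 : ℝ) < ((p : ℕ) : ℝ) := by exact_mod_cast p.2.pos
      have hs : 0 < √((p : ℕ) : ℝ) := Real.sqrt_pos.2 hp0
      have e0 : cF (fun _ : Empty => ℚ) (fun j => j.elim) (ZMod (p : ℕ)) = 0 := by
        unfold cF
        simp
      rw [e0, sub_zero, finsum_eq_sum_of_fintype]
      have e4 : ((p : ℕ) : ℝ) ^ (-(1 / 2) : ℝ) = (√((p : ℕ) : ℝ))⁻¹ := by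
        rw [Real.sqrt_eq_rpow, ← Real.rpow_neg hp0.le]
      rw [e4, ← div_eq_mul_inv, le_div_iff₀ hs]
      calc |∑ ψ : 𝓞 k →+* ZMod (p : ℕ), b (Pool.Agent.H921R2.TatePole.kerPrime p ψ).1.1| *
            √((p : ℕ) : ℝ) ≤
          (∑ ψ : 𝓞 k →+* ZMod (p : ℕ), |b (Pool.Agent.H921R2.TatePole.kerPrime p ψ).1.1|) *
            √((p : ℕ) : ℝ) :=
            mul_le_mul_of_nonneg_right (Finset.abs_sum_le_sum_abs _ _) hs.le
        _ = ∑ ψ : 𝓞 k →+* ZMod (p : ℕ), |b (Pool.Agent.H921R2.TatePole.kerPrime p ψ).1.1| *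
            √((p : ℕ) : ℝ) := by rw [Finset.sum_mul]
        _ ≤ ∑ ψ : 𝓞 k →+* ZMod (p : ℕ), C := by
            refine Finset.sum_le_sum fun ψ _ => ?_
            have h3 := h (Pool.Agent.H921R2.TatePole.kerPrime p ψ).1.1
            have h14 : Ideal.absNorm (Pool.Agent.H921R2.TatePole.kerPrime p ψ).1.1.asIdeal = p :=
              Pool.Agent.H341R2.nm_kerPrime p ψ
            rwa [h14] at h3
        _ = (Nat.card (𝓞 k →+* ZMod (p : ℕ)) : ℝ) * C := by
            rw [Finset.sum_const, Finset.card_univ, nsmul_eq_mul, Nat.card_eq_fintype_card]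
        _ ≤ (Module.finrank ℤ (𝓞 k) : ℝ) * C := by
            refine mul_le_mul_of_nonneg_right ?_ hC
            exact_mod_cast (Pool.Agent.W385.CP.hom_int k (ZMod (p : ℕ))).2) S
  have e : ((0 : ℤ) : ℝ) = 0 := Int.cast_zero
  rw [e] at h2
  exact h2

end

end Pool.Agent.R410.NG
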