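import Pool.Agent.R410.NG.Sf

/-!
# The generic fibre of a surface fibred over the line
-/

set_option autoImplicit false
set_option linter.all false
set_option maxHeartbeats 1000000

open Polynomial NumberField IsDedekindDomain Filter Topology

namespace Pool.Agent.R410.NG

open Pool.Agent.R410.LW (FG frac_of_closure)
open Pool.Agent.R410.BS (cF hom_le landau_all)
open Pool.Agent.R410.CB (Spl fq fq_eq deg_fq)
open Pool.Agent.Y707.PC (up up_def)
open Pool.Agent.Y707.PR (HasResidue series)
open Pool.Agent.TH943.HJ (CR)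

/-- the constant weight -/
noncomputable def wone : Wt Empty := fun _ _ _ => 1

theorem isWt_one : IsWt wone (fun j : Empty => j.elim) 1 where
  c0 := zero_le_one
  iso _ _ _ _ _ _ := rfl
  bound F _ _ p _ := by
    have hq : (1 : ℝ) ≤ (Nat.card F : ℝ) := by exact_mod_cast Nat.card_pos
    unfold wone
    rw [abs_one, one_mul]
    exact Real.one_le_sqrt.2 hq

section
variable {K R : Type} [Field K] [CharZero K] [CommRing R] [IsDomain R] [Algebra.FiniteType ℤ R]
  [Algebra R K] [IsFractionRing R K] {k : Type} [Field k] [NumberField k] [Algebra (𝓞 k) R]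

theorem sR_bound {J : Type} {w : Wt J} {c : ℝ} (hc : 0 ≤ c) {e : ℕ} (he : Algebra.trdeg ℚ K ≤ e)
    (g : J → R[X]) (N : R)
    (hw : ∀ (F : Type) [Field F] [Finite F] (φ : R →+* F), |w F (fun j => (g j).map φ)| ≤ c) :
    ∃ (C : ℝ) (m : ℕ), 0 ≤ C ∧ m ≠ 0 ∧ ∀ (F : Type) [Field F] [Finite F], ((m : ℕ) : F) ≠ 0 →
      ∀ ψ : 𝓞 k →+* F, |sR w (algebraMap (𝓞 k) R) g N F ψ| ≤ C * (Nat.card F : ℝ) ^ e := by
  classical
  obtain ⟨C3, hC3, g3⟩ := hom_le (R := R) (K := K) (IsFractionRing.injective R K) he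
  refine ⟨C3 * c, 1, mul_nonneg hC3 hc, one_ne_zero, fun F _ _ _ ψ => ?_⟩
  let _ : Fintype (R →+* F) := Fintype.ofFinite _
  rw [sR_eq]
  calc |∑ φ : R →+* F, if φ.comp (algebraMap (𝓞 k) R) = ψ ∧ φ N ≠ 0 then
        w F (fun j => (g j).map φ) else 0| ≤
      ∑ φ : R →+* F, |if φ.comp (algebraMap (𝓞 k) R) = ψ ∧ φ N ≠ 0 then
        w F (fun j => (g j).map φ) else 0| := Finset.abs_sum_le_sum_abs _ _
    _ ≤ ∑ φ : R →+* F, c := by
        refine Finset.sum_le_sum fun φ _ => ?_
        split_ifs
        · exact hw F φ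
        · rw [abs_zero]
          exact hc
    _ = (Nat.card (R →+* F) : ℝ) * c := by
        rw [Finset.sum_const, Finset.card_univ, nsmul_eq_mul, Nat.card_eq_fintype_card]
    _ ≤ (C3 * (Nat.card F : ℝ) ^ e) * c := mul_le_mul_of_nonneg_right (g3 F) hc
    _ = _ := by ring

/-- the number of the points of the base -/
theorem residue_one (hK : FG K) {e : ℕ} (he : Algebra.trdeg ℚ K = e) {N : R} (hN : N ≠ 0)
    (S : Finset (HeightOneSpectrum (𝓞 k))) :
    HasResidue S (fun v => avg wone (fun j : Empty => (j.elim : R[X])) N e v) 1 1 := by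
  classical
  obtain ⟨κ, iκ, L', iL, nL, a, ha, C2, N2, hC2, hN2, g2⟩ := asy_sH hK he hN
  have h := all_models (K := K) isWt_one (e := e) he.le (R := R) (B := R) (k := k) rfl
    (g := fun j : Empty => (j.elim : R[X])) (g' := fun j : Empty => (j.elim : R[X]))
    (fun _ => rfl) (fun j => j.elim) hN hN L' a (r := 1) (by rw [ha]; push_cast; rfl)
    (sR_bound (K := K) zero_le_one he.le _ _ fun F _ _ φ => by
      unfold wone
      rw [abs_one]) ⟨C2, N2, hC2, hN2, fun F _ _ hF => by
        have h1 := g2 F hF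
        have h2 : sT wone (fun j : Empty => (j.elim : R[X])) N F = sH N F := by
          let _ : Fintype (R →+* F) := Fintype.ofFinite _
          rw [sT_eq]
          unfold sH wone
          rw [Nat.card_eq_fintype_card, Fintype.card_subtype, Finset.sum_boole]
        rw [h2]
        exact h1⟩ S
  have e : ((1 : ℤ) : ℝ) = 1 := Int.cast_one
  rw [e] at h
  exact h

/-- the averages of the traces of one curve divided by the norm -/
theorem avg_small {e : ℕ} (he : Algebra.trdeg ℚ K ≤ e) {g : R[X]} (hg : g.Monic)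
    (hodd : Odd g.natDegree) (N : R) (S : Finset (HeightOneSpectrum (𝓞 k))) :
    HasResidue S (fun v => (Ideal.absNorm v.asIdeal : ℝ)⁻¹ * avg wtc (fun _ => g) N e v) 1 0 := by
  classical
  obtain ⟨C3, hC3, g3⟩ := hom_le (R := R) (K := K) (IsFractionRing.injective R K) he
  refine residue_small (C := C3 * g.natDegree) (by positivity) fun v => ?_
  have hfin := Pool.Agent.H341R2.finite_v v
  have hqn : (Ideal.absNorm v.asIdeal : ℝ) = (Nat.card (𝓞 k ⧸ v.asIdeal) : ℝ) := rfl
  have hqn' : ((Ideal.absNorm v.asIdeal : ℕ) : ℝ) = (Nat.card (𝓞 k ⧸ v.asIdeal) : ℝ) := rfl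
  let _ : Fintype (R →+* 𝓞 k ⧸ v.asIdeal) := Fintype.ofFinite _
  unfold avg
  rw [sR_eq, hqn']
  set q : ℝ := (Nat.card (𝓞 k ⧸ v.asIdeal) : ℝ) with hq
  have hq0 : 0 < q := by
    rw [hq]
    exact_mod_cast Nat.card_pos
  have hs : √q * √q = q := Real.mul_self_sqrt hq0.le
  have hs0 : 0 ≤ √q := Real.sqrt_nonneg _
  have hqe : 0 < q ^ e := by positivity
  have h1 : |∑ φ : R →+* 𝓞 k ⧸ v.asIdeal, if φ.comp (algebraMap (𝓞 k) R) =
      Ideal.Quotient.mk v.asIdeal ∧ φ N ≠ 0 then wtc (𝓞 k ⧸ v.asIdeal) (fun _ => g.map φ) else 0| ≤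
      (C3 * q ^ e) * (g.natDegree * √q) := by
    calc _ ≤ ∑ φ : R →+* 𝓞 k ⧸ v.asIdeal, |if φ.comp (algebraMap (𝓞 k) R) =
          Ideal.Quotient.mk v.asIdeal ∧ φ N ≠ 0 then wtc (𝓞 k ⧸ v.asIdeal) (fun _ => g.map φ)
          else 0| := Finset.abs_sum_le_sum_abs _ _
      _ ≤ ∑ φ : R →+* 𝓞 k ⧸ v.asIdeal, g.natDegree * √q := by
          refine Finset.sum_le_sum fun φ _ => ?_
          split_ifs
          · show |-trc _ _| ≤ _
            rw [abs_neg]
            exact trc_bound (hg.map φ) (hg.natDegree_map φ) hodd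
          · rw [abs_zero]
            positivity
      _ = (Nat.card (R →+* 𝓞 k ⧸ v.asIdeal) : ℝ) * (g.natDegree * √q) := by
          rw [Finset.sum_const, Finset.card_univ, nsmul_eq_mul, Nat.card_eq_fintype_card]
      _ ≤ (C3 * q ^ e) * (g.natDegree * √q) :=
          mul_le_mul_of_nonneg_right (g3 _) (by positivity)
  rw [abs_mul, abs_mul, abs_of_pos (inv_pos.2 hq0), abs_of_pos (inv_pos.2 hqe)]
  calc q⁻¹ * ((q ^ e)⁻¹ * _) * √q ≤ q⁻¹ * ((q ^ e)⁻¹ * ((C3 * q ^ e) * (g.natDegree * √q))) * √q := by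
        gcongr
    _ = (q⁻¹ * (√q * √q)) * ((q ^ e)⁻¹ * q ^ e) * (C3 * g.natDegree) := by ring
    _ = C3 * g.natDegree := by rw [hs, inv_mul_cancel₀ hq0.ne', inv_mul_cancel₀ hqe.ne']; ring

end

section
variable {M K K₁ L : Type} [Field M] [CharZero M] [Field K] [CharZero K] [Field K₁] [CharZero K₁]
  [Field L] [CharZero L] [Algebra M K] [Algebra K K₁] [Algebra M L] {ω : K} {x₀ : L} {t : K₁}

/-- the equation of the surface -/
noncomputable def sf (a b c : M[X][X]) (ω : K) : K[X][X] :=
  c.map (mapRingHom (algebraMap M K)) + C (C ω) * b.map (mapRingHom (algebraMap M K)) +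
    C (C (ω ^ 2)) * a.map (mapRingHom (algebraMap M K))

/-- the generic fibre -/
theorem sf_line (hω : Transcendental M ω) (htop : IntermediateField.adjoin M {ω} = ⊤)
    (ht : Transcendental M x₀) (hL : IntermediateField.adjoin M {x₀} = ⊤)
    (htt : Transcendental K t) (hK₁ : IntermediateField.adjoin K {t} = ⊤) :
    ∃ _ : Algebra L K₁, Transcendental L (algebraMap K K₁ ω) ∧
      IntermediateField.adjoin L {algebraMap K K₁ ω} = ⊤ ∧
      (∀ m : M, algebraMap L K₁ (algebraMap M L m) = algebraMap K K₁ (algebraMap M K m)) ∧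
      ∀ a b c : M[X][X], (sf a b c ω).map (aeval t : K[X] →ₐ[K] K₁).toRingHom =
        fq (a.map (aeval x₀ : M[X] →ₐ[M] L).toRingHom) (b.map (aeval x₀ : M[X] →ₐ[M] L).toRingHom)
          (c.map (aeval x₀ : M[X] →ₐ[M] L).toRingHom) (algebraMap K K₁ ω) := by
  let _ : Algebra M K₁ := ((algebraMap K K₁).comp (algebraMap M K)).toAlgebra
  have _ : IsScalarTower M K K₁ := IsScalarTower.of_algebraMap_eq fun m => rfl
  have hxM : Transcendental M t := htt.restrictScalars (FaithfulSMul.algebraMap_injective M K)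
  obtain ⟨_, hst, hx₀⟩ := exists_line ht hL hxM
  have hxK : Transcendental K (algebraMap L K₁ x₀) := by rw [hx₀]; exact htt
  have h1 : Transcendental L (algebraMap K K₁ ω) := tr_swap hω hxK hL
  refine ⟨inferInstance, h1, ?_, ?_, ?_⟩
  · have hωL : algebraMap K K₁ ω ∈ IntermediateField.adjoin L {algebraMap K K₁ ω} :=
      IntermediateField.subset_adjoin L _ (Set.mem_singleton _)
    have hK : ∀ z : K, algebraMap K K₁ z ∈ IntermediateField.adjoin L {algebraMap K K₁ ω} := by
      intro z
      have hz : z ∈ IntermediateField.adjoin M {ω} := by rw [htop]; trivial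
      induction hz using IntermediateField.adjoin_induction with
      | mem z hz =>
        rw [Set.mem_singleton_iff.1 hz]
        exact hωL
      | algebraMap a =>
        rw [← IsScalarTower.algebraMap_apply, IsScalarTower.algebraMap_apply M L K₁]
        exact IntermediateField.algebraMap_mem _ _
      | add u v _ _ h1 h2 => rw [map_add]; exact add_mem h1 h2
      | mul u v _ _ h1 h2 => rw [map_mul]; exact mul_mem h1 h2
      | inv u _ h1 => rw [map_inv₀]; exact inv_mem h1
    rw [eq_top_iff]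
    intro z _
    have hz : z ∈ IntermediateField.adjoin K {t} := by rw [hK₁]; trivial
    induction hz using IntermediateField.adjoin_induction with
    | mem z hz =>
      rw [Set.mem_singleton_iff.1 hz, ← hx₀]
      exact IntermediateField.algebraMap_mem _ _
    | algebraMap a => exact hK a
    | add u v _ _ h1 h2 => exact add_mem (h1 trivial) (h2 trivial)
    | mul u v _ _ h1 h2 => exact mul_mem (h1 trivial) (h2 trivial)
    | inv u _ h1 => exact inv_mem (h1 trivial)
  · intro m
    rw [← IsScalarTower.algebraMap_apply]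
    rfl
  · intro a b c
    have e : ∀ p : M[X][X], (p.map (mapRingHom (algebraMap M K))).map
        (aeval t : K[X] →ₐ[K] K₁).toRingHom =
        (p.map (aeval x₀ : M[X] →ₐ[M] L).toRingHom).map (algebraMap L K₁) := by
      intro p
      rw [Polynomial.map_map, Polynomial.map_map]
      congr 1
      apply Polynomial.ringHom_ext
      · intro z
        show aeval t ((C z).map (algebraMap M K)) = algebraMap L K₁ (aeval x₀ (C z))
        rw [Polynomial.map_C, aeval_C, aeval_C]
        exact (IsScalarTower.algebraMap_apply M K K₁ z).symm.trans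
          (IsScalarTower.algebraMap_apply M L K₁ z)
      · show aeval t ((X : M[X]).map (algebraMap M K)) = algebraMap L K₁ (aeval x₀ X)
        rw [Polynomial.map_X, aeval_X, aeval_X, hx₀]
    have e2 : ∀ z : K, (aeval t : K[X] →ₐ[K] K₁).toRingHom (C z) = algebraMap K K₁ z :=
      fun z => aeval_C t z
    unfold sf
    rw [fq_eq, up_def, up_def, up_def, ← e, ← e, ← e]
    rw [Polynomial.map_add, Polynomial.map_add, Polynomial.map_mul, Polynomial.map_mul,
      Polynomial.map_C, Polynomial.map_C, e2, e2, map_pow]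

end

end Pool.Agent.R410.NG
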