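import Pool.Agent.R410.NG.Sg

/-!
# The residue for surfaces fibred over the line
-/

set_option autoImplicit false
set_option linter.all false
set_option maxHeartbeats 1000000

open Polynomial NumberField IsDedekindDomain Filter Topology

namespace Pool.Agent.R410.NG

open Pool.Agent.R410.LW (FG frac_of_closure)
open Pool.Agent.R410.BS (cF hom_le landau_all)
open Pool.Agent.R410.CB (Spl fq fq_eq deg_fq)
open Pool.Agent.Y707.PC (up up_def)
open Pool.Agent.Y707.PR (HasResidue series)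
open Pool.Agent.TH943.HJ (CR)

section
variable {R F : Type} [CommRing R] [Field F] [Finite F]

/-- the trace on `H²` -/
noncomputable def tr2 (F : Type) [Field F] (P : F[X][X]) (P' : F[X]) : ℝ :=
  2 * (Nat.card F : ℝ) - (∑ᶠ t : F, trc F (P.map (evalRingHom t))) - trc F P'

/-- the sum over the points of the line -/
theorem sum_line [Fintype F] [Fintype (R →+* F)] [Fintype (R[X] →+* F)] (P : (R →+* F) → Prop)
    [DecidablePred P] (f : (R[X] →+* F) → ℝ) :
    ∑ Φ : R[X] →+* F, (if P (Φ.comp C) then f Φ else 0) =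
      ∑ φ : R →+* F, if P φ then ∑ t : F, f (eval₂RingHom φ t) else 0 := by
  refine (Fintype.sum_equiv (polyEquiv (A := R) (F := F)) _ (fun w => if P w.1 then
      f (eval₂RingHom w.1 w.2) else 0) fun Φ => ?_).trans ?_
  · show _ = if P (Φ.comp C) then f (eval₂RingHom (Φ.comp C) (Φ X)) else 0
    have e : eval₂RingHom (Φ.comp C) (Φ X) = Φ := by
      apply Polynomial.ringHom_ext
      · intro a
        rw [coe_eval₂RingHom, eval₂_C]
        rfl
      · rw [coe_eval₂RingHom, eval₂_X]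
    rw [e]
  · rw [Fintype.sum_prod_type]
    refine Finset.sum_congr rfl fun φ _ => ?_
    by_cases h : P φ
    · simp only [if_pos h]
    · simp only [if_neg h, Finset.sum_const_zero]

theorem map_line (G : R[X][X]) (φ : R →+* F) (t : F) :
    (G.map (mapRingHom φ)).map (evalRingHom t) = G.map (eval₂RingHom φ t) := by
  rw [Polynomial.map_map]
  congr 1
  apply Polynomial.ringHom_ext
  · intro a
    rw [RingHom.comp_apply, coe_mapRingHom, Polynomial.map_C, coe_evalRingHom, eval_C,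
      coe_eval₂RingHom, eval₂_C]
  · rw [RingHom.comp_apply, coe_mapRingHom, Polynomial.map_X, coe_evalRingHom, eval_X,
      coe_eval₂RingHom, eval₂_X]

end

section
variable {M K L : Type} [Field M] [CharZero M] [Field K] [CharZero K] [Algebra M K] {ω : K}
  [Field L] [CharZero L] [Algebra M L] {x₀ : L} {k : Type} [Field k] [NumberField k] [Algebra k M]

/-- the rank of the generic fibre -/
noncomputable def nn3 (x₀ : L) (a b c : M[X][X]) : ℤ :=
  open Classical in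
  ((Nat.card (SplT (a.map (aeval x₀ : M[X] →ₐ[M] L).toRingHom)
    (b.map (aeval x₀ : M[X] →ₐ[M] L).toRingHom) (c.map (aeval x₀ : M[X] →ₐ[M] L).toRingHom)) : ℤ) -
    if a.map (aeval x₀ : M[X] →ₐ[M] L).toRingHom ≠ 0 ∧
      IsSquare (a.map (aeval x₀ : M[X] →ₐ[M] L).toRingHom) then 1 else 0)

theorem delta_ne (ht : Transcendental M x₀) {a b c : M[X][X]} (hΔ : b ^ 2 - 4 * a * c ≠ 0) :
    (b.map (aeval x₀ : M[X] →ₐ[M] L).toRingHom) ^ 2 - 4 *
      a.map (aeval x₀ : M[X] →ₐ[M] L).toRingHom * c.map (aeval x₀ : M[X] →ₐ[M] L).toRingHom ≠ 0 := by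
  have hinj : Function.Injective (aeval x₀ : M[X] →ₐ[M] L).toRingHom :=
    transcendental_iff_injective.1 ht
  intro h
  apply hΔ
  apply Polynomial.map_injective _ hinj
  rw [Polynomial.map_sub, Polynomial.map_pow, Polynomial.map_mul, Polynomial.map_mul,
    Polynomial.map_zero, Polynomial.map_ofNat]
  exact h

/-- **The residue for surfaces fibred over the line.** -/
theorem residue_surface (hM : FG M) {d : ℕ} (hd : Algebra.trdeg ℚ M = d)
    (hω : Transcendental M ω) (htop : IntermediateField.adjoin M {ω} = ⊤) (ht : Transcendental M x₀)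
    (hL : IntermediateField.adjoin M {x₀} = ⊤) {a b c : M[X][X]} (hodd : Odd c.natDegree)
    (hac : a.natDegree < c.natDegree) (hbc : b.natDegree < c.natDegree)
    (hΔ : b ^ 2 - 4 * a * c ≠ 0) {R : Type} [CommRing R] [IsDomain R]
    [Algebra.FiniteType ℤ R] [Algebra R K] [IsFractionRing R K] [Algebra (𝓞 k) R]
    (hk : ∀ z : 𝓞 k, algebraMap R K (algebraMap (𝓞 k) R z) = algebraMap M K (algebraMap k M z))
    {G : R[X][X]} (hG : G.Monic) (hGm : G.map (mapRingHom (algebraMap R K)) = sf a b c ω)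
    {G' : R[X]} (hG' : G'.Monic) (hodd' : Odd G'.natDegree) {N : R} (hN : N ≠ 0)
    (S : Finset (HeightOneSpectrum (𝓞 k))) :
    HasResidue S (fun v => ((Nat.card (𝓞 k ⧸ v.asIdeal) : ℝ) ^ (d + 1))⁻¹ *
      ∑ᶠ φ : {φ : R →+* 𝓞 k ⧸ v.asIdeal //
        φ.comp (algebraMap (𝓞 k) R) = Ideal.Quotient.mk v.asIdeal ∧ φ N ≠ 0},
          tr2 (𝓞 k ⧸ v.asIdeal) (G.map (mapRingHom φ.1)) (G'.map φ.1)) 2
      ((2 + nn3 x₀ a b c : ℤ) : ℝ) := by
  classical
  have htr : Algebra.trdeg ℚ K = (d + 1 : ℕ) := trdeg_line hd hω htop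
  have hKF : FG K := fg_line hM htop
  have hLd : Algebra.trdeg ℚ L = (d + 1 : ℕ) := trdeg_line hd ht hL
  have hLF : FG L := fg_line hM hL
  -- the field of the line over `K`
  have htt : Transcendental K (RatFunc.X : RatFunc K) := by
    rw [transcendental_iff_injective]
    intro p q h
    apply RatFunc.algebraMap_injective K
    rwa [RatFunc.aeval_X_left_eq_algebraMap, RatFunc.aeval_X_left_eq_algebraMap] at h
  have hK₁ : IntermediateField.adjoin K {(RatFunc.X : RatFunc K)} = ⊤ := RatFunc.adjoin_X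
  have hcK : CharZero (RatFunc K) := charZero_of_injective_algebraMap
    (algebraMap K (RatFunc K)).injective
  obtain ⟨iL, h1, h2, h3, h4⟩ := sf_line (L := L) (x₀ := x₀) hω htop ht hL htt hK₁
  have hft0 : Algebra.FiniteType ℤ R[X] := inferInstance
  have hft := Pool.Agent.R410.LW.ft_int _ hft0
  let _ : Algebra R[X] (RatFunc K) := (phA (M := K) R (RatFunc.X : RatFunc K)).toAlgebra
  have hfr : IsFractionRing R[X] (RatFunc K) := phA_frac R htt hK₁
  let _ : Algebra k L := ((algebraMap M L).comp (algebraMap k M)).toAlgebra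
  have hGK : G.map (algebraMap R[X] (RatFunc K)) =
      fq (a.map (aeval x₀ : M[X] →ₐ[M] L).toRingHom) (b.map (aeval x₀ : M[X] →ₐ[M] L).toRingHom)
        (c.map (aeval x₀ : M[X] →ₐ[M] L).toRingHom) (algebraMap K (RatFunc K) ω) := by
    rw [← h4, ← hGm, Polynomial.map_map]
    congr 1
    refine RingHom.ext fun p => ?_
    show phA (M := K) R (RatFunc.X : RatFunc K) p = _
    rw [phA_apply]
    rfl
  have hinj : Function.Injective (aeval x₀ : M[X] →ₐ[M] L).toRingHom :=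
    transcendental_iff_injective.1 ht
  have hcd : (c.map (aeval x₀ : M[X] →ₐ[M] L).toRingHom).natDegree = c.natDegree :=
    natDegree_map_eq_of_injective hinj c
  have had : (a.map (aeval x₀ : M[X] →ₐ[M] L).toRingHom).natDegree = a.natDegree :=
    natDegree_map_eq_of_injective hinj a
  have hbd : (b.map (aeval x₀ : M[X] →ₐ[M] L).toRingHom).natDegree = b.natDegree :=
    natDegree_map_eq_of_injective hinj b
  have hGd : G.natDegree = (c.map (aeval x₀ : M[X] →ₐ[M] L).toRingHom).natDegree := by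
    rw [← hG.natDegree_map (algebraMap R[X] (RatFunc K)), hGK,
      deg_fq (by rw [had, hcd]; exact hac) (by rw [hbd, hcd]; exact hbc)]
  have hCN : (C N : R[X]) ≠ 0 := C_ne_zero.2 hN
  have r0 := residue_cb (k := k) hLF hLd h1 h2
    (a := a.map (aeval x₀ : M[X] →ₐ[M] L).toRingHom) (b := b.map (aeval x₀ : M[X] →ₐ[M] L).toRingHom)
    (c := c.map (aeval x₀ : M[X] →ₐ[M] L).toRingHom) (by rw [hcd]; exact hodd) (delta_ne ht hΔ)
    R[X] (by
      intro z
      rw [Polynomial.algebraMap_apply]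
      show phA (M := K) R (RatFunc.X : RatFunc K) (C (algebraMap (𝓞 k) R z)) = _
      rw [phA_apply, Polynomial.map_C, aeval_C, hk]
      exact (h3 _).symm) (fun _ => G) ⟨hG, hGd⟩ hGK hCN S
  have r1 := residue_one (k := k) hKF htr hN S
  have r2 := avg_small (k := k) (K := K) (e := d + 1) htr.le hG' hodd' N S
  have r3 := residue_shift (residue_add (residue_add (residue_add r1 r1) r0) r2)
  have e : (1 : ℝ) + 1 + (((Nat.card (SplT (a.map (aeval x₀ : M[X] →ₐ[M] L).toRingHom)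
    (b.map (aeval x₀ : M[X] →ₐ[M] L).toRingHom) (c.map (aeval x₀ : M[X] →ₐ[M] L).toRingHom)) : ℤ) -
    if a.map (aeval x₀ : M[X] →ₐ[M] L).toRingHom ≠ 0 ∧
      IsSquare (a.map (aeval x₀ : M[X] →ₐ[M] L).toRingHom) then 1 else 0 : ℤ) : ℝ) + 0 =
      ((2 + nn3 x₀ a b c : ℤ) : ℝ) := by
    unfold nn3
    push_cast
    ring
  rw [e] at r3
  convert r3 using 2 with v
  have hfin := Pool.Agent.H341R2.finite_v v
  have hqn : (Ideal.absNorm v.asIdeal : ℝ) = (Nat.card (𝓞 k ⧸ v.asIdeal) : ℝ) := rfl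
  let _ : Fintype (𝓞 k ⧸ v.asIdeal) := Fintype.ofFinite _
  let _ : Fintype (R →+* 𝓞 k ⧸ v.asIdeal) := Fintype.ofFinite _
  have hfX : Finite (R[X] →+* 𝓞 k ⧸ v.asIdeal) :=
    Finite.of_equiv _ (polyEquiv (A := R) (F := 𝓞 k ⧸ v.asIdeal)).symm
  let _ : Fintype (R[X] →+* 𝓞 k ⧸ v.asIdeal) := Fintype.ofFinite _
  have e9 : sR wtc (algebraMap (𝓞 k) R[X]) (fun _ : Unit => G) (C N) (𝓞 k ⧸ v.asIdeal)
      (Ideal.Quotient.mk v.asIdeal) = ∑ φ : R →+* 𝓞 k ⧸ v.asIdeal,
        if φ.comp (algebraMap (𝓞 k) R) = Ideal.Quotient.mk v.asIdeal ∧ φ N ≠ 0 then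
        ∑ t : 𝓞 k ⧸ v.asIdeal, wtc (𝓞 k ⧸ v.asIdeal) (fun _ => G.map (eval₂RingHom φ t)) else 0 := by
    rw [sR_eq]
    refine Eq.trans ?_ (sum_line (fun φ : R →+* 𝓞 k ⧸ v.asIdeal => φ.comp (algebraMap (𝓞 k) R) =
      Ideal.Quotient.mk v.asIdeal ∧ φ N ≠ 0) (fun Φ => wtc (𝓞 k ⧸ v.asIdeal) (fun _ => G.map Φ)))
    exact Finset.sum_congr rfl fun Φ _ => if_congr Iff.rfl rfl rfl
  unfold avg
  rw [e9, sR_eq, sR_eq, hqn]
  rw [finsum_sub (fun φ : R →+* 𝓞 k ⧸ v.asIdeal => φ.comp (algebraMap (𝓞 k) R) =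
    Ideal.Quotient.mk v.asIdeal ∧ φ N ≠ 0)
    (fun φ => tr2 (𝓞 k ⧸ v.asIdeal) (G.map (mapRingHom φ)) (G'.map φ))]
  have e6 : ∀ φ : R →+* 𝓞 k ⧸ v.asIdeal, tr2 (𝓞 k ⧸ v.asIdeal) (G.map (mapRingHom φ)) (G'.map φ) =
      2 * (Nat.card (𝓞 k ⧸ v.asIdeal) : ℝ) + (∑ t : 𝓞 k ⧸ v.asIdeal,
        wtc (𝓞 k ⧸ v.asIdeal) (fun _ => G.map (eval₂RingHom φ t))) +
        wtc (𝓞 k ⧸ v.asIdeal) (fun _ => G'.map φ) := by
    intro φ
    unfold tr2 wtc
    rw [finsum_eq_sum_of_fintype, Finset.sum_neg_distrib]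
    simp only [map_line]
    ring
  set q : ℝ := (Nat.card (𝓞 k ⧸ v.asIdeal) : ℝ) with hq
  have hq0 : q ≠ 0 := by
    rw [hq]
    exact_mod_cast (Nat.card_pos (α := 𝓞 k ⧸ v.asIdeal)).ne'
  have e7 : ∀ φ : R →+* 𝓞 k ⧸ v.asIdeal, (if φ.comp (algebraMap (𝓞 k) R) =
      Ideal.Quotient.mk v.asIdeal ∧ φ N ≠ 0 then
        tr2 (𝓞 k ⧸ v.asIdeal) (G.map (mapRingHom φ)) (G'.map φ) else 0) =
      2 * q * (if φ.comp (algebraMap (𝓞 k) R) = Ideal.Quotient.mk v.asIdeal ∧ φ N ≠ 0 then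
        wone (𝓞 k ⧸ v.asIdeal) (fun j : Empty => (j.elim : R[X]).map φ) else 0) +
      (if φ.comp (algebraMap (𝓞 k) R) = Ideal.Quotient.mk v.asIdeal ∧ φ N ≠ 0 then
        ∑ t : 𝓞 k ⧸ v.asIdeal, wtc (𝓞 k ⧸ v.asIdeal) (fun _ => G.map (eval₂RingHom φ t)) else 0) +
      (if φ.comp (algebraMap (𝓞 k) R) = Ideal.Quotient.mk v.asIdeal ∧ φ N ≠ 0 then
        wtc (𝓞 k ⧸ v.asIdeal) (fun _ => G'.map φ) else 0) := by
    intro φ
    rw [e6]
    unfold wone
    split_ifs <;> ring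
  rw [Finset.sum_congr rfl fun φ _ => e7 φ, Finset.sum_add_distrib, Finset.sum_add_distrib,
    ← Finset.mul_sum]
  have e8 : q * (q ^ (d + 1 + 1))⁻¹ = (q ^ (d + 1))⁻¹ := by
    rw [pow_succ q (d + 1), mul_inv, ← mul_assoc, mul_comm q, mul_assoc, mul_inv_cancel₀ hq0, mul_one]
  rw [← e8]
  field_simp
  ring

end

end Pool.Agent.R410.NG
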