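import Pool.Agent.R410.NG.Sh
import Pool.Agent.R410.EP.Hlf

/-!
# The Euler product for `H²` of the surfaces fibred over the line
-/

set_option autoImplicit false
set_option linter.all false
set_option maxHeartbeats 1000000

open Polynomial NumberField IsDedekindDomain Filter Topology

namespace Pool.Agent.R410.NG

open Pool.Agent.R410.LW (FG frac_of_closure)
open Pool.Agent.R410.BS (cF hom_le landau_all)
open Pool.Agent.R410.CB (Spl fq fq_eq deg_fq)
open Pool.Agent.Y707.PC (up up_def)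
open Pool.Agent.TH958.An (Pt qy ptOf Res fiberEquiv)
open Pool.Agent.R410.EP (trY trY_eq ZG euler_half pts trn trn_eq range_eq)

section
variable {k : Type} [Field k]

/-- the number of the points of `y² = P(t, x)` over the algebraic closure which are fixed by the `n`-th
power -/
noncomputable def ptsS (k : Type) [Field k] (P : k[X][X]) (n : ℕ) : ℕ :=
  Nat.card {Q : AlgebraicClosure k × AlgebraicClosure k × AlgebraicClosure k //
    Q.1 ^ n = Q.1 ∧ Q.2.1 ^ n = Q.2.1 ∧ Q.2.2 ^ n = Q.2.2 ∧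
      Q.2.2 ^ 2 = eval₂ (aeval Q.1 : k[X] →ₐ[k] AlgebraicClosure k).toRingHom Q.2.1 P}

/-- **The points over an extension.** -/
theorem ptsS_eq {F : Type} [Field F] [Finite F] (σ : k →+* F) (P : k[X][X]) :
    ptsS k P (Nat.card F) = Nat.card {Q : F × F × F // Q.2.2 ^ 2 =
      ((P.map (mapRingHom σ)).map (evalRingHom Q.1)).eval Q.2.1} := by
  classical
  have hfin := Fintype.ofFinite F
  let _ : Algebra k F := σ.toAlgebra
  have : Finite k := Finite.of_injective σ σ.injective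
  have hint : Algebra.IsAlgebraic k F := by
    have : Module.Finite k F := Module.Finite.of_finite
    infer_instance
  let τ : F →ₐ[k] AlgebraicClosure k := IsAlgClosed.lift
  have hrange : ∀ x : AlgebraicClosure k, x ^ Nat.card F = x ↔ ∃ z : F, τ z = x := by
    intro x
    rw [Nat.card_eq_fintype_card]
    exact range_eq (τ : F →+* AlgebraicClosure k) x
  have hev : ∀ t x : F, eval₂ (aeval (τ t) : k[X] →ₐ[k] AlgebraicClosure k).toRingHom (τ x) P =
      τ (((P.map (mapRingHom σ)).map (evalRingHom t)).eval x) := by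
    intro t x
    rw [map_line, eval_map]
    refine Eq.trans ?_ (hom_eval₂ P (eval₂RingHom σ t) (τ : F →+* AlgebraicClosure k) x).symm
    congr 1
    apply Polynomial.ringHom_ext
    · intro a
      show aeval (τ t) (C a) = τ (eval₂ σ t (C a))
      rw [aeval_C, eval₂_C]
      exact (τ.commutes a).symm
    · show aeval (τ t) X = τ (eval₂ σ t X)
      rw [aeval_X, eval₂_X]
  unfold ptsS
  refine (Nat.card_congr (Equiv.ofBijective (fun Q : {Q : F × F × F // Q.2.2 ^ 2 =
      ((P.map (mapRingHom σ)).map (evalRingHom Q.1)).eval Q.2.1} =>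
    (⟨(τ Q.1.1, τ Q.1.2.1, τ Q.1.2.2), (hrange _).2 ⟨_, rfl⟩, (hrange _).2 ⟨_, rfl⟩,
      (hrange _).2 ⟨_, rfl⟩, by
      show τ Q.1.2.2 ^ 2 = eval₂ (aeval (τ Q.1.1) : k[X] →ₐ[k] AlgebraicClosure k).toRingHom
        (τ Q.1.2.1) P
      rw [hev, ← map_pow, Q.2]⟩ : {Q : AlgebraicClosure k × AlgebraicClosure k × AlgebraicClosure k //
    Q.1 ^ Nat.card F = Q.1 ∧ Q.2.1 ^ Nat.card F = Q.2.1 ∧ Q.2.2 ^ Nat.card F = Q.2.2 ∧
      Q.2.2 ^ 2 = eval₂ (aeval Q.1 : k[X] →ₐ[k] AlgebraicClosure k).toRingHom Q.2.1 P}))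
    ⟨?_, ?_⟩)).symm
  · intro Q Q' h
    have h1 := congrArg (fun w => w.1) h
    have h2 := Prod.ext_iff.1 h1
    have h3 := Prod.ext_iff.1 h2.2
    exact Subtype.ext (Prod.ext (τ.injective h2.1) (Prod.ext (τ.injective h3.1) (τ.injective h3.2)))
  · rintro ⟨⟨t, x, y⟩, h0, h1, h2, h3⟩
    obtain ⟨t, rfl⟩ := (hrange _).1 h0
    obtain ⟨x, rfl⟩ := (hrange _).1 h1
    obtain ⟨y, rfl⟩ := (hrange _).1 h2
    refine ⟨⟨(t, x, y), ?_⟩, rfl⟩
    apply τ.injective
    show τ (y ^ 2) = τ (eval x (Polynomial.map (evalRingHom t) (Polynomial.map (mapRingHom σ) P)))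
    rw [map_pow, ← hev]
    exact h3

/-- the trace on `H²` of a power of the Frobenius of the surface -/
noncomputable def trS (k : Type) [Field k] (P : k[X][X]) (P' : k[X]) (n : ℕ) : ℝ :=
  ((ptsS k P n + pts k P' n + (n + 1) : ℕ) : ℝ) - 1 - (n : ℝ) ^ 2

theorem tr2_pts {F : Type} [Field F] [Finite F] (P : F[X][X]) (P' : F[X]) :
    tr2 F P P' = ((Nat.card {Q : F × F × F // Q.2.2 ^ 2 = (P.map (evalRingHom Q.1)).eval Q.2.1} +
      Nat.card {Q : F × F // Q.2 ^ 2 = P'.eval Q.1} + (Nat.card F + 1) : ℕ) : ℝ) - 1 -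
        (Nat.card F : ℝ) ^ 2 := by
  let _ : Fintype F := Fintype.ofFinite _
  have h8 : Nat.card {Q : F × F × F // Q.2.2 ^ 2 = (P.map (evalRingHom Q.1)).eval Q.2.1} =
      ∑ t : F, Nat.card {Q : F × F // Q.2 ^ 2 = (P.map (evalRingHom t)).eval Q.1} := by
    have h9 : {Q : F × F × F // Q.2.2 ^ 2 = (P.map (evalRingHom Q.1)).eval Q.2.1} ≃
        Σ t : F, {Q : F × F // Q.2 ^ 2 = (P.map (evalRingHom t)).eval Q.1} :=
      { toFun := fun Q => ⟨Q.1.1, Q.1.2, Q.2⟩
        invFun := fun Q => ⟨(Q.1, Q.2.1), Q.2.2⟩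
        left_inv := fun _ => rfl
        right_inv := fun _ => rfl }
    rw [Nat.card_congr h9, Nat.card_sigma]
  unfold tr2 trc
  rw [h8, finsum_eq_sum_of_fintype, Finset.sum_sub_distrib, Finset.sum_const, Finset.card_univ,
    nsmul_eq_mul, ← Nat.card_eq_fintype_card]
  push_cast
  ring

theorem trS_eq {F : Type} [Field F] [Finite F] (σ : k →+* F) (P : k[X][X]) (P' : k[X]) :
    trS k P P' (Nat.card F) = tr2 F (P.map (mapRingHom σ)) (P'.map σ) := by
  unfold trS
  rw [ptsS_eq σ, tr2_pts]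
  have h1 := trn_eq σ P'
  unfold trn trc at h1
  have h2 : pts k P' (Nat.card F) = Nat.card {Q : F × F // Q.2 ^ 2 = (P'.map σ).eval Q.1} := by
    have h3 : (pts k P' (Nat.card F) : ℝ) =
        Nat.card {Q : F × F // Q.2 ^ 2 = (P'.map σ).eval Q.1} := by linarith
    exact_mod_cast h3
  rw [h2]

end

section
variable {R : Type} [CommRing R]

/-- the local trace divided by the norm -/
noncomputable def tauS (G : R[X][X]) (G' : R[X]) (y : Pt R) (n : ℕ) : ℝ :=
  (n : ℝ)⁻¹ * trS (Res y) (G.map (mapRingHom (Ideal.Quotient.mk y.asIdeal)))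
    (G'.map (Ideal.Quotient.mk y.asIdeal)) n

theorem tauS_eq (G : R[X][X]) (G' : R[X]) {F : Type} [Field F] [Finite F] (φ : R →+* F) :
    tauS G G' (ptOf φ) (Nat.card F) =
      (Nat.card F : ℝ)⁻¹ * tr2 F (G.map (mapRingHom φ)) (G'.map φ) := by
  let ψ : Res (ptOf φ) →+* F := fiberEquiv (F := F) (ptOf φ) ⟨φ, rfl⟩
  have hψ : ψ.comp (Ideal.Quotient.mk (ptOf φ).asIdeal) = φ := by
    ext x
    rfl
  unfold tauS
  rw [trS_eq ψ, Polynomial.map_map, Polynomial.map_map, mapRingHom_comp, hψ]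

theorem tr2_bound {F : Type} [Field F] [Finite F] {P : F[X][X]} {P' : F[X]} {n : ℕ} (hP : P.Monic)
    (hn : P.natDegree = n) (hP' : P'.Monic) (hn' : P'.natDegree = n) (hodd : Odd n) :
    |(Nat.card F : ℝ)⁻¹ * tr2 F P P'| ≤ (2 + 2 * n) * √(Nat.card F : ℝ) := by
  let _ : Fintype F := Fintype.ofFinite _
  have hq : (1 : ℝ) ≤ (Nat.card F : ℝ) := by exact_mod_cast Nat.card_pos
  unfold tr2
  rw [finsum_eq_sum_of_fintype]
  have h1 : |∑ t : F, trc F (P.map (evalRingHom t))| ≤ (Nat.card F : ℝ) * (n * √(Nat.card F : ℝ)) := by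
    calc _ ≤ ∑ t : F, |trc F (P.map (evalRingHom t))| := Finset.abs_sum_le_sum_abs _ _
      _ ≤ ∑ t : F, n * √(Nat.card F : ℝ) := by
          refine Finset.sum_le_sum fun t _ => ?_
          exact trc_bound (hP.map _) (by rw [hP.natDegree_map, hn]) hodd
      _ = _ := by
          rw [Finset.sum_const, Finset.card_univ, nsmul_eq_mul, Nat.card_eq_fintype_card]
  have h2 : |trc F P'| ≤ n * √(Nat.card F : ℝ) := trc_bound hP' hn' hodd
  set q : ℝ := (Nat.card F : ℝ) with hqd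
  set S : ℝ := ∑ t : F, trc F (P.map (evalRingHom t))
  set T : ℝ := trc F P'
  have hq0 : 0 < q := by linarith
  have hs1 : 1 ≤ √q := Real.one_le_sqrt.2 hq
  have h3 : |2 * q - S - T| ≤ 2 * q + |S| + |T| := by
    have a1 := abs_sub (2 * q - S) T
    have a2 := abs_sub (2 * q) S
    rw [abs_of_nonneg (by linarith : (0 : ℝ) ≤ 2 * q)] at a2
    linarith
  rw [abs_mul, abs_of_pos (inv_pos.2 hq0), inv_mul_le_iff₀ hq0]
  have h4 : (n : ℝ) * √q ≤ q * (n * √q) := le_mul_of_one_le_left (by positivity) hq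
  have h5 : 2 * q ≤ q * (2 * √q) := by nlinarith
  calc _ ≤ 2 * q + |S| + |T| := h3
    _ ≤ q * (2 * √q) + q * (n * √q) + q * (n * √q) := by linarith
    _ = q * ((2 + 2 * n) * √q) := by ring

end

section
variable {M K L : Type} [Field M] [CharZero M] [Field K] [CharZero K] [Algebra M K] {ω : K}
  [Field L] [CharZero L] [Algebra M L] {x₀ : L}

/-- **The asymptotic value for the surfaces.** -/
theorem asy_surface (hM : FG M) {d : ℕ} (hd : Algebra.trdeg ℚ M = d)
    (hω : Transcendental M ω) (htop : IntermediateField.adjoin M {ω} = ⊤) (ht : Transcendental M x₀)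
    (hL : IntermediateField.adjoin M {x₀} = ⊤) {a b c : M[X][X]} (hodd : Odd c.natDegree)
    (hac : a.natDegree < c.natDegree) (hbc : b.natDegree < c.natDegree)
    (hΔ : b ^ 2 - 4 * a * c ≠ 0) {R : Type} [CommRing R] [IsDomain R]
    [Algebra.FiniteType ℤ R] [Algebra R K] [IsFractionRing R K]
    {G : R[X][X]} (hG : G.Monic) (hGm : G.map (mapRingHom (algebraMap R K)) = sf a b c ω)
    {G' : R[X]} (hG' : G'.Monic) (hodd' : Odd G'.natDegree) {N : R} (hN : N ≠ 0) :
    Asy (fun F _ _ => ∑ᶠ φ : {φ : R →+* F // φ N ≠ 0},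
      (Nat.card F : ℝ)⁻¹ * tr2 F (G.map (mapRingHom φ.1)) (G'.map φ.1)) (d + 1)
        ((2 + nn3 x₀ a b c : ℤ) : ℝ) := by
  classical
  have htr : Algebra.trdeg ℚ K = (d + 1 : ℕ) := trdeg_line hd hω htop
  have hKF : FG K := fg_line hM htop
  have hLd : Algebra.trdeg ℚ L = (d + 1 : ℕ) := trdeg_line hd ht hL
  have hLF : FG L := fg_line hM hL
  have htt : Transcendental K (RatFunc.X : RatFunc K) := by
    rw [transcendental_iff_injective]
    intro p q h
    apply RatFunc.algebraMap_injective K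
    rwa [RatFunc.aeval_X_left_eq_algebraMap, RatFunc.aeval_X_left_eq_algebraMap] at h
  have hK₁ : IntermediateField.adjoin K {(RatFunc.X : RatFunc K)} = ⊤ := RatFunc.adjoin_X
  have hcK : CharZero (RatFunc K) := charZero_of_injective_algebraMap
    (algebraMap K (RatFunc K)).injective
  obtain ⟨iL, h1, h2, h3, h4⟩ := sf_line (L := L) (x₀ := x₀) hω htop ht hL htt hK₁
  have hft0 : Algebra.FiniteType ℤ R[X] := inferInstance
  have hft := Pool.Agent.R410.LW.ft_int _ hft0
  let _ : Algebra R[X] (RatFunc K) := (phA (M := K) R (RatFunc.X : RatFunc K)).toAlgebra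
  have hfr : IsFractionRing R[X] (RatFunc K) := phA_frac R htt hK₁
  have hGK : G.map (algebraMap R[X] (RatFunc K)) =
      fq (a.map (aeval x₀ : M[X] →ₐ[M] L).toRingHom) (b.map (aeval x₀ : M[X] →ₐ[M] L).toRingHom)
        (c.map (aeval x₀ : M[X] →ₐ[M] L).toRingHom) (algebraMap K (RatFunc K) ω) := by
    rw [← h4, ← hGm, Polynomial.map_map]
    congr 1
    refine RingHom.ext fun p => ?_
    show phA (M := K) R (RatFunc.X : RatFunc K) p = _
    rw [phA_apply]
    rfl
  have hinj : Function.Injective (aeval x₀ : M[X] →ₐ[M] L).toRingHom :=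
    transcendental_iff_injective.1 ht
  have hcd : (c.map (aeval x₀ : M[X] →ₐ[M] L).toRingHom).natDegree = c.natDegree :=
    natDegree_map_eq_of_injective hinj c
  have had : (a.map (aeval x₀ : M[X] →ₐ[M] L).toRingHom).natDegree = a.natDegree :=
    natDegree_map_eq_of_injective hinj a
  have hbd : (b.map (aeval x₀ : M[X] →ₐ[M] L).toRingHom).natDegree = b.natDegree :=
    natDegree_map_eq_of_injective hinj b
  have hGd : G.natDegree = c.natDegree := by
    rw [← hG.natDegree_map (algebraMap R[X] (RatFunc K)), hGK,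
      deg_fq (by rw [had, hcd]; exact hac) (by rw [hbd, hcd]; exact hbc), hcd]
  have hCN : (C N : R[X]) ≠ 0 := C_ne_zero.2 hN
  obtain ⟨B, i1, i2, i3, i4, i5, g', hg', hasy⟩ := Pool.Agent.R410.EP.model_cb hLF hLd h1 h2
    (delta_ne ht hΔ)
  have htr1 : Algebra.trdeg ℚ (RatFunc K) = (d + 1 + 1 : ℕ) := trdeg_line hLd h1 h2
  have t2 : Asy (fun F _ _ => sT wtc (fun _ : Unit => G) (C N) F) (d + 1 + 1) ((nn3 x₀ a b c : ℤ) : ℝ) :=
    asy_any (K := RatFunc K) (isWt_trc (n := c.natDegree) hodd) (by rw [htr1]) (g' := g')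
      (by
        rintro ⟨⟩
        rw [hg', hGK]) (fun _ => ⟨hG, hGd⟩) hCN one_ne_zero hasy
  have t1 := ((asy_sH hKF htr hN).smul 2).mulq
  obtain ⟨C3, hC3, g3⟩ := hom_le (R := R) (K := K) (IsFractionRing.injective R K) (e := d + 1)
    (by rw [htr])
  have t3 : Asy (fun F _ _ => sT wtc (fun _ : Unit => G') N F) (d + 1 + 1) 0 := by
    refine (Asy.zero (d + 1 + 1)).near ⟨C3 * G'.natDegree, 1, by positivity, one_ne_zero,
      fun F _ _ _ => ?_⟩
    let _ : Fintype (R →+* F) := Fintype.ofFinite _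
    rw [sub_zero, sT_eq]
    set q : ℝ := (Nat.card F : ℝ) with hq
    have hq0 : 0 ≤ q := Nat.cast_nonneg _
    have hs : √q * √q = q := Real.mul_self_sqrt hq0
    have hs0 : 0 ≤ √q := Real.sqrt_nonneg _
    have e1 : |∑ φ : R →+* F, if φ N ≠ 0 then wtc F (fun _ => G'.map φ) else 0| ≤
        (C3 * q ^ (d + 1)) * (G'.natDegree * √q) := by
      calc _ ≤ ∑ φ : R →+* F, |if φ N ≠ 0 then wtc F (fun _ => G'.map φ) else 0| :=
            Finset.abs_sum_le_sum_abs _ _
        _ ≤ ∑ φ : R →+* F, G'.natDegree * √q := by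
            refine Finset.sum_le_sum fun φ _ => ?_
            split_ifs
            · show |-trc _ _| ≤ _
              rw [abs_neg]
              exact trc_bound (hG'.map φ) (hG'.natDegree_map φ) hodd'
            · rw [abs_zero]
              positivity
        _ = (Nat.card (R →+* F) : ℝ) * (G'.natDegree * √q) := by
            rw [Finset.sum_const, Finset.card_univ, nsmul_eq_mul, Nat.card_eq_fintype_card]
        _ ≤ (C3 * q ^ (d + 1)) * (G'.natDegree * √q) :=
            mul_le_mul_of_nonneg_right (g3 _) (by positivity)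
    calc _ ≤ ((C3 * q ^ (d + 1)) * (G'.natDegree * √q)) * √q := mul_le_mul_of_nonneg_right e1 hs0
      _ = C3 * G'.natDegree * (q ^ (d + 1) * (√q * √q)) := by ring
      _ = C3 * G'.natDegree * q ^ (d + 1 + 1) := by rw [hs, pow_succ q (d + 1)]
  have t4 := (t1.add t2).add t3
  have e : (2 : ℝ) * 1 + ((nn3 x₀ a b c : ℤ) : ℝ) + 0 = ((2 + nn3 x₀ a b c : ℤ) : ℝ) := by
    push_cast
    ring
  rw [e] at t4
  apply Asy.divq
  refine t4.congr 1 one_ne_zero fun F _ _ _ => ?_
  let _ : Fintype F := Fintype.ofFinite _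
  let _ : Fintype (R →+* F) := Fintype.ofFinite _
  have hfX : Finite (R[X] →+* F) := Finite.of_equiv _ (polyEquiv (A := R) (F := F)).symm
  let _ : Fintype (R[X] →+* F) := Fintype.ofFinite _
  have e9 : sT wtc (fun _ : Unit => G) (C N) F = ∑ φ : R →+* F,
        if φ N ≠ 0 then ∑ t : F, wtc F (fun _ => G.map (eval₂RingHom φ t)) else 0 := by
    rw [sT_eq]
    refine Eq.trans ?_ (sum_line (fun φ : R →+* F => φ N ≠ 0) (fun Φ => wtc F (fun _ => G.map Φ)))
    exact Finset.sum_congr rfl fun Φ _ => if_congr Iff.rfl rfl rfl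
  have e8 : sH N F = ∑ φ : R →+* F, if φ N ≠ 0 then (1 : ℝ) else 0 := by
    unfold sH
    rw [Nat.card_eq_fintype_card, Fintype.card_subtype, Finset.sum_boole]
  rw [e9, e8, sT_eq]
  rw [finsum_sub (fun φ : R →+* F => φ N ≠ 0)
    (fun φ => (Nat.card F : ℝ)⁻¹ * tr2 F (G.map (mapRingHom φ)) (G'.map φ))]
  have e6 : ∀ φ : R →+* F, tr2 F (G.map (mapRingHom φ)) (G'.map φ) =
      2 * (Nat.card F : ℝ) + (∑ t : F, wtc F (fun _ => G.map (eval₂RingHom φ t))) +
        wtc F (fun _ => G'.map φ) := by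
    intro φ
    unfold tr2 wtc
    rw [finsum_eq_sum_of_fintype, Finset.sum_neg_distrib]
    simp only [map_line]
    ring
  set q : ℝ := (Nat.card F : ℝ) with hq
  have hq0 : q ≠ 0 := by
    rw [hq]
    exact_mod_cast (Nat.card_pos (α := F)).ne'
  rw [Finset.mul_sum, Finset.mul_sum, Finset.mul_sum, ← Finset.sum_add_distrib,
    ← Finset.sum_add_distrib]
  refine Finset.sum_congr rfl fun φ _ => ?_
  by_cases h : φ N ≠ 0
  · rw [if_pos h, if_pos h, if_pos h, if_pos h, e6]
    field_simp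
  · rw [if_neg h, if_neg h, if_neg h, if_neg h]
    ring

/-- **The Euler product for `H²`.** -/
theorem euler_surface (hM : FG M) {d : ℕ} (hd : Algebra.trdeg ℚ M = d)
    (hω : Transcendental M ω) (htop : IntermediateField.adjoin M {ω} = ⊤) (ht : Transcendental M x₀)
    (hL : IntermediateField.adjoin M {x₀} = ⊤) {a b c : M[X][X]} (hodd : Odd c.natDegree)
    (hac : a.natDegree < c.natDegree) (hbc : b.natDegree < c.natDegree)
    (hΔ : b ^ 2 - 4 * a * c ≠ 0) {R : Type} [CommRing R] [IsDomain R]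
    [Algebra.FiniteType ℤ R] [Algebra R K] [IsFractionRing R K]
    {G : R[X][X]} (hG : G.Monic) (hGd : G.natDegree = c.natDegree)
    (hGm : G.map (mapRingHom (algebraMap R K)) = sf a b c ω)
    {G' : R[X]} (hG' : G'.Monic) (hGd' : G'.natDegree = c.natDegree) {N : R} (hN : N ≠ 0) :
    ∃ Φ : ℂ → ℂ,
      (∀ s : ℂ, ((d + 1 : ℕ) : ℝ) + 3 / 2 < s.re → HasProd (fun y : {y : Pt R // N ∉ y.asIdeal} =>
        ZG (tauS G G') y.1 ((qy y.1 : ℂ) ^ (-s))) (Φ s)) ∧
      DifferentiableOn ℂ Φ {s : ℂ | ((d + 1 : ℕ) : ℝ) + 1 < s.re} ∧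
      MeromorphicAt Φ (((d + 1 : ℕ) : ℂ) + 1) ∧ meromorphicOrderAt Φ (((d + 1 : ℕ) : ℂ) + 1) =
        ((-(2 + nn3 x₀ a b c) : ℤ) : WithTop ℤ) := by
  classical
  have htr : Algebra.trdeg ℚ K = (d + 1 : ℕ) := trdeg_line hd hω htop
  obtain ⟨C3, hC3, g3⟩ := hom_le (R := R) (K := K) (IsFractionRing.injective R K) (e := d + 1)
    (by rw [htr])
  refine euler_half (τ := tauS G G') (D := 2 + 2 * c.natDegree) (by positivity) ?_ hC3
    (fun F _ _ => g3 F) ?_
  · intro F _ _ φ
    rw [tauS_eq]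
    exact tr2_bound (hG.map _) (by rw [hG.natDegree_map, hGd]) (hG'.map _)
      (by rw [hG'.natDegree_map, hGd']) hodd
  · have h1 := asy_surface hM hd hω htop ht hL hodd hac hbc hΔ hG hGm hG'
      (by rw [hGd']; exact hodd) hN
    refine h1.congr 1 one_ne_zero fun F _ _ _ => ?_
    exact finsum_congr fun φ => tauS_eq G G' φ.1

end

end Pool.Agent.R410.NG
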