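import Pool.Agent.R410.BS.Tr
import Pool.Agent.R410.BS.Cod2
import Pool.Agent.TH958.An.Pts

/-!
# Sums over the points of two models
-/

set_option autoImplicit false
set_option linter.all false

namespace Pool.Agent.R410.NG

open Polynomial
open Pool.Agent.R410.BS (transfer_equiv good_le hom_le)

/-- a function of the families of polynomials over the fields -/
abbrev Wt (J : Type) : Type 1 := ∀ (F : Type) [Field F], (J → F[X]) → ℝ

/-- the function does not change under isomorphisms, and it is bounded by `c √q` for the finite fields -/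
structure IsWt {J : Type} (w : Wt J) (n : J → ℕ) (c : ℝ) : Prop where
  c0 : 0 ≤ c
  iso : ∀ (F F' : Type) [Field F] [Field F'] (e : F ≃+* F') (p : J → F[X]),
    w F' (fun j => (p j).map (e : F →+* F')) = w F p
  bound : ∀ (F : Type) [Field F] [Finite F] (p : J → F[X]),
    (∀ j, (p j).Monic ∧ (p j).natDegree = n j) → |w F p| ≤ c * √(Nat.card F : ℝ)

section
variable {J O R : Type} [CommRing O] [CommRing R]

/-- the sum over the points above `ψ` -/
noncomputable def sR (w : Wt J) (ρ : O →+* R) (g : J → R[X]) (N : R) (F : Type) [Field F]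
    (ψ : O →+* F) : ℝ :=
  ∑ᶠ φ : {φ : R →+* F // φ.comp ρ = ψ ∧ φ N ≠ 0}, w F (fun j => (g j).map φ.1)

/-- the sum over all points -/
noncomputable def sT (w : Wt J) (g : J → R[X]) (N : R) (F : Type) [Field F] : ℝ :=
  ∑ᶠ φ : {φ : R →+* F // φ N ≠ 0}, w F (fun j => (g j).map φ.1)

theorem finsum_sub {H : Type} [Fintype H] (P : H → Prop) [DecidablePred P] (W : H → ℝ) :
    ∑ᶠ φ : {φ : H // P φ}, W φ.1 = ∑ φ : H, if P φ then W φ else 0 := by
  rw [finsum_eq_sum_of_fintype, ← Finset.sum_filter]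
  exact (Finset.sum_subtype _ (fun x => by simp) W).symm

open Classical in
theorem sR_eq (w : Wt J) (ρ : O →+* R) (g : J → R[X]) (N : R) (F : Type) [Field F]
    [Fintype (R →+* F)] (ψ : O →+* F) : sR w ρ g N F ψ =
      ∑ φ : R →+* F, if φ.comp ρ = ψ ∧ φ N ≠ 0 then w F (fun j => (g j).map φ) else 0 :=
  finsum_sub (fun φ : R →+* F => φ.comp ρ = ψ ∧ φ N ≠ 0) (fun φ => w F (fun j => (g j).map φ))

open Classical in
theorem sT_eq (w : Wt J) (g : J → R[X]) (N : R) (F : Type) [Field F]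
    [Fintype (R →+* F)] : sT w g N F =
      ∑ φ : R →+* F, if φ N ≠ 0 then w F (fun j => (g j).map φ) else 0 :=
  finsum_sub (fun φ : R →+* F => φ N ≠ 0) (fun φ => w F (fun j => (g j).map φ))

theorem sT_sum (w : Wt J) (ρ : O →+* R) (g : J → R[X]) (N : R) (F : Type) [Field F]
    [Finite (R →+* F)] [Fintype (O →+* F)] : sT w g N F = ∑ ψ : O →+* F, sR w ρ g N F ψ := by
  classical
  let _ : Fintype (R →+* F) := Fintype.ofFinite _
  rw [sT_eq]
  simp only [sR_eq]
  rw [Finset.sum_comm]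
  refine Finset.sum_congr rfl fun φ _ => ?_
  rw [Finset.sum_eq_single (φ.comp ρ)]
  · by_cases h : φ N ≠ 0
    · rw [if_pos h, if_pos ⟨rfl, h⟩]
    · rw [if_neg h, if_neg fun h' => h h'.2]
  · intro ψ _ hne
    rw [if_neg]
    exact fun h' => hne h'.1.symm
  · intro h
    exact (h (Finset.mem_univ _)).elim

end

section
variable {J O R B K : Type} [CommRing O] [CommRing R] [IsDomain R] [CommRing B] [IsDomain B] [Field K]
  [CharZero K] [Algebra R K] [IsFractionRing R K] [Algebra B K] [IsFractionRing B K]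
  [Algebra.FiniteType ℤ R] [Algebra.FiniteType ℤ B]

open Classical in
/-- the points outside a closed subset -/
theorem part_bound {w : Wt J} {n : J → ℕ} {c : ℝ} (hw : IsWt w n c) {e : ℕ}
    (ρ : O →+* R) {g : J → R[X]} (hg : ∀ j, (g j).Monic ∧ (g j).natDegree = n j) {N r : R} (hN : N ∣ r)
    (F : Type) [Field F] [Finite F] [Fintype (R →+* F)] (ψ : O →+* F) :
    |sR w ρ g N F ψ - ∑ φ : {φ : R →+* F // φ r ≠ 0},
      if φ.1.comp ρ = ψ then w F (fun j => (g j).map φ.1) else 0| ≤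
        Nat.card {φ : R →+* F // φ r = 0} * (c * √(Nat.card F : ℝ)) := by
  classical
  have hc : ∀ φ : R →+* F, |w F (fun j => (g j).map φ)| ≤ c * √(Nat.card F : ℝ) := by
    intro φ
    refine hw.bound F _ fun j => ⟨(hg j).1.map φ, ?_⟩
    rw [(hg j).1.natDegree_map, (hg j).2]
  have h1 : ∑ φ : {φ : R →+* F // φ r ≠ 0},
      (if φ.1.comp ρ = ψ then w F (fun j => (g j).map φ.1) else 0) =
      ∑ φ : R →+* F, if φ r ≠ 0 then (if φ.comp ρ = ψ then w F (fun j => (g j).map φ) else 0)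
        else 0 := by
    rw [← finsum_eq_sum_of_fintype]
    exact finsum_sub (fun φ : R →+* F => φ r ≠ 0)
      (fun φ => if φ.comp ρ = ψ then w F (fun j => (g j).map φ) else 0)
  rw [h1, sR_eq, ← Finset.sum_sub_distrib]
  refine (Finset.abs_sum_le_sum_abs _ _).trans ?_
  have h2 : ∀ φ : R →+* F, |(if φ.comp ρ = ψ ∧ φ N ≠ 0 then w F (fun j => (g j).map φ) else 0) -
      (if φ r ≠ 0 then (if φ.comp ρ = ψ then w F (fun j => (g j).map φ) else 0) else 0)| ≤
      if φ r = 0 then c * √(Nat.card F : ℝ) else 0 := by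
    intro φ
    have h0 := hc φ
    have hcs : 0 ≤ c * √(Nat.card F : ℝ) := (abs_nonneg _).trans h0
    by_cases hr : φ r = 0
    · rw [if_pos hr, if_neg (not_not.2 hr), sub_zero]
      split_ifs
      · exact h0
      · rw [abs_zero]
        exact hcs
    · have hNn : φ N ≠ 0 := by
        obtain ⟨t, ht⟩ := hN
        intro h
        apply hr
        rw [ht, map_mul, h, zero_mul]
      rw [if_neg hr, if_pos hr]
      by_cases hψ : φ.comp ρ = ψ
      · rw [if_pos ⟨hψ, hNn⟩, if_pos hψ, sub_self, abs_zero]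
      · rw [if_neg (fun h => hψ h.1), if_neg hψ, sub_self, abs_zero]
  refine (Finset.sum_le_sum fun φ _ => h2 φ).trans (le_of_eq ?_)
  rw [← Finset.sum_filter, Finset.sum_const, nsmul_eq_mul, ← Fintype.card_subtype,
    ← Nat.card_eq_fintype_card]

/-- **The sums over the points of two models.** -/
theorem transfer_sum {w : Wt J} {n : J → ℕ} {c : ℝ} (hw : IsWt w n c) {e : ℕ}
    (he : Algebra.trdeg ℚ K ≤ e) (ρ : O →+* R) (ρ' : O →+* B)
    (hρ : (algebraMap R K).comp ρ = (algebraMap B K).comp ρ') {g : J → R[X]} {g' : J → B[X]}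
    (hgg : ∀ j, (g j).map (algebraMap R K) = (g' j).map (algebraMap B K))
    (hg : ∀ j, (g j).Monic ∧ (g j).natDegree = n j) {N : R} (hN : N ≠ 0) {N' : B} (hN' : N' ≠ 0) :
    ∃ (C : ℝ) (m : ℕ), 0 ≤ C ∧ m ≠ 0 ∧ ∀ (F : Type) [Field F] [Finite F], ((m : ℕ) : F) ≠ 0 →
      ∀ ψ : O →+* F, |sR w ρ g N F ψ - sR w ρ' g' N' F ψ| * √(Nat.card F : ℝ) ≤
        C * (Nat.card F : ℝ) ^ e := by
  classical
  have hiR : Function.Injective (algebraMap R K) := IsFractionRing.injective R K
  have hiB : Function.Injective (algebraMap B K) := IsFractionRing.injective B K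
  have hg' : ∀ j, (g' j).Monic ∧ (g' j).natDegree = n j := by
    intro j
    have h1 : ((g' j).map (algebraMap B K)).Monic := by
      rw [← hgg]
      exact (hg j).1.map _
    have h2 : (g' j).Monic := Function.Injective.monic_map_iff hiB |>.2 h1
    refine ⟨h2, ?_⟩
    rw [← h2.natDegree_map (algebraMap B K), ← hgg, (hg j).1.natDegree_map, (hg j).2]
  let v : (J × ℕ) ⊕ O → R := Sum.elim (fun z => (g z.1).coeff z.2) ρ
  let v' : (J × ℕ) ⊕ O → B := Sum.elim (fun z => (g' z.1).coeff z.2) ρ'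
  have hv : ∀ i, algebraMap R K (v i) = algebraMap B K (v' i) := by
    rintro (⟨j, i⟩ | o)
    · show algebraMap R K ((g j).coeff i) = algebraMap B K ((g' j).coeff i)
      rw [← coeff_map, ← coeff_map, hgg]
    · exact congrArg (fun f : O →+* K => f o) hρ
  obtain ⟨u, b, hu0, hb0, hNu, hNb, hbij⟩ := transfer_equiv v v' hv N hN N' hN'
  obtain ⟨C1, N1, hC1, hN1, g1⟩ := good_le (R := R) (K := K) hiR he hu0
  obtain ⟨C2, N2, hC2, hN2, g2⟩ := good_le (R := B) (K := K) hiB he hb0
  refine ⟨c * (C1 + C2), N1 * N2, mul_nonneg hw.c0 (add_nonneg hC1 hC2), mul_ne_zero hN1 hN2, ?_⟩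
  intro F _ _ hm ψ
  rw [Nat.cast_mul] at hm
  have c1 := (g1 F (left_ne_zero_of_mul hm)).2
  have c2 := (g2 F (right_ne_zero_of_mul hm)).2
  let _ : Fintype (R →+* F) := Fintype.ofFinite _
  let _ : Fintype (B →+* F) := Fintype.ofFinite _
  obtain ⟨E, hE⟩ := hbij F
  have hpoly : ∀ (φ : {φ : R →+* F // φ u ≠ 0}) j, (g j).map φ.1 = (g' j).map (E φ).1 := by
    intro φ j
    ext i
    rw [coeff_map, coeff_map]
    exact hE φ (Sum.inl (j, i))
  have hcomp : ∀ (φ : {φ : R →+* F // φ u ≠ 0}), φ.1.comp ρ = (E φ).1.comp ρ' := by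
    intro φ
    refine RingHom.ext fun o => ?_
    exact hE φ (Sum.inr o)
  have hS : ∑ φ : {φ : R →+* F // φ u ≠ 0},
      (if φ.1.comp ρ = ψ then w F (fun j => (g j).map φ.1) else 0) =
      ∑ φ : {φ : B →+* F // φ b ≠ 0},
      (if φ.1.comp ρ' = ψ then w F (fun j => (g' j).map φ.1) else 0) := by
    refine Fintype.sum_equiv E _ _ fun φ => ?_
    rw [hcomp φ]
    simp only [hpoly φ]
  have p1 := part_bound hw (e := e) ρ hg hNu F ψ
  have p2 := part_bound hw (e := e) ρ' hg' hNb F ψ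
  rw [hS] at p1
  set q : ℝ := (Nat.card F : ℝ) with hq
  set SB := ∑ φ : {φ : B →+* F // φ b ≠ 0},
      (if φ.1.comp ρ' = ψ then w F (fun j => (g' j).map φ.1) else 0) with hSB
  have hs0 : 0 ≤ √q := Real.sqrt_nonneg _
  have hss : √q * √q = q := Real.mul_self_sqrt (Nat.cast_nonneg _)
  have hc0 := hw.c0
  calc |sR w ρ g N F ψ - sR w ρ' g' N' F ψ| * √q
      ≤ (|sR w ρ g N F ψ - SB| + |sR w ρ' g' N' F ψ - SB|) * √q := by
        refine mul_le_mul_of_nonneg_right ?_ hs0
        rw [abs_sub_comm (sR w ρ' g' N' F ψ)]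
        exact abs_sub_le _ _ _
    _ ≤ (Nat.card {φ : R →+* F // φ u = 0} * (c * √q) +
        Nat.card {φ : B →+* F // φ b = 0} * (c * √q)) * √q :=
        mul_le_mul_of_nonneg_right (add_le_add p1 p2) hs0
    _ = c * (Nat.card {φ : R →+* F // φ u = 0} * (√q * √q) +
        Nat.card {φ : B →+* F // φ b = 0} * (√q * √q)) := by ring
    _ ≤ c * (C1 * q ^ e + C2 * q ^ e) := by
        rw [hss]
        exact mul_le_mul_of_nonneg_left (add_le_add c1 c2) hc0
    _ = c * (C1 + C2) * q ^ e := by ring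

end

end Pool.Agent.R410.NG
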